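import Pool.Agent.W875.TS.OBS

set_option autoImplicit false

/-! Vaught's conjecture for the index structures. -/

namespace Pool.Agent.W875.TS

open Set
open Pool.Agent.H899R2.VP hiding RS
open Pool.Agent.H533R2.VO (Glu Lev RS RIso VC Dich)
open Pool.Agent.H533R2.VS (US UIso UDich VCu)

variable {A : ℕ → ℕ}

/-- The permutation with `0 ↦ p`, increasing on the other numbers. -/
def cpE (p : ℕ) : Equiv.Perm ℕ where
  toFun n := if n = 0 then p else if n ≤ p then n - 1 else n
  invFun m := if m = p then 0 else if m < p then m + 1 else m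
  left_inv n := by
    dsimp only
    rcases Nat.eq_zero_or_pos n with h | h
    · subst h
      simp
    · rw [if_neg (by omega : ¬ n = 0)]
      by_cases h2 : n ≤ p
      · rw [if_pos h2, if_neg (by omega), if_pos (by omega)]
        omega
      · rw [if_neg h2, if_neg (by omega), if_neg (by omega)]
  right_inv m := by
    dsimp only
    by_cases h : m = p
    · rw [if_pos h, if_pos rfl]
      exact h.symm
    · rw [if_neg h]
      by_cases h2 : m < p
      · rw [if_pos h2, if_neg (by omega), if_pos (by omega)]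
        omega
      · rw [if_neg h2, if_neg (by omega), if_neg (by omega)]

theorem cpE_zero (p : ℕ) : cpE p 0 = p := rfl

theorem cpE_z (n : ℕ) : cpE 0 n = n := by
  show (if n = 0 then 0 else if n ≤ 0 then n - 1 else n) = n
  split_ifs <;> omega

/-- Relabelled structure. -/
def lbl (p : ℕ) (Q : RS A) : RS A := fun i v => Q i (cpE p ∘ v)

/-- The decoded structure. -/
noncomputable def dcd (p : ℕ) (x : US A) : US (bE A) :=
  (decp (lbl p x.1), fun i u => x.2 (i + 1) (cpE p (u + 1)))

/-- Members of the coded class over `p`. -/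
structure Hp (B : Set (US (bE A))) (p : ℕ) (x : US A) : Prop where
  pt : ∀ u, x.2 0 u = true ↔ u = p
  off : ∀ i, x.2 (i + 1) p = false
  cst : ∀ i (v : Fin (A i) → ℕ), (¬ ∃ j l, v j ≠ v l) → x.1 i v = false
  mem : dcd p x ∈ B

theorem rd_decp (Q : RS A) (i m : ℕ) (t : Fin (A i) → ℕ) :
    rd (decp Q) i (m + 1) t = true ↔ okp m (· = ·) t ∧ Q i (sh m t) = true :=
  rd_mk _ _ _ _ _ _ _

theorem rd_decp0 (Q : RS A) (i : ℕ) (t : Fin (A i) → ℕ) : rd (decp Q) i 0 t = false := by
  rw [← Bool.not_eq_true]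
  exact fun h => (rd_mk _ _ _ _ _ _ _).1 h

theorem decp_0 (Q : RS A) (t : Fin 2 → ℕ) : decp Q 0 t = false := by
  rw [← Bool.not_eq_true]
  exact fun h => (mk_0 _ _ _ _ _).1 h

theorem decp_1 (Q : RS A) (t : Fin 2 → ℕ) : decp Q 1 t = false := by
  rw [← Bool.not_eq_true]
  exact fun h => (mk_1 _ _ _ _ _).1 h

theorem decp_2 (Q : RS A) (t : Fin 3 → ℕ) : decp Q 2 t = false := by
  rw [← Bool.not_eq_true]
  exact fun h => (mk_2 _ _ _ _ _).1 h

theorem okp_nz {k : ℕ} {v : Fin k → ℕ} (hv : ∃ j l, v j ≠ v l) :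
    okp (nz v) (· = ·) (fun j => v j - 1) := by
  by_cases hz : ∃ l, v l = 0
  · obtain ⟨l, hl⟩ := hz
    obtain ⟨j1, j2, h12⟩ := hv
    have hj : ∃ j, v j ≠ 0 := by
      by_cases h1 : v j1 = 0
      · exact ⟨j2, fun h2 => h12 (h1.trans h2.symm)⟩
      · exact ⟨j1, h1⟩
    obtain ⟨j, hj⟩ := hj
    refine Or.inl ⟨j, l, (nz_iff v j).2 hj, ?_⟩
    rw [← Bool.not_eq_true, nz_iff]
    exact fun h => h hl
  · push Not at hz
    obtain ⟨j, l, h12⟩ := hv
    refine Or.inr ⟨j, l, (nz_iff v j).2 (hz j), (nz_iff v l).2 (hz l), ?_⟩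
    have := hz j
    have := hz l
    show ¬ (v j - 1 = v l - 1)
    omega

theorem sh_nz {k : ℕ} (v : Fin k → ℕ) : sh (nz v) (fun j => v j - 1) = v := by
  funext j
  unfold sh
  by_cases h : v j = 0
  · rw [if_neg (by rw [nz_iff]; exact fun h' => h' h)]
    exact h.symm
  · rw [if_pos ((nz_iff v j).2 h)]
    show v j - 1 + 1 = v j
    omega

theorem addpt_decp (Q : RS A) (hQ : ∀ i (v : Fin (A i) → ℕ), (¬ ∃ j l, v j ≠ v l) → Q i v = false) :
    addpt (decp Q) = Q := by
  funext i v
  unfold addpt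
  by_cases hv : ∃ j l, v j ≠ v l
  · rw [if_pos hv, Bool.eq_iff_iff, rd_decp, sh_nz]
    exact ⟨fun h => h.2, fun h => ⟨okp_nz hv, h⟩⟩
  · rw [if_neg hv]
    exact (hQ i v hv).symm

theorem comp_cst {k : ℕ} {f : ℕ → ℕ} (hf : Function.Injective f) (v : Fin k → ℕ) :
    (∃ j l, (f ∘ v) j ≠ (f ∘ v) l) ↔ ∃ j l, v j ≠ v l := by
  constructor
  · rintro ⟨j, l, h⟩
    exact ⟨j, l, fun h' => h (congrArg f h')⟩
  · rintro ⟨j, l, h⟩
    exact ⟨j, l, fun h' => h (hf h')⟩

theorem Hp.lcst {B : Set (US (bE A))} {p : ℕ} {x : US A} (h : Hp B p x) :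
    ∀ i (v : Fin (A i) → ℕ), (¬ ∃ j l, v j ≠ v l) → lbl p x.1 i v = false := by
  intro i v hv
  refine h.cst i _ ?_
  rw [comp_cst (cpE p).injective]
  exact hv

theorem Hp.uniq {B : Set (US (bE A))} {p p' : ℕ} {x : US A} (h : Hp B p x) (h' : Hp B p' x) :
    p = p' := (h'.pt p).1 ((h.pt p).2 rfl)

/-- Permutations fixing `0`. -/
structure Fx (τ τ' : Equiv.Perm ℕ) : Prop where
  z : τ 0 = 0
  s : ∀ n, τ (n + 1) = τ' n + 1

theorem exists_fx {τ : Equiv.Perm ℕ} (h : τ 0 = 0) : ∃ τ' : Equiv.Perm ℕ, Fx τ τ' := by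
  have h1 : ∀ n, τ (n + 1) ≠ 0 := by
    intro n hn
    have := τ.injective (hn.trans h.symm)
    omega
  have h0 : τ.symm 0 = 0 := by
    rw [Equiv.symm_apply_eq]
    exact h.symm
  have h2 : ∀ n, τ.symm (n + 1) ≠ 0 := by
    intro n hn
    have := τ.symm.injective (hn.trans h0.symm)
    omega
  refine ⟨⟨fun n => τ (n + 1) - 1, fun n => τ.symm (n + 1) - 1, fun n => ?_, fun n => ?_⟩, h,
    fun n => ?_⟩
  · have := h1 n
    have e : τ (n + 1) - 1 + 1 = τ (n + 1) := by omega
    show τ.symm (τ (n + 1) - 1 + 1) - 1 = n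
    rw [e, Equiv.symm_apply_apply]
    omega
  · have := h2 n
    have e : τ.symm (n + 1) - 1 + 1 = τ.symm (n + 1) := by omega
    show τ (τ.symm (n + 1) - 1 + 1) - 1 = n
    rw [e, Equiv.apply_symm_apply]
    omega
  · have := h1 n
    show τ (n + 1) = τ (n + 1) - 1 + 1
    omega

theorem exists_ext (τ' : Equiv.Perm ℕ) : ∃ τ : Equiv.Perm ℕ, Fx τ τ' := by
  refine ⟨⟨fun n => if n = 0 then 0 else τ' (n - 1) + 1,
    fun n => if n = 0 then 0 else τ'.symm (n - 1) + 1, fun n => ?_, fun n => ?_⟩, rfl,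
    fun n => ?_⟩
  · dsimp only
    by_cases h : n = 0
    · simp [h]
    · rw [if_neg h, if_neg (by omega), Nat.add_sub_cancel, Equiv.symm_apply_apply]
      omega
  · dsimp only
    by_cases h : n = 0
    · simp [h]
    · rw [if_neg h, if_neg (by omega), Nat.add_sub_cancel, Equiv.apply_symm_apply]
      omega
  · show (if n + 1 = 0 then 0 else τ' (n + 1 - 1) + 1) = τ' n + 1
    rw [if_neg (by omega), Nat.add_sub_cancel]

theorem Fx.sh {τ τ' : Equiv.Perm ℕ} (h : Fx τ τ') {k : ℕ} (m : ℕ) (t : Fin k → ℕ) :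
    TS.sh m (τ' ∘ t) = τ ∘ TS.sh m t := by
  funext j
  unfold TS.sh
  simp only [Function.comp_apply]
  split_ifs
  · exact (h.s _).symm
  · exact h.z.symm

theorem okp_comp {k : ℕ} (m : ℕ) (f : ℕ → ℕ) (hf : Function.Injective f) (t : Fin k → ℕ) :
    okp m (· = ·) (f ∘ t) ↔ okp m (· = ·) t := by
  unfold okp
  simp only [Function.comp_apply, hf.eq_iff]

/-- Decoding is functorial. -/
theorem dcd_iso {x y : US A} {p p' : ℕ} {σ : Equiv.Perm ℕ}
    (h1 : ∀ (i : ℕ) (v : Fin (A i) → ℕ), y.1 i (⇑σ ∘ v) = x.1 i v)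
    (h2 : ∀ i u, y.2 i (σ u) = x.2 i u) (hp : σ p = p') : UIso (dcd p x) (dcd p' y) := by
  have h3 : ((cpE p).trans (σ.trans (cpE p').symm)) 0 = 0 := by
    simp only [Equiv.trans_apply, cpE_zero, hp]
    rw [Equiv.symm_apply_eq]
    rfl
  obtain ⟨τ', hτ⟩ := exists_fx h3
  set τ := (cpE p).trans (σ.trans (cpE p').symm) with hτd
  have h4 : ∀ n, cpE p' (τ n) = σ (cpE p n) := by
    intro n
    rw [hτd]
    simp
  have h5 : ∀ (i : ℕ) (v : Fin (A i) → ℕ), lbl p' y.1 i (τ ∘ v) = lbl p x.1 i v := by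
    intro i v
    have : (cpE p' ∘ τ ∘ v) = σ ∘ cpE p ∘ v := by
      funext j
      exact h4 _
    show y.1 i (cpE p' ∘ τ ∘ v) = x.1 i (cpE p ∘ v)
    rw [this, h1]
  refine ⟨τ', ?_, ?_⟩
  · have key : (fun n v => decp (lbl p' y.1) n (τ' ∘ v)) = decp (lbl p x.1) := by
      refine RS_ext ?_ ?_ ?_ ?_
      · intro u w
        exact (decp_0 _ _).trans (decp_0 _ _).symm
      · intro u w
        exact (decp_1 _ _).trans (decp_1 _ _).symm
      · intro u w z
        exact (decp_2 _ _).trans (decp_2 _ _).symm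
      · intro i c t
        have h6 : rd (fun n v => decp (lbl p' y.1) n (τ' ∘ v)) i c t =
            rd (decp (lbl p' y.1)) i c (τ' ∘ t) := rfl
        rw [h6]
        cases c with
        | zero => rw [rd_decp0, rd_decp0]
        | succ m =>
          rw [Bool.eq_iff_iff, rd_decp, rd_decp, okp_comp m τ' τ'.injective, hτ.sh, h5]
    intro i v
    exact congrFun (congrFun key i) v
  · intro i u
    show y.2 (i + 1) (cpE p' (τ' u + 1)) = x.2 (i + 1) (cpE p (u + 1))
    rw [← hτ.s, h4, h2]

/-- Decoding reflects isomorphism. -/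
theorem dcd_refl {B : Set (US (bE A))} {x y : US A} {p p' : ℕ} (hx : Hp B p x) (hy : Hp B p' y)
    (h : UIso (dcd p x) (dcd p' y)) : UIso x y := by
  obtain ⟨τ', h1, h2⟩ := h
  obtain ⟨τ, hτ⟩ := exists_ext τ'
  have h3 : ∀ (i : ℕ) (w : Fin (A i) → ℕ), lbl p' y.1 i (τ ∘ w) = lbl p x.1 i w := by
    intro i w
    by_cases hw : ∃ j l, w j ≠ w l
    · have e1 : lbl p x.1 i w = rd (decp (lbl p x.1)) i (nz w + 1) (fun j => w j - 1) := by
        rw [Bool.eq_iff_iff, rd_decp, sh_nz]
        exact ⟨fun h => ⟨okp_nz hw, h⟩, fun h => h.2⟩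
      have e2 : rd (decp (lbl p x.1)) i (nz w + 1) (fun j => w j - 1) =
          rd (decp (lbl p' y.1)) i (nz w + 1) (τ' ∘ fun j => w j - 1) :=
        (h1 (ix i (nz w + 1) + 3) _).symm
      rw [e1, e2, Bool.eq_iff_iff, rd_decp, okp_comp _ _ τ'.injective, hτ.sh, sh_nz]
      exact ⟨fun h => ⟨okp_nz hw, h⟩, fun h => h.2⟩
    · rw [hx.lcst i w hw, hy.lcst i (τ ∘ w) (by rw [comp_cst τ.injective]; exact hw)]
  refine ⟨(cpE p).symm.trans (τ.trans (cpE p')), ?_, ?_⟩
  · intro i v
    have h4 := h3 i ((cpE p).symm ∘ v)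
    have e1 : lbl p x.1 i ((cpE p).symm ∘ v) = x.1 i v := by
      have e0 : (cpE p ∘ (cpE p).symm ∘ v) = v := by
        funext j
        simp
      show x.1 i (cpE p ∘ (cpE p).symm ∘ v) = x.1 i v
      rw [e0]
    rw [e1] at h4
    exact h4
  · intro i u
    show y.2 i (cpE p' (τ ((cpE p).symm u))) = x.2 i u
    obtain ⟨n, rfl⟩ := (cpE p).surjective u
    rw [Equiv.symm_apply_apply]
    cases n with
    | zero =>
      rw [hτ.z]
      show y.2 i p' = x.2 i p
      cases i with
      | zero => rw [(hx.pt p).2 rfl, (hy.pt p').2 rfl]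
      | succ i => rw [hx.off, hy.off]
    | succ n =>
      rw [hτ.s]
      cases i with
      | zero =>
        have e1 : x.2 0 (cpE p (n + 1)) = false := by
          rw [← Bool.not_eq_true, hx.pt, ← cpE_zero p]
          intro h
          have := (cpE p).injective h
          omega
        have e2 : y.2 0 (cpE p' (τ' n + 1)) = false := by
          rw [← Bool.not_eq_true, hy.pt]
          nth_rewrite 2 [← cpE_zero p']
          intro h
          have := (cpE p').injective h
          omega
        rw [e1, e2]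
      | succ i => exact h2 i n

theorem cont_decp : Continuous (decp : RS A → RS (bE A)) := by
  classical
  refine continuous_pi fun n => continuous_pi fun t => ?_
  match n, t with
  | 0, t =>
    have : (fun Q : RS A => decp Q 0 t) = fun _ => false := by
      funext Q
      exact decp_0 Q t
    rw [this]
    exact continuous_const
  | 1, t =>
    have : (fun Q : RS A => decp Q 1 t) = fun _ => false := by
      funext Q
      exact decp_1 Q t
    rw [this]
    exact continuous_const
  | 2, t =>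
    have : (fun Q : RS A => decp Q 2 t) = fun _ => false := by
      funext Q
      exact decp_2 Q t
    rw [this]
    exact continuous_const
  | n + 3, t =>
    have h1 : (fun Q : RS A => decp Q (n + 3) t) =
        fun Q => rd (decp Q) n.unpair.1 n.unpair.2 t := by
      funext Q
      exact rd_eq _ _ _
    rw [h1]
    cases n.unpair.2 with
    | zero =>
      have : (fun Q : RS A => rd (decp Q) n.unpair.1 0 t) = fun _ => false := by
        funext Q
        exact rd_decp0 Q _ _
      rw [this]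
      exact continuous_const
    | succ m =>
      have : (fun Q : RS A => rd (decp Q) n.unpair.1 (m + 1) t) =
          fun Q => decide (okp m (· = ·) t) && Q n.unpair.1 (sh m t) := by
        funext Q
        rw [Bool.eq_iff_iff, rd_decp, Bool.and_eq_true, decide_eq_true_eq]
      rw [this]
      have h2 : Continuous fun Q : RS A => Q n.unpair.1 (sh m t) :=
        (continuous_apply (sh m t)).comp (continuous_apply n.unpair.1)
      exact (continuous_of_discreteTopology (f := fun b => decide (okp m (· = ·) t) && b)).comp h2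

theorem cont_dcd (p : ℕ) : Continuous (dcd p : US A → US (bE A)) := by
  refine Continuous.prodMk (cont_decp.comp ?_) ?_
  · refine continuous_pi fun i => continuous_pi fun v => ?_
    exact (continuous_apply (⇑(cpE p) ∘ v)).comp ((continuous_apply i).comp continuous_fst)
  · refine continuous_pi fun i => continuous_pi fun u => ?_
    exact (continuous_apply (cpE p (u + 1))).comp ((continuous_apply (i + 1)).comp continuous_snd)

theorem meas_Hp {B : Set (US (bE A))} (hB : MeasurableSet B) (p : ℕ) :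
    MeasurableSet {x : US A | Hp B p x} := by
  have h : {x : US A | Hp B p x} = {x : US A | ∀ u, x.2 0 u = true ↔ u = p} ∩
      ({x : US A | ∀ i, x.2 (i + 1) p = false} ∩
      ({x : US A | ∀ i (v : Fin (A i) → ℕ), (¬ ∃ j l, v j ≠ v l) → x.1 i v = false} ∩
        (dcd p ⁻¹' B))) := by
    ext x
    constructor
    · rintro ⟨h1, h2, h3, h4⟩
      exact ⟨h1, h2, h3, h4⟩
    · rintro ⟨h1, h2, h3, h4⟩
      exact ⟨h1, h2, h3, h4⟩
  have c2 : ∀ i u, Measurable fun x : US A => x.2 i u := fun i u =>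
    (measurable_pi_apply u).comp ((measurable_pi_apply i).comp measurable_snd)
  have c1 : ∀ i v, Measurable fun x : US A => x.1 i v := fun i v =>
    (measurable_pi_apply v).comp ((measurable_pi_apply i).comp measurable_fst)
  rw [h]
  refine MeasurableSet.inter ?_ (MeasurableSet.inter ?_ (MeasurableSet.inter ?_ ?_))
  · exact (Measurable.forall fun u => Measurable.iff
      (measurableSet_setOfPred.1 (c2 0 u (measurableSet_singleton true)))
      measurable_const).setOf
  · exact (Measurable.forall fun i =>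
      measurableSet_setOfPred.1 (c2 (i + 1) p (measurableSet_singleton false))).setOf
  · exact (Measurable.forall fun i => Measurable.forall fun v => Measurable.imp measurable_const
      (measurableSet_setOfPred.1 (c1 i v (measurableSet_singleton false)))).setOf
  · exact (cont_dcd p).measurable hB

theorem uiso_symm {a : ℕ → ℕ} {x y : US a} (h : UIso x y) : UIso y x := by
  obtain ⟨σ, h1, h2⟩ := h
  refine ⟨σ.symm, fun i v => ?_, fun i u => ?_⟩
  · have h3 := h1 i (⇑σ.symm ∘ v)
    have e0 : (⇑σ ∘ ⇑σ.symm ∘ v) = v := by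
      funext j
      simp
    rw [e0] at h3
    exact h3.symm
  · have h3 := h2 i (σ.symm u)
    rw [Equiv.apply_symm_apply] at h3
    exact h3.symm

/-- Vaught's conjecture for the index structures. -/
theorem vcu_V1 {V : RS A → Prop} (hV : VCu V) : VCu (V1 V) := by
  classical
  intro B hBm hBi hBV
  have hinv : ∀ x y : US A, UIso x y → (∃ p, Hp B p x) → ∃ p, Hp B p y := by
    rintro x y ⟨σ, h1, h2⟩ ⟨p, hp⟩
    refine ⟨σ p, ?_, ?_, ?_, ?_⟩
    · intro u
      obtain ⟨w, rfl⟩ := σ.surjective u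
      rw [h2, hp.pt, σ.injective.eq_iff]
    · intro i
      rw [h2]
      exact hp.off i
    · intro i v hv
      have h3 := h1 i (⇑σ.symm ∘ v)
      have h4 : (⇑σ ∘ ⇑σ.symm ∘ v) = v := by
        funext j
        simp
      rw [h4] at h3
      rw [h3]
      refine hp.cst i _ ?_
      rw [comp_cst σ.symm.injective]
      exact hv
    · exact (hBi _ _ (dcd_iso h1 h2 rfl)).1 hp.mem
  have hm : MeasurableSet {x : US A | ∃ p, Hp B p x} := by
    have : {x : US A | ∃ p, Hp B p x} = ⋃ p, {x : US A | Hp B p x} := by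
      ext x
      simp
    rw [this]
    exact MeasurableSet.iUnion fun p => meas_Hp hBm p
  have hiff : ∀ x y : US A, UIso x y →
      (x ∈ {x : US A | ∃ p, Hp B p x} ↔ y ∈ {x : US A | ∃ p, Hp B p x}) := fun x y h =>
    ⟨hinv x y h, hinv y x (uiso_symm h)⟩
  have hsub : ∀ x ∈ {x : US A | ∃ p, Hp B p x}, V x.1 := by
    rintro x ⟨p, hp⟩
    have h1 := (hBV _ hp.mem).1 (cpE p).symm
    have h2 : addpt (dcd p x).1 = lbl p x.1 := addpt_decp _ hp.lcst
    rw [h2] at h1
    have h3 : (fun i v => lbl p x.1 i (⇑(cpE p).symm ∘ v)) = x.1 := by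
      funext i v
      have e0 : (cpE p ∘ (cpE p).symm ∘ v) = v := by
        funext j
        simp
      show x.1 i (cpE p ∘ (cpE p).symm ∘ v) = x.1 i v
      rw [e0]
    rw [h3] at h1
    exact h1
  rcases hV _ hm hiff hsub with ⟨f, hf⟩ | ⟨g, hg1, hg2, hg3⟩
  · left
    refine ⟨fun n => if h : ∃ p, Hp B p (f n) then dcd h.choose (f n) else
      (fun _ _ => false, fun _ _ => false), fun x hx => ?_⟩
    -- the coded structure
    obtain ⟨y, hy⟩ : ∃ y : US A, y = (addpt x.1, fun i u => match i with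
      | 0 => decide (u = 0)
      | i + 1 => if u = 0 then false else x.2 i (u - 1)) := ⟨_, rfl⟩
    have hd : dcd 0 y = x := by
      refine Prod.ext ?_ ?_
      · have : lbl 0 y.1 = addpt x.1 := by
          funext i v
          have e0 : (cpE 0 ∘ v) = v := by
            funext j
            exact cpE_z _
          show y.1 i (cpE 0 ∘ v) = addpt x.1 i v
          rw [e0, hy]
        show decp (lbl 0 y.1) = x.1
        rw [this]
        exact (hBV x hx).2
      · funext i u
        show y.2 (i + 1) (cpE 0 (u + 1)) = x.2 i u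
        rw [cpE_z, hy]
        show (if u + 1 = 0 then false else x.2 i (u + 1 - 1)) = x.2 i u
        rw [if_neg (by omega), Nat.add_sub_cancel]
    have hyH : Hp B 0 y := by
      refine ⟨?_, ?_, ?_, ?_⟩
      · intro u
        rw [hy]
        show decide (u = 0) = true ↔ u = 0
        exact decide_eq_true_iff
      · intro i
        rw [hy]
        rfl
      · intro i v hv
        rw [hy]
        show addpt x.1 i v = false
        unfold addpt
        rw [if_neg hv]
      · rw [hd]
        exact hx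
    obtain ⟨n, hn⟩ := hf y ⟨0, hyH⟩
    refine ⟨n, ?_⟩
    have hex : ∃ p, Hp B p (f n) := hinv _ _ (uiso_symm hn) ⟨0, hyH⟩
    show UIso (if h : ∃ p, Hp B p (f n) then dcd h.choose (f n) else
      (fun _ _ => false, fun _ _ => false)) x
    rw [dif_pos hex]
    obtain ⟨σ, h1, h2⟩ := hn
    have hp : σ hex.choose = 0 := by
      refine (hyH.pt _).1 ?_
      rw [h2]
      exact (hex.choose_spec.pt _).2 rfl
    have := dcd_iso h1 h2 hp
    rwa [hd] at this
  · right
    choose P hP using hg2
    refine ⟨fun c => dcd (P c) (g c), ?_, fun c => (hP c).mem, fun c d h => hg3 c d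
      (dcd_refl (hP c) (hP d) h)⟩
    rw [continuous_iff_continuousAt]
    intro c0
    have hopen : IsOpen {c | (g c).2 0 (P c0) = true} := by
      have hc : Continuous fun c => (g c).2 0 (P c0) :=
        (continuous_apply (P c0)).comp ((continuous_apply 0).comp (continuous_snd.comp hg1))
      exact (isOpen_discrete {true}).preimage hc
    have hmem : c0 ∈ {c | (g c).2 0 (P c0) = true} := ((hP c0).pt _).2 rfl
    have h1 : ContinuousAt (fun c => dcd (P c0) (g c)) c0 :=
      ((cont_dcd (P c0)).comp hg1).continuousAt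
    refine h1.congr ?_
    filter_upwards [hopen.mem_nhds hmem] with c hc
    have : P c0 = P c := ((hP c).pt _).1 hc
    rw [this]

end Pool.Agent.W875.TS
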