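import Pool.Agent.W875.TS.Spec

set_option autoImplicit false

/-! Task BASE3: the base family. -/

namespace Pool.Agent.W875.TS

open Set

variable {A : ℕ → ℕ}
open Pool.Agent.H899R2.VP hiding RS
open Pool.Agent.H533R2.VO (Glu Lev RS)

theorem t_BASE3 (h1 : S_LAB3 A) (h2 : S_GENC A) : S_BASE3 A := by
  intro V α K hK
  obtain ⟨c, hc⟩ := h1 V α K hK α hK.lt
  classical
  -- the choice of the functions
  have hg : ∀ κ : ℕ, ∃ g : ℕ → St (aD A) × Set ℕ,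
      (∃ M ∈ K, ∃ x z, c M [x, z] = κ ∧ Small α M (Cn M x z)) →
      ∃ M ∈ K, ∃ x z, c M [x, z] = κ ∧
        ∀ (N : St (aD A)) (Y : Set ℕ), BF M N (Cn M x z) Y α ∅ →
          ∃ n, IsoOn (g n).1 N (g n).2 Y ∅ := by
    intro κ
    by_cases h : ∃ M ∈ K, ∃ x z, c M [x, z] = κ ∧ Small α M (Cn M x z)
    · obtain ⟨M, hM, x, z, hκ, g, hg⟩ := h
      exact ⟨g, fun _ => ⟨M, hM, x, z, hκ, hg⟩⟩
    · exact ⟨fun _ => (((fun _ _ => false, fun _ _ => false) : St (aD A)), ∅), fun h' => absurd h' h⟩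
  choose g hg using hg
  obtain ⟨S, hS, hSf⟩ := h2 (fun n => g n.unpair.1 n.unpair.2)
  have hSg : ∀ κ n, g κ n ∈ S := by
    intro κ n
    have := hSf (Nat.pair κ n)
    simpa using this
  refine ⟨S, hS, ?_⟩
  intro M hM x z _ hnot hsm
  obtain ⟨M0, hM0, x0, z0, hκ, hM0g⟩ := hg (c M [x, z]) ⟨M, hM, x, z, rfl, hsm⟩
  have hbf := hc M0 hM0 M hM [x0, z0] [x, z] rfl hκ
  have e1 : (x0, x) ∈ zipSet [x0, z0] [x, z] := by
    rw [zipSet_cons]; exact mem_insert _ _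
  have e2 : (z0, z) ∈ zipSet [x0, z0] [x, z] := by
    rw [zipSet_cons, zipSet_cons]; exact mem_insert_of_mem _ (mem_insert _ _)
  obtain ⟨n, hn⟩ := hM0g M (Cn M x z) (resCn0 e1 e2 hbf)
  exact hnot (hS.iso _ _ _ _ (hSg _ n) hn)

end Pool.Agent.W875.TS
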