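import Pool.Agent.W875.TS.Spec
import Pool.Agent.H533R2.VD.BL3

set_option autoImplicit false

/-! A full binary tree from unbounded ranks. -/

namespace Pool.Agent.W875.TS
open Set MeasureTheory

variable {A : ℕ → ℕ}
open Pool.Agent.H899R2.VP hiding RS

theorem t_BL3 : S_BL3 A := by
  intro K B Sp hK hB hSp h
  classical
  have b1 : BorelSpace ((i : ℕ) → (Fin (aD A i) → ℕ) → Bool) := inferInstance
  have b2' : BorelSpace (ℕ → Bool) := inferInstance
  have s2' : SecondCountableTopology (ℕ → Bool) := inferInstance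
  have b2'' : BorelSpace (ℕ → ℕ → Bool) := inferInstance
  have s2'' : SecondCountableTopology (ℕ → ℕ → Bool) := inferInstance
  have b2 : BorelSpace (ℕ → ℕ → ℕ → Bool) := Pi.borelSpace
  have s2 : SecondCountableTopology (ℕ → ℕ → ℕ → Bool) := inferInstance
  have s1 : SecondCountableTopology (St (aD A)) := inferInstance
  have b3 : BorelSpace (St (aD A)) := inferInstance
  have b3' : BorelSpace Pool.Agent.H533R2.VD.Bl3D := inferInstance
  have b4 : BorelSpace (St (aD A) × Pool.Agent.H533R2.VD.Bl3D) := inferInstance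
  have b5 : PolishSpace (St (aD A) × Pool.Agent.H533R2.VD.Bl3D) := Pool.Agent.H533R2.VD.bl3_polish_of
  set W : Set (St (aD A) × Pool.Agent.H533R2.VD.Bl3D) :=
    {Q | Q.1 ∈ K ∧ (∀ p, Q.2.1 p = true ↔ Q.1 ∈ K ∧ B Q.1 p) ∧
      ∀ p q r, Q.2.2 p q r = true ↔ Q.1 ∈ K ∧ Sp Q.1 p q r} with hW
  have hWm : MeasurableSet W := by
    have h1 : MeasurableSet {Q : St (aD A) × Pool.Agent.H533R2.VD.Bl3D | Q.1 ∈ K} := measurable_fst hK
    have h2 : MeasurableSet {Q : St (aD A) × Pool.Agent.H533R2.VD.Bl3D |
        ∀ p, Q.2.1 p = true ↔ Q.1 ∈ K ∧ B Q.1 p} := by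
      apply measurableSet_setOfPred.2
      refine Measurable.forall fun x => ?_
      refine Measurable.iff ?_ ?_
      · apply measurableSet_setOfPred.1
        have h3 : Measurable (fun Q : St (aD A) × Pool.Agent.H533R2.VD.Bl3D => Q.2.1 x) :=
          (measurable_pi_apply x).comp (measurable_fst.comp measurable_snd)
        exact h3 (measurableSet_singleton true)
      · apply measurableSet_setOfPred.1
        exact measurable_fst (hB x)
    have h3 : MeasurableSet {Q : St (aD A) × Pool.Agent.H533R2.VD.Bl3D |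
        ∀ p q r, Q.2.2 p q r = true ↔ Q.1 ∈ K ∧ Sp Q.1 p q r} := by
      apply measurableSet_setOfPred.2
      refine Measurable.forall fun x => Measurable.forall fun y => Measurable.forall fun y' => ?_
      refine Measurable.iff ?_ ?_
      · apply measurableSet_setOfPred.1
        have h3 : Measurable (fun Q : St (aD A) × Pool.Agent.H533R2.VD.Bl3D => Q.2.2 x y y') :=
          (measurable_pi_apply y').comp ((measurable_pi_apply y).comp
            ((measurable_pi_apply x).comp (measurable_snd.comp measurable_snd)))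
        exact h3 (measurableSet_singleton true)
      · apply measurableSet_setOfPred.1
        exact measurable_fst (hSp x y y')
    exact h1.inter (h2.inter h3)
  have hmemW : ∀ M ∈ K, (M, ((fun p => decide (B M p)), fun p q r => decide (Sp M p q r))) ∈ W := by
    intro M hM
    refine ⟨hM, fun x => ?_, fun p q r => ?_⟩
    · simp [hM]
    · simp [hM]
  have han : AnalyticSet W := hWm.analyticSet
  rw [AnalyticSet] at han
  rcases han with he | ⟨f, hf, hr⟩
  · obtain ⟨M, hM, -⟩ := h 0 (Ordinal.omega_pos 1)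
    have := hmemW M hM
    rw [he] at this
    exact absurd this (Set.notMem_empty _)
  · have hfW : ∀ z, f z ∈ W := fun z => by rw [← hr]; exact mem_range_self z
    have hiff1 : ∀ z x, ((f z).2.1 x = true ↔ B (f z).1 x) := by
      intro z x
      have h1 := (hfW z).2.1 x
      rw [h1]
      exact ⟨fun h => h.2, fun h => ⟨(hfW z).1, h⟩⟩
    have hiff2 : ∀ z p q r, ((f z).2.2 p q r = true ↔ Sp (f z).1 p q r) := by
      intro z p q r
      have h1 := (hfW z).2.2 p q r
      rw [h1]
      exact ⟨fun h => h.2, fun h => ⟨(hfW z).1, h⟩⟩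
    obtain ⟨z, P, hP1, hP2⟩ := Pool.Agent.H533R2.VD.bl3_tree (fun z => (f z).2) (continuous_snd.comp hf) (by
      intro ξ hξ
      obtain ⟨M, hM, x, hxy⟩ := h ξ hξ
      have h1 := hmemW M hM
      rw [← hr] at h1
      obtain ⟨z, hz⟩ := h1
      refine ⟨z, x, ?_⟩
      unfold Pool.Agent.H533R2.VD.bl3R
      have e1 : (fun p => (f z).2.1 p = true) = B M := by
        funext p
        rw [hz]
        simp
      have e2 : (fun p q r => (f z).2.2 p q r = true) = Sp M := by
        funext p q r
        rw [hz]
        simp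
      rw [e1, e2]
      exact hxy)
    exact ⟨(f z).1, (hfW z).1, P, fun s => (hiff1 z _).1 (hP1 s), fun s => (hiff2 z _ _ _).1 (hP2 s)⟩

end Pool.Agent.W875.TS
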