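import Pool.Agent.W875.TS.Spec

set_option autoImplicit false

/-! From the binary tree to a comb. -/

namespace Pool.Agent.W875.TS

open Set

variable {A : ℕ → ℕ}
open Pool.Agent.H899R2.VP hiding RS
open Pool.Agent.H533R2.VO (Glu Lev RS)

namespace CombAux

variable {M : St (aD A)} {P : List Bool → ℕ}

/-- The spine. -/
def pk (P : List Bool → ℕ) (k : ℕ) : ℕ := P (List.replicate k true)

/-- The teeth. -/
def qk (P : List Bool → ℕ) (k : ℕ) : ℕ := P (List.replicate k true ++ [false])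

theorem sc (hS : ∀ s, Sc M (P s) (P (s ++ [false])) (P (s ++ [true]))) (k : ℕ) :
    Sc M (pk P k) (qk P k) (pk P (k + 1)) := by
  have h := hS (List.replicate k true)
  have e : List.replicate (k + 1) true = List.replicate k true ++ [true] := List.replicate_succ'
  unfold pk qk
  rw [e]
  exact h

theorem mono (hS : ∀ s, Sc M (P s) (P (s ++ [false])) (P (s ++ [true]))) {j k : ℕ}
    (h : j ≤ k) : Cc M (pk P k) ⊆ Cc M (pk P j) := by
  induction k, h using Nat.le_induction with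
  | base => exact Subset.rfl
  | succ n _ ih => exact (sc hS n).2.2.2.1.trans ih

end CombAux

open CombAux

theorem t_COMB : S_COMB A := by
  intro α M S P hM hbig hB hS
  have hsc := sc hS
  have hmono : ∀ {j k : ℕ}, j ≤ k → Cc M (pk P k) ⊆ Cc M (pk P j) := fun h => mono hS h
  let x : ℕ → ℕ := fun k => (qk P k).unpair.1
  let z : ℕ → ℕ := fun k => (qk P k).unpair.2
  have hX : ∀ k, Cn M (x k) (z k) = Cc M (qk P k) := fun k => rfl
  have hne : ∀ k, x k ≠ z k := fun k => (hsc k).1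
  have hxX : ∀ k, x k ∈ Cn M (x k) (z k) := fun k => hM.self_mem (hne k)
  have hXE : ∀ k, Cn M (x k) (z k) ⊆ Cc M (pk P k) := fun k => (hsc k).2.2.1
  have hdE : ∀ k, Disjoint (Cn M (x k) (z k)) (Cc M (pk P (k + 1))) := fun k =>
    (hsc k).2.2.2.2
  have hXE' : ∀ {j k : ℕ}, j ≤ k → Cn M (x k) (z k) ⊆ Cc M (pk P j) := fun h =>
    (hXE _).trans (hmono h)
  have hJE : ∀ k, Nd M (x (k + 1)) (x (k + 2)) ⊆ Cc M (pk P (k + 1)) := by
    intro k v hv
    by_contra hv'
    exact hv (hM.cin (hXE' (le_refl (k + 1)) (hxX (k + 1)))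
      (hXE' (Nat.le_succ (k + 1)) (hxX (k + 2))) hv')
  have hxn : ∀ k, x k ∉ Cc M (pk P (k + 1)) := fun k h =>
    Set.disjoint_left.1 (hdE k) (hxX k) h
  have hJc : ∀ k, ∀ v ∈ Nd M (x (k + 1)) (x (k + 2)), D M v (x (k + 1)) (x k) := by
    intro k v hv
    exact hM.cin (hJE k hv) (hXE' (le_refl (k + 1)) (hxX (k + 1))) (hxn k)
  refine ⟨x, z, ?_⟩
  refine ⟨hM, hne, ?_, ?_, ?_, ?_, hJc, ?_⟩
  · have key : ∀ k j, k < j → Disjoint (Cn M (x k) (z k)) (Cn M (x j) (z j)) := fun k j h =>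
      (hdE k).mono_right (hXE' h)
    intro k j hkj
    rcases Nat.lt_or_gt_of_ne hkj with h | h
    · exact key k j h
    · exact (key j k h).symm
  · intro k v hv h1
    have h2 : x (k + 1) ∉ Cn M (x k) (z k) := fun h =>
      Set.disjoint_left.1 (hdE k) h (hXE' (le_refl (k + 1)) (hxX (k + 1)))
    have h3 : D M (x k) v (x (k + 1)) := hM.cin (hxX k) hv h2
    exact hM.c2 _ _ _ h3 h1
  · intro k v hv h1
    have h2 : D M (x (k + 1)) v (x k) := hM.symm _ _ _ (hJc k v hv)
    exact hM.c2 _ _ _ h2 (hM.symm _ _ _ h1)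
  · intro k
    exact (hdE k).mono_right (hJE k)
  · intro k
    exact hbig (qk P k) (hB _)

end Pool.Agent.W875.TS
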