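import Pool.Agent.W875.TS.Spec

set_option autoImplicit false

/-! CSBF: `Cs` is universal. -/

namespace Pool.Agent.W875.TS

open Set

variable {A : ℕ → ℕ}
open Pool.Agent.H899R2.VP hiding RS
open Pool.Agent.H533R2.VO (Glu Lev RS)

theorem csbf_four {α : Ordinal.{0}} {M N : St (aD A)} {X : Set ℕ} (hα : Ordinal.omega0 ≤ α)
    (h : BF M N X univ α ∅) (a b c d : ℕ) : ∃ (a' b' c' d' : ℕ) (p : Set (ℕ × ℕ)),
      PIso M N p ∧ (a', a) ∈ p ∧ (b', b) ∈ p ∧ (c', c) ∈ p ∧ (d', d) ∈ p := by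
  have h4 : BF M N X univ ((4 : ℕ) : Ordinal.{0}) ∅ :=
    h.mono ((Ordinal.natCast_lt_omega0 4).le.trans hα)
  obtain ⟨a', _, h3⟩ := h4.back (o' := ((3 : ℕ) : Ordinal.{0})) (by exact_mod_cast (by norm_num))
    (mem_univ a)
  obtain ⟨b', _, h2⟩ := h3.back (o' := ((2 : ℕ) : Ordinal.{0})) (by exact_mod_cast (by norm_num))
    (mem_univ b)
  obtain ⟨c', _, h1⟩ := h2.back (o' := ((1 : ℕ) : Ordinal.{0})) (by exact_mod_cast (by norm_num))
    (mem_univ c)
  obtain ⟨d', _, h0⟩ := h1.back (o' := ((0 : ℕ) : Ordinal.{0})) (by exact_mod_cast (by norm_num))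
    (mem_univ d)
  exact ⟨a', b', c', d', _, h0.piso, by simp, by simp, by simp, by simp⟩

/-- Finitely many points. -/
theorem csbf_list {α : Ordinal.{0}} {M N : St (aD A)} {X : Set ℕ} (hα : Ordinal.omega0 ≤ α)
    (h : BF M N X univ α ∅) (t : List ℕ) : ∃ s : List ℕ, s.length = t.length ∧
      PIso M N (zipSet s t) := by
  have h1 : BF M N X univ (0 + (t.length : Ordinal.{0})) ∅ :=
    h.mono (by rw [zero_add]; exact (Ordinal.natCast_lt_omega0 _).le.trans hα)
  obtain ⟨s, hs, -, hb⟩ := h1.back_list t le_rfl (fun y _ => mem_univ y)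
  exact ⟨s, hs, hb.piso.mono (by simp)⟩

theorem t_CSBF : S_CSBF A := by
  intro α M N X hα hC h
  refine ⟨?_, ?_, ?_, ?_, ?_, ?_, ?_⟩
  · intro x y
    obtain ⟨a, b, _, _, p, hp, ha, hb, _, _⟩ := csbf_four hα h x y x x
    exact (hp.2.1 _ ha _ hb).symm.trans (hC.flat a b)
  · intro x z hxz
    obtain ⟨a, b, _, _, p, hp, ha, hb, _, _⟩ := csbf_four hα h x z x x
    exact (PIso_D hp ha ha hb).1 (hC.refl a b fun e => hxz (hp.snd_eq ha hb e))
  · intro x y hD
    obtain ⟨a, b, _, _, p, hp, ha, hb, _, _⟩ := csbf_four hα h x y x x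
    exact hC.irr a b ((PIso_D hp ha hb ha).2 hD)
  · intro x y z hD
    obtain ⟨a, b, c, _, p, hp, ha, hb, hc, _⟩ := csbf_four hα h x y z x
    exact (PIso_D hp hb ha hc).1 (hC.symm a b c ((PIso_D hp ha hb hc).2 hD))
  · intro x y z hD hD'
    obtain ⟨a, b, c, _, p, hp, ha, hb, hc, _⟩ := csbf_four hα h x y z x
    exact hC.c2 a b c ((PIso_D hp ha hb hc).2 hD) ((PIso_D hp ha hc hb).2 hD')
  · intro x y z hD w
    obtain ⟨a, b, c, d, p, hp, ha, hb, hc, hd⟩ := csbf_four hα h x y z w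
    rcases hC.c3 a b c ((PIso_D hp ha hb hc).2 hD) d with h1 | h1
    · exact Or.inl ((PIso_D hp ha hb hd).1 h1)
    · exact Or.inr ((PIso_D hp hd hb hc).1 h1)
  · intro i t k l b hD
    obtain ⟨s, hs, hp⟩ := csbf_list hα h (b :: List.ofFn t)
    obtain ⟨c, s', rfl⟩ : ∃ c s', s = c :: s' := by
      cases s with
      | nil => simp at hs
      | cons c s' => exact ⟨c, s', rfl⟩
    have hs' : s'.length = A i := by simpa using hs
    have hc : (c, b) ∈ zipSet (c :: s') (b :: List.ofFn t) := by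
      show (c, b) ∈ (c :: s').zip (b :: List.ofFn t)
      simp
    let u : Fin (A i) → ℕ := fun j => s'[j.1]'(by rw [hs']; exact j.2)
    have hu : ∀ j, (u j, t j) ∈ zipSet (c :: s') (b :: List.ofFn t) := by
      intro j
      show (u j, t j) ∈ (c :: s').zip (b :: List.ofFn t)
      rw [List.zip_cons_cons]
      refine List.mem_cons_of_mem _ ?_
      rw [List.mem_iff_getElem]
      refine ⟨j.1, by simp [hs'], ?_⟩
      simp [u]
    have hD' : D M (u k) c (u l) := (PIso_D hp (hu k) hc (hu l)).2 hD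
    have e1 := hC.mod i u k l c hD'
    have e2 := PIso_rl hp i (fun j => (u j, t j)) hu
    have e3 := PIso_rl hp i (fun j => (Function.update u k c j, Function.update t k b j)) (by
      intro j
      by_cases hj : j = k
      · subst hj
        simpa using hc
      · simp only [Function.update_of_ne hj]
        exact hu j)
    exact (e3.symm.trans e1).trans e2

end Pool.Agent.W875.TS
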