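import Pool.Agent.W875.TS.Spec

set_option autoImplicit false

/-! Task DB. -/

namespace Pool.Agent.W875.TS

open Set

variable {A : ℕ → ℕ}
open Pool.Agent.H899R2.VP hiding RS
open Pool.Agent.H533R2.VO (Glu Lev RS iso_symm0 iso_trans0)

theorem db_FF_mono (M : St (aD A)) (x z : ℕ → ℕ) (t : ℕ → St (aD A)) {s s' : ℕ} (h : s ≤ s')
    {P : St (aD A) × Set ℕ} (hP : P ∈ FF M x z t s) : P ∈ FF M x z t s' := by
  obtain ⟨r, hr, c, u, v, huv, e⟩ := hP
  exact ⟨r, hr.trans h, c, u, v, huv, e⟩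

theorem t_DB (h1 : S_DSF A) (h2 : S_STG A) (h3 : S_CBF A) : S_DB A := by
  intro α M x z t hSU σ τ e he m hsub
  obtain ⟨-, c2, c3, -, -⟩ := h3 α M x z hSU.cb
  obtain ⟨-, -, d3, -, d5⟩ := h1 α M x z t hSU τ
  have hX : Cn M (x (m + 1)) (z (m + 1)) ⊆ e '' Cn M (x m) (z m) :=
    (c2 m (m + 1) (Nat.le_succ m)).trans hsub
  have hes := he.symm
  have him : e.symm '' Cn M (x (m + 1)) (z (m + 1)) =
      Cn (DS M x z t σ) (e.symm (x (m + 1))) (e.symm (z (m + 1))) := by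
    rw [← d3 (m + 1)]
    exact hes.image_Cn _ _
  have hne : e.symm (x (m + 1)) ≠ e.symm (z (m + 1)) := fun h =>
    hSU.cb.ne (m + 1) (e.symm.injective h)
  have hdj : Disjoint (Cn (DS M x z t σ) (e.symm (x (m + 1))) (e.symm (z (m + 1))))
      (Nd M (x (m + 1)) (x (m + 1 + 1))) := by
    rw [← him]
    refine Disjoint.mono_left ?_ (c3 m (m + 1) (Nat.lt_succ_self m))
    rintro w ⟨y, hy, rfl⟩
    obtain ⟨y', hy', rfl⟩ := hX hy
    rw [e.symm_apply_apply]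
    exact hy'
  obtain ⟨P, hP, hiP⟩ := h2 α M x z t hSU σ (m + 1) (2 * (m + 1)) (fun k hk => by
    have : (σ k).toNat ≤ 1 := Bool.toNat_le _
    omega) _ _ hne hdj
  have hi2 : IsoOn (DS M x z t τ) (DS M x z t σ) (Cn M (x (m + 1)) (z (m + 1)))
      (Cn (DS M x z t σ) (e.symm (x (m + 1))) (e.symm (z (m + 1)))) ∅ := by
    rw [← him]
    exact hes.isoOn _
  have hi3 : IsoOn P.1 (t (2 * (m + 1) + (τ (m + 1)).toNat)) P.2
      (Cn M (x (m + 1)) (z (m + 1))) ∅ :=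
    iso_trans0 (iso_trans0 hiP (iso_symm0 hi2)) (iso_symm0 (d5 (m + 1)))
  have hg := (hSU.gt (2 * (m + 1) + (τ (m + 1)).toNat)).2 P
    (db_FF_mono M x z t (Nat.le_add_right _ _) hP)
  have hdiv : (2 * (m + 1) + (τ (m + 1)).toNat) / 2 = m + 1 := by
    have : (τ (m + 1)).toNat ≤ 1 := Bool.toNat_le _
    omega
  rw [hdiv] at hg
  exact hg hi3

end Pool.Agent.W875.TS
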