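import Pool.Agent.W875.TS.Spec

set_option autoImplicit false

namespace Pool.Agent.W875.TS

open Set

variable {A : ℕ → ℕ}
open Pool.Agent.H899R2.VP hiding RS
open Pool.Agent.H533R2.VD (Rk Rk_iff Rk_mono Rk_rel)
open Pool.Agent.H533R2.VO (Glu Lev RS)

theorem t_MAIN3 (h1 : S_BASE3 A) (h2 : S_LEV3 A) (h3 : S_MS A) (h4 : S_MSC A) (h5 : S_BL3 A) (h6 : S_COMB A)
    (h7 : S_CODE3 A) (h8 : S_CNT3 A) (h9 : S_CT A) (h10 : S_CTF A) : S_MAIN3 A := by
  intro V hV α K gc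
  obtain ⟨S, hCF, hS⟩ := h1 V α K gc
  by_cases hall : ∀ ξ : Ordinal.{0}, ξ < Ordinal.omega 1 → ∃ M ∈ K, ∃ p, Rk (Bc S M) (Sc M) ξ p
  · exfalso
    obtain ⟨l, hl1, _, hlev⟩ := h2 S hCF
    have hm := (h3 S l hCF hlev hl1).1
    obtain ⟨M, hM, P, hB, hSp⟩ := h5 K (fun M => Bc S M) (fun M => Sc M) gc.meas
      (fun p => by
        have he : {M : St (aD A) | M ∈ K ∧ Bc S M p} = K ∩ ({M : St (aD A) | Pr p} ∩
            {M : St (aD A) | (M, Cn M p.unpair.1 p.unpair.2) ∈ S}ᶜ) := by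
          ext M
          rfl
        rw [he]
        exact gc.meas.inter ((MeasurableSet.const _).inter (hm _ _).compl))
      (fun p q r => gc.meas.inter (h4 p q r)) hall
    obtain ⟨x, z, hcb⟩ := h6 α M S P (gc.cs M hM) (fun p hp => hS M hM _ _ hp.1 hp.2) hB hSp
    exact h7 V α K gc M hM x z hcb
  · push Not at hall
    obtain ⟨ξ, hξ, hno⟩ := hall
    obtain ⟨S', hCF', _, hS'⟩ := h8 V hV α K S gc hCF ξ hξ
    obtain ⟨h, hh⟩ := h9 V hV α K S' false gc hCF'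
    refine ⟨h, fun M hM => hh M hM 0 (h10 S' M 0 hCF' (gc.cs M hM) fun y hy => ?_)⟩
    have hp := hS' M hM (Nat.pair y 0) (by
      unfold Pr
      rw [Nat.unpair_pair]
      exact hy) (hno M hM _)
    unfold Cc at hp
    rw [Nat.unpair_pair] at hp
    exact hp

end Pool.Agent.W875.TS
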