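import Pool.Agent.W875.TS.Spec

set_option autoImplicit false

/-! The values of mixed tuples depend only on the cones. -/

namespace Pool.Agent.W875.TS

open Set

variable {A : ℕ → ℕ}
open Pool.Agent.H899R2.VP hiding RS
open Pool.Agent.H533R2.VO (Glu Lev RS)

/-- the case of the given relations -/
theorem mix_rl {ι : Type} {M : St (aD A)} {x z : ι → ℕ} (h : Cs M) (i : ℕ)
    (t t' : Fin (A i) → ℕ)
    (ht : ∀ k j, t k ∈ Cn M (x j) (z j) ↔ t' k ∈ Cn M (x j) (z j))
    (ht0 : ∀ k, (∀ j, t k ∉ Cn M (x j) (z j)) → t k = t' k)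
    (hn : ¬ ∃ j, ∀ k, t k ∈ Cn M (x j) (z j)) : rl M i t = rl M i t' := by
  classical
  have key : ∀ s : Finset (Fin (A i)), rl M i (fun k => if k ∈ s then t' k else t k) = rl M i t := by
    intro s
    induction s using Finset.induction_on with
    | empty => simp
    | insert k s hk ih =>
      have e1 : (fun j => if j ∈ insert k s then t' j else t j) =
          Function.update (fun j => if j ∈ s then t' j else t j) k (t' k) := by
        funext j
        by_cases hj : j = k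
        · subst hj
          simp
        · rw [Function.update_of_ne hj]
          simp [hj]
      rw [e1]
      by_cases hc : ∃ j, t k ∈ Cn M (x j) (z j)
      · obtain ⟨j, hj⟩ := hc
        have hl : ∃ l, t l ∉ Cn M (x j) (z j) := by
          by_contra hcon
          push Not at hcon
          exact hn ⟨j, hcon⟩
        obtain ⟨l, hl⟩ := hl
        have hl' : (if l ∈ s then t' l else t l) ∉ Cn M (x j) (z j) := by
          split_ifs
          · exact fun h1 => hl ((ht l j).2 h1)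
          · exact hl
        rw [← ih]
        refine h.mod i _ k l (t' k) ?_
        simp only [hk, if_false]
        exact h.cin hj ((ht k j).1 hj) hl'
      · push Not at hc
        rw [← ht0 k hc, ← ih]
        congr 1
        have : (if k ∈ s then t' k else t k) = t k := by simp [hk]
        conv_lhs => rw [← this]
        exact Function.update_eq_self k _
  have h1 := key Finset.univ
  simp only [Finset.mem_univ, if_true] at h1
  exact h1.symm

/-- the three-place case -/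
theorem mix_three {ι : Type} {M : St (aD A)} {x z : ι → ℕ} (h : Cs M) (a b c a' b' c' : ℕ)
    (ha : ∀ j, a ∈ Cn M (x j) (z j) ↔ a' ∈ Cn M (x j) (z j))
    (hb : ∀ j, b ∈ Cn M (x j) (z j) ↔ b' ∈ Cn M (x j) (z j))
    (hc : ∀ j, c ∈ Cn M (x j) (z j) ↔ c' ∈ Cn M (x j) (z j))
    (ha0 : (∀ j, a ∉ Cn M (x j) (z j)) → a = a')
    (hb0 : (∀ j, b ∉ Cn M (x j) (z j)) → b = b')
    (hc0 : (∀ j, c ∉ Cn M (x j) (z j)) → c = c')
    (hn : ¬ ∃ j, a ∈ Cn M (x j) (z j) ∧ b ∈ Cn M (x j) (z j) ∧ c ∈ Cn M (x j) (z j)) :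
    D M a b c ↔ D M a' b' c' := by
  by_cases h1 : ∃ j, a ∈ Cn M (x j) (z j) ∧ b ∈ Cn M (x j) (z j)
  · obtain ⟨j, h1, h2⟩ := h1
    have h3 : c ∉ Cn M (x j) (z j) := fun h3 => hn ⟨j, h1, h2, h3⟩
    have h3' : c' ∉ Cn M (x j) (z j) := fun h4 => h3 ((hc j).2 h4)
    exact ⟨fun _ => h.cin ((ha j).1 h1) ((hb j).1 h2) h3', fun _ => h.cin h1 h2 h3⟩
  by_cases h4 : ∃ j, a ∈ Cn M (x j) (z j) ∧ c ∈ Cn M (x j) (z j)
  · obtain ⟨j, h4, h5⟩ := h4
    have h6 : b ∉ Cn M (x j) (z j) := fun h6 => hn ⟨j, h4, h6, h5⟩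
    have h6' : b' ∉ Cn M (x j) (z j) := fun h7 => h6 ((hb j).2 h7)
    exact ⟨fun h7 => absurd h7 (h.cout h4 h5 h6),
      fun h7 => absurd h7 (h.cout ((ha j).1 h4) ((hc j).1 h5) h6')⟩
  by_cases h7 : ∃ j, b ∈ Cn M (x j) (z j) ∧ c ∈ Cn M (x j) (z j)
  · obtain ⟨j, h7, h8⟩ := h7
    have h9 : a ∉ Cn M (x j) (z j) := fun h9 => hn ⟨j, h9, h7, h8⟩
    have h9' : a' ∉ Cn M (x j) (z j) := fun h10 => h9 ((ha j).2 h10)
    exact ⟨fun h10 => absurd h10 (h.cout' h7 h8 h9),
      fun h10 => absurd h10 (h.cout' ((hb j).1 h7) ((hc j).1 h8) h9')⟩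
  have e1 : D M a b c ↔ D M a' b c := by
    by_cases hj : ∃ j, a ∈ Cn M (x j) (z j)
    · obtain ⟨j, hj⟩ := hj
      exact h.csw hj ((ha j).1 hj) fun hcj => h4 ⟨j, hj, hcj⟩
    · push Not at hj
      rw [← ha0 hj]
  have e2 : D M a' b c ↔ D M a' b' c := by
    by_cases hj : ∃ j, b ∈ Cn M (x j) (z j)
    · obtain ⟨j, hj⟩ := hj
      have h5 := h.csw (w := a') hj ((hb j).1 hj) fun hcj => h7 ⟨j, hj, hcj⟩
      exact ⟨fun h6 => h.symm _ _ _ (h5.1 (h.symm _ _ _ h6)),
        fun h6 => h.symm _ _ _ (h5.2 (h.symm _ _ _ h6))⟩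
    · push Not at hj
      rw [← hb0 hj]
  have e3 : D M a' b' c ↔ D M a' b' c' := by
    by_cases hj : ∃ j, c ∈ Cn M (x j) (z j)
    · obtain ⟨j, hj⟩ := hj
      exact h.csw' hj ((hc j).1 hj) fun hbj => h7 ⟨j, (hb j).2 hbj, hj⟩
    · push Not at hj
      rw [← hc0 hj]
  rw [e1, e2, e3]

theorem t_MIX : S_MIX A := by
  intro ι M x z h hd i t t' ht ht0 hn
  cases i with
  | zero =>
    have et : t = ![t 0, t 1, t 2] := by funext k; fin_cases k <;> rfl
    have et' : t' = ![t' 0, t' 1, t' 2] := by funext k; fin_cases k <;> rfl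
    have key := mix_three (x := x) (z := z) h (t 0) (t 1) (t 2) (t' 0) (t' 1) (t' 2)
      (ht 0) (ht 1) (ht 2) (ht0 0) (ht0 1) (ht0 2) (by
        rintro ⟨j, h1, h2, h3⟩
        refine hn ⟨j, fun k => ?_⟩
        fin_cases k
        · exact h1
        · exact h2
        · exact h3)
    unfold D at key
    rw [et, et']
    exact Bool.eq_iff_iff.2 key
  | succ i => exact mix_rl (x := x) (z := z) h i t t' ht ht0 hn

end Pool.Agent.W875.TS
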