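import Pool.Agent.W875.TS.Spec
import Pool.Agent.H533R2.VO.MEAS1

set_option autoImplicit false

/-! MS: measurability of membership in a family and of types. -/

namespace Pool.Agent.W875.TS

open Set

variable {A : ℕ → ℕ}
open Pool.Agent.H899R2.VP hiding RS
open Pool.Agent.H533R2.VO (Glu Lev RS t_MEAS1)

theorem ms_D (x y z : ℕ) : MeasurableSet {M : St (aD A) | D M x y z} := by
  have h1 : Continuous fun M : St (aD A) => M.2 0 ![x, y, z] :=
    (continuous_apply (![x, y, z] : Fin 3 → ℕ)).comp ((continuous_apply 0).comp continuous_snd)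
  exact ((isClosed_singleton (x := true)).preimage h1).measurableSet

theorem t_MS : S_MS A := by
  intro S l hS hl hlt
  have h2 : ∀ P ∈ S, ∀ x z, MeasurableSet {M : St (aD A) | IsoOn P.1 M P.2 (Cn M x z) ∅} := by
    intro P hP x z
    have h3 : {M : St (aD A) | IsoOn P.1 M P.2 (Cn M x z) ∅} =
        {M : St (aD A) | BF P.1 M P.2 (Cn M x z) l ∅} := by
      ext M
      constructor
      · intro h
        exact IsoOn.bf h l
      · intro h
        exact hl P.1 P.2 M (Cn M x z) ∅ hP finite_empty (empty_subset _) h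
    rw [h3]
    exact t_MEAS1 (aD A) P.1 P.2 (fun M => Cn M x z) (fun y => ms_D x y z) l hlt ∅
  refine ⟨fun x z => ?_, h2⟩
  obtain ⟨f, hf⟩ := hS.enu
  have h4 : {M : St (aD A) | (M, Cn M x z) ∈ S} =
      ⋃ n : ℕ, ⋃ _ : f n ∈ S, {M : St (aD A) | IsoOn (f n).1 M (f n).2 (Cn M x z) ∅} := by
    ext M
    constructor
    · intro h
      obtain ⟨n, hn1, hn2⟩ := hf M (Cn M x z) h
      exact mem_iUnion.2 ⟨n, mem_iUnion.2 ⟨hn1, hn2⟩⟩
    · intro h
      obtain ⟨n, hn⟩ := mem_iUnion.1 h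
      obtain ⟨hn1, hn2⟩ := mem_iUnion.1 hn
      exact (hS.iso' hn2).1 hn1
  rw [h4]
  exact MeasurableSet.iUnion fun n => MeasurableSet.iUnion fun hn => h2 _ hn x z

end Pool.Agent.W875.TS
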