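import Pool.Agent.W875.TS.Spec

set_option autoImplicit false

namespace Pool.Agent.W875.TS

open Set

variable {A : ℕ → ℕ}
open Pool.Agent.H899R2.VP hiding RS
open Pool.Agent.H533R2.VO (Glu Lev RS Glu_adj Glu_adj' Glu_rel Glu_rel' iso_congr)

private theorem stg_bits (σ : ℕ → Bool) (e : ℕ) : ∃ c : ℕ, ∀ m < e, c.testBit m = σ m := by
  refine ⟨Nat.ofBits (fun i : Fin e => σ i), fun m hm => ?_⟩
  rw [Nat.testBit_ofBits_lt _ _ hm]

theorem t_STG (h1 : S_DSF A) (h2 : S_CBF A) : S_STG A := by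
  intro α M x z t hSU σ n s hs u v huv hdis
  obtain ⟨-, hCs, -, -, -⟩ := h1 α M x z t hSU σ
  obtain ⟨-, hXJ, -, -, -⟩ := h2 α M x z hSU.cb
  obtain ⟨c, hc⟩ := stg_bits σ n
  obtain ⟨J, hJ⟩ : ∃ J : ℕ → Set ℕ, J = fun k => Cn M (x k) (z k) := ⟨_, rfl⟩
  have hdJ : ∀ i j, i ≠ j → Disjoint (J i) (J j) := by
    intro i j hij
    rw [hJ]
    exact hSU.cb.dj i j hij
  obtain ⟨T, hT⟩ : ∃ T : ℕ → St (aD A), T = fun k => t (2 * k + (σ k).toNat) := ⟨_, rfl⟩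
  obtain ⟨T1, hT1⟩ : ∃ T1 : ℕ → St (aD A),
    T1 = fun k => trunc M t s (2 * k + (c.testBit k).toNat) := ⟨_, rfl⟩
  have hTT : ∀ k : ℕ, k < n → T1 k = T k := by
    intro k hk
    rw [hT, hT1]
    simp only
    rw [hc k hk]
    unfold trunc
    rw [if_pos (hs k hk)]
  have hD : DS M x z t σ = Glu M J T := by
    rw [hJ, hT]
    rfl
  have hD1 : DS M x z (trunc M t s) (fun j => c.testBit j) = Glu M J T1 := by
    rw [hJ, hT1]
    rfl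
  rw [hD] at hdis hCs ⊢
  obtain ⟨Z, hZ⟩ : ∃ Z, Z = Cn (Glu M J T) u v := ⟨_, rfl⟩
  have hZn : ∀ w ∈ Z, ∀ j, w ∈ J j → j < n := by
    intro w hw j hwj
    by_contra hge
    rw [hZ] at hw
    refine Set.disjoint_left.1 hdis hw (hXJ n j (not_lt.1 hge) ?_)
    rw [hJ] at hwj
    exact hwj
  have hagr : ∀ p ∈ Z, ∀ q, (Glu M J T1).1 p q = (Glu M J T).1 p q := by
    intro p hp q
    rw [Bool.eq_iff_iff]
    change Adj (Glu M J T1) p q ↔ Adj (Glu M J T) p q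
    by_cases hj : ∃ j, p ∈ J j ∧ q ∈ J j
    · obtain ⟨j, hpj, hqj⟩ := hj
      rw [Glu_adj hdJ hpj hqj, Glu_adj hdJ hpj hqj, hTT j (hZn p hp j hpj)]
    · push Not at hj
      rw [Glu_adj' hj, Glu_adj' hj]
  have hagr2 : ∀ i w, (∃ k, w k ∈ Z) → (Glu M J T1).2 i w = (Glu M J T).2 i w := by
    intro i w hw
    obtain ⟨k0, hk0⟩ := hw
    by_cases hj : Nonempty (Fin (aD A i)) ∧ ∃ j, ∀ k, w k ∈ J j
    · obtain ⟨hne, j, hju⟩ := hj
      obtain ⟨k⟩ := hne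
      rw [Glu_rel hdJ ⟨k⟩ hju, Glu_rel hdJ ⟨k⟩ hju, hTT j (hZn _ hk0 j (hju k0))]
    · rw [Glu_rel' hj, Glu_rel' hj]
  have huZ : u ∈ Z := by
    rw [hZ]
    exact hCs.self_mem huv
  have hCn : Cn (Glu M J T1) u v = Z := by
    rw [hZ]
    ext y
    have h3 := hagr2 0 ![u, y, v] ⟨(0 : Fin 3), huZ⟩
    rw [mem_Cn, mem_Cn]
    unfold D
    rw [h3]
  refine ⟨(DS M x z (trunc M t s) (fun j => c.testBit j),
    Cn (DS M x z (trunc M t s) (fun j => c.testBit j)) u v), ⟨s, le_rfl, c, u, v, huv, rfl⟩, ?_⟩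
  simp only
  rw [hD1, hCn, ← hZ]
  refine (iso_congr (fun p hp q _ => ?_) (fun i w hw => ?_)).mono (empty_subset _)
  · exact hagr p hp q
  · by_cases hne : Nonempty (Fin (aD A i))
    · obtain ⟨k⟩ := hne
      exact hagr2 i w ⟨k, hw k⟩
    · have h4 : ¬ (Nonempty (Fin (aD A i)) ∧ ∃ j, ∀ k, w k ∈ J j) := fun h => hne h.1
      rw [Glu_rel' h4, Glu_rel' h4]

end Pool.Agent.W875.TS
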