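import Pool.Agent.W875.TS.LEV3
import Pool.Agent.W875.TS.GENC
import Pool.Agent.W875.TS.GENUC
import Pool.Agent.W875.TS.LAB3
import Pool.Agent.W875.TS.MS
import Pool.Agent.W875.TS.TRXb
import Pool.Agent.W875.TS.TRP3
import Pool.Agent.W875.TS.BASE3
import Pool.Agent.W875.TS.GLB3
import Pool.Agent.W875.TS.GLF3
import Pool.Agent.W875.TS.FILL3
import Pool.Agent.W875.TS.SEQ3
import Pool.Agent.W875.TS.CBF
import Pool.Agent.W875.TS.DSF
import Pool.Agent.W875.TS.STG
import Pool.Agent.W875.TS.DA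
import Pool.Agent.W875.TS.DB
import Pool.Agent.W875.TS.DC
import Pool.Agent.W875.TS.DD
import Pool.Agent.W875.TS.CODE3
import Pool.Agent.W875.TS.COMB
import Pool.Agent.W875.TS.MSC
import Pool.Agent.W875.TS.SIM3
import Pool.Agent.W875.TS.CNT3
import Pool.Agent.W875.TS.MAIN3
import Pool.Agent.W875.TS.FINC
import Pool.Agent.W875.TS.INFC
import Pool.Agent.W875.TS.CTF
import Pool.Agent.W875.TS.CTT
import Pool.Agent.W875.TS.MIX
import Pool.Agent.W875.TS.CSBF
import Pool.Agent.W875.TS.KCONE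
import Pool.Agent.W875.TS.BL3
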