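import Pool.Agent.W875.TS.MD5

set_option autoImplicit false

/-! Borel expansions; tree sums and modular sums of coanalytic classes. -/

namespace Pool.Agent.W875.TS

open Set Filter
open scoped Topology
open MeasureTheory (AnalyticSet)
open Pool.Agent.H533R2.VO (RS RIso VC Dich)
open Pool.Agent.H533R2.VS (act p2 DecG VCu US UIso UDich Coan Inv exc_iso_iff exc_act_inj
  exk_pre exk_act exk_riso exk_polish kis_eval kis_atom kis_union kis_inter kis_pRS kis_pN kis_pP
  kis_coord kis_pB)

/-- Borel equivariant maps in both directions. -/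
structure BCanon {a b : ℕ → ℕ} (c : RS a → RS b) (d : RS b → RS a) : Prop where
  meas : Measurable c
  dmeas : Measurable d
  cact : ∀ σ x, c (act σ x) = act σ (c x)
  dact : ∀ σ z, d (act σ z) = act σ (d z)

/-- Borel families of pairwise inequivalent structures can be made continuous. -/
theorem cont_of_meas {X : Type} [TopologicalSpace X] [SecondCountableTopology X]
    [MeasurableSpace X] [OpensMeasurableSpace X] {F : (ℕ → Bool) → X} (hF : Measurable F) :
    ∃ h : (ℕ → Bool) → (ℕ → Bool), Function.Injective h ∧ Continuous (F ∘ h) := by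
  have hp0 : PolishSpace (ℕ → Bool) := kis_pB ℕ
  obtain ⟨t', hle, hc, hp⟩ := hF.exists_continuous
  have hunc : ¬ (univ : Set (ℕ → Bool)).Countable := by
    rw [countable_univ_iff]
    exact Pool.Agent.H899R2.VP.not_countable_cantor
  obtain ⟨h, -, h2, h3⟩ := @IsClosed.exists_nat_bool_injection_of_not_countable (ℕ → Bool) t' hp
    univ (@isClosed_univ _ t') hunc
  refine ⟨h, h3, ?_⟩
  exact @Continuous.comp _ _ _ Pi.topologicalSpace t' _ h F hc h2

theorem ts_exc : ∀ (a b : ℕ → ℕ) (c : RS a → RS b) (d : RS b → RS a), BCanon c d →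
    ∀ V : RS b → Prop, VCu V → VCu fun x => V (c x) ∧ d (c x) = x := by
  intro a b c d hcd V hV B hB hinv hBV
  have hdm : Measurable d := hcd.dmeas
  let B1 : Set (US b) := {z | (d z.1, z.2) ∈ B ∧ z.1 = c (d z.1)}
  have hm : MeasurableSet B1 := by
    refine MeasurableSet.inter ?_ ?_
    · have hf : Measurable (fun z : US b => ((d z.1, z.2) : US a)) :=
        (hdm.comp measurable_fst).prodMk measurable_snd
      exact hf hB
    · have e : {z : US b | z.1 = c (d z.1)} =
          ⋂ i, ⋂ v, {z : US b | z.1 i v = c (d z.1) i v} := by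
        ext z
        rw [mem_iInter₂]
        constructor
        · intro h i v
          exact congrFun (congrFun h i) v
        · intro h
          show z.1 = c (d z.1)
          funext i v
          exact h i v
      have hcm : Measurable (fun z : US b => c (d z.1)) :=
        hcd.meas.comp (hdm.comp measurable_fst)
      show MeasurableSet {z : US b | z.1 = c (d z.1)}
      rw [e]
      refine MeasurableSet.iInter fun i => MeasurableSet.iInter fun v => ?_
      have m1 : Measurable (fun z : US b => z.1 i v) :=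
        (measurable_pi_apply v).comp ((measurable_pi_apply i).comp measurable_fst)
      have m2 : Measurable (fun z : US b => c (d z.1) i v) :=
        (measurable_pi_apply v).comp ((measurable_pi_apply i).comp hcm)
      exact measurableSet_eq_fun m1 m2
  have key : ∀ x y : US b, UIso x y → UIso (a := a) (d x.1, x.2) (d y.1, y.2) := by
    intro x y h
    rw [exc_iso_iff] at h ⊢
    obtain ⟨σ, h1, h2⟩ := h
    refine ⟨σ, ?_, h2⟩
    show d y.1 = act σ (d x.1)
    rw [h1, hcd.dact]
  have hinv1 : ∀ x y : US b, UIso x y → (x ∈ B1 ↔ y ∈ B1) := by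
    intro x y h
    have hk := hinv _ _ (key x y h)
    rw [exc_iso_iff] at h
    obtain ⟨σ, h1, h2⟩ := h
    have e : x.1 = c (d x.1) ↔ y.1 = c (d y.1) := by
      rw [h1, hcd.dact, hcd.cact]
      constructor
      · intro h
        rw [← h]
      · intro h
        exact exc_act_inj σ _ _ h
    exact and_congr hk e
  have hV1 : ∀ z ∈ B1, V z.1 := by
    rintro z ⟨h1, h2⟩
    have h3 := (hBV _ h1).1
    rw [h2]
    exact h3
  rcases hV B1 hm hinv1 hV1 with ⟨f, hf⟩ | ⟨g, hg, hgB, hgi⟩
  · left
    refine ⟨fun n => (d (f n).1, (f n).2), ?_⟩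
    intro y hy
    have hy2 : d (c y.1) = y.1 := (hBV y hy).2
    have hy1 : ((c y.1, y.2) : US b) ∈ B1 := by
      refine ⟨?_, ?_⟩
      · show ((d (c y.1), y.2) : US a) ∈ B
        rw [hy2]
        exact hy
      · show c y.1 = c (d (c y.1))
        rw [hy2]
    obtain ⟨n, hn⟩ := hf _ hy1
    refine ⟨n, ?_⟩
    have h := key _ _ hn
    have e : ((d (c y.1), y.2) : US a) = y := by rw [hy2]
    have h' : UIso (a := a) (d (f n).1, (f n).2) (d (c y.1), y.2) := h
    rw [e] at h'
    exact h'
  · right
    have b2 : ∀ n : ℕ, BorelSpace ((Fin (b n) → ℕ) → Bool) := fun n => inferInstance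
    have s2 : ∀ n : ℕ, SecondCountableTopology ((Fin (b n) → ℕ) → Bool) :=
      fun n => inferInstance
    have bb : BorelSpace (RS b) := Pi.borelSpace
    have a2 : ∀ n : ℕ, BorelSpace ((Fin (a n) → ℕ) → Bool) := fun n => inferInstance
    have a3 : ∀ n : ℕ, SecondCountableTopology ((Fin (a n) → ℕ) → Bool) :=
      fun n => inferInstance
    have ba : BorelSpace (RS a) := Pi.borelSpace
    have hF : Measurable fun s => ((d (g s).1, (g s).2) : US a) := by
      have h1 : Measurable fun s => (g s).1 := (continuous_fst.comp hg).measurable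
      have h2 : Measurable fun s => (g s).2 := (continuous_snd.comp hg).measurable
      exact (hdm.comp h1).prodMk h2
    obtain ⟨h, h1, h2⟩ := cont_of_meas hF
    refine ⟨_, h2, fun s => (hgB (h s)).1, ?_⟩
    · intro s t hst
      apply h1
      apply hgi
      rw [exc_iso_iff] at hst ⊢
      obtain ⟨σ, h4, h5⟩ := hst
      refine ⟨σ, ?_, h5⟩
      have h3 : d (g (h t)).1 = act σ (d (g (h s)).1) := h4
      rw [(hgB (h t)).2, h3, hcd.cact, ← (hgB (h s)).2]

theorem ts_exk : ∀ (a b : ℕ → ℕ) (c : RS a → RS b) (d : RS b → RS a), BCanon c d →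
    ∀ V : RS b → Prop, Coan V → Inv V → Coan (fun x => V (c x) ∧ d (c x) = x) ∧
      Inv fun x => V (c x) ∧ d (c x) = x := by
  intro a b c d hcd V hV hI
  have b5 : PolishSpace (RS a) := exk_polish
  constructor
  · have h1 : {x : RS a | ¬ (V (c x) ∧ d (c x) = x)} =
        ⋃ k : Bool, (if k then c ⁻¹' {z | ¬ V z} else {x | ¬ d (c x) = x}) := by
      ext x
      simp only [mem_iUnion, Bool.exists_bool, Bool.false_eq_true, if_false, if_true,
        mem_ofPred_eq, mem_preimage]
      tauto
    unfold Coan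
    rw [h1]
    refine AnalyticSet.iUnion ?_
    intro k
    cases k
    · rw [if_neg (by simp)]
      refine MeasurableSet.analyticSet ?_
      exact (measurableSet_eq_fun (hcd.dmeas.comp hcd.meas) measurable_id).compl
    · rw [if_pos rfl]
      exact exk_pre hV hcd.meas
  · intro x y hxy h
    obtain ⟨σ, rfl⟩ := exk_act hxy
    constructor
    · rw [hcd.cact]
      exact hI _ _ (exk_riso σ (c x)) h.1
    · rw [hcd.cact, hcd.dact, h.2]

section inv

variable {a : ℕ → ℕ}

theorem act_p3 {x : RS a} (σ : Equiv.Perm ℕ) (i u v w : ℕ) :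
    act σ x i (p3 u v w) = x i (p3 (σ.symm u) (σ.symm v) (σ.symm w)) := by
  show x i (⇑σ.symm ∘ p3 u v w) = _
  rw [p3_comp]

theorem ts_itree (a : ℕ → ℕ) (δ : ℕ) (V : RS a → Prop) : Inv (IsTree δ V) := by
  classical
  intro x y hxy hx
  obtain ⟨σ, rfl⟩ := exk_act hxy
  refine ⟨?_, ?_, ?_, ?_, ?_, ?_, ?_⟩
  · intro u w h
    rw [act_p3]
    exact hx.refl _ _ (σ.symm.injective.ne h)
  · intro u v
    rw [act_p3]
    exact hx.irr _ _
  · intro u v w h
    rw [act_p3] at h ⊢
    exact hx.symm _ _ _ h
  · intro u v w h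
    rw [act_p3] at h ⊢
    exact hx.c2 _ _ _ h
  · intro u v w h z
    rw [act_p3] at h
    rw [act_p3, act_p3]
    exact hx.c3 _ _ _ h _
  · intro i hi t k l b h
    rw [act_p3] at h
    show x i (⇑σ.symm ∘ Function.update t k b) = x i (⇑σ.symm ∘ t)
    rw [comp_upd]
    exact hx.mod i hi _ k l _ h
  · intro e he h1 h2
    have h3 := hx.nodes (⇑σ.symm ∘ e) (σ.symm.injective.comp he)
      (fun l m n a1 a2 a3 => by
        have := h1 l m n a1 a2 a3
        rwa [act_p3] at this)
      (fun u hu => by
        obtain ⟨n, hn⟩ := h2 (σ u) (by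
          rw [act_p3, σ.symm_apply_apply]
          exact hu)
        refine ⟨n, fun m hm => ?_⟩
        have := hn m hm
        rwa [act_p3, σ.symm_apply_apply] at this)
    exact h3

theorem me_ev {Z : Type} [TopologicalSpace Z] [MeasurableSpace Z] [OpensMeasurableSpace Z]
    {W : Type} [TopologicalSpace W] [DiscreteTopology W] {f : Z → W → Bool} {g : Z → W}
    (hf : Continuous f) (hg : Continuous g) (b : Bool) : Measurable fun z => f z (g z) = b :=
  kis_atom (kis_eval.comp (hf.prodMk hg)) continuous_const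

theorem p3_cont {Z : Type} [TopologicalSpace Z] {n : ℕ} {f g h : Z → ℕ} (hf : Continuous f)
    (hg : Continuous g) (hh : Continuous h) :
    Continuous fun z => (p3 (f z) (g z) (h z) : Fin n → ℕ) := by
  refine continuous_pi fun j => ?_
  unfold p3
  by_cases hj : j.val = 0
  · simp only [if_pos hj]
    exact hf
  · by_cases hj' : j.val = 1
    · simp only [if_neg hj, if_pos hj']
      exact hg
    · simp only [if_neg hj, if_neg hj']
      exact hh

theorem qt_cont {Z : Type} [TopologicalSpace Z] (P : ℕ → Prop) [DecidablePred P]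
    {f : Z → RS a} {g : Z → ℕ → ℕ}
    (hf : Continuous f) (hg : Continuous g) : Continuous fun z =>
      (fun i v => if P i ∧ ∃ j l, v j ≠ v l then f z i (g z ∘ v) else false : RS a) := by
  refine continuous_pi fun i => continuous_pi fun v => ?_
  by_cases h : P i ∧ ∃ j l, v j ≠ v l
  · simp only [if_pos h]
    have h1 : Continuous fun z => ((f z i, g z ∘ v) :
        ((Fin (a i) → ℕ) → Bool) × (Fin (a i) → ℕ)) :=
      ((continuous_apply i).comp hf).prodMk
        (continuous_pi fun j => (continuous_apply (v j)).comp hg)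
    exact kis_eval.comp h1
  · simp only [if_neg h]
    exact continuous_const

theorem ts_ctree (a : ℕ → ℕ) (δ : ℕ) (V : RS a → Prop) (hV : Coan V) : Coan (IsTree δ V) := by
  classical
  unfold Coan at *
  have P1 : PolishSpace (RS a) := kis_pRS a
  have P2 : PolishSpace (RS a × (ℕ → ℕ)) := kis_pP a
  have hc : ∀ (i : ℕ) (t : Fin (a i) → ℕ) (b : Bool),
      Measurable (fun x : RS a => x i t = b) := fun i t b =>
    kis_atom (kis_coord i t) continuous_const
  have hcc : ∀ (i : ℕ) (t t' : Fin (a i) → ℕ),
      Measurable (fun x : RS a => x i t = x i t') := fun i t t' =>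
    kis_atom (kis_coord i t) (kis_coord i t')
  have m1 : MeasurableSet {x : RS a | ¬ ((∀ u w, u ≠ w → x δ (p3 u u w) = true) ∧
      (∀ u v, x δ (p3 u v u) = false) ∧
      (∀ u v w, x δ (p3 u v w) = true → x δ (p3 v u w) = true) ∧
      (∀ u v w, x δ (p3 u v w) = true → x δ (p3 u w v) = false) ∧
      (∀ u v w, x δ (p3 u v w) = true → ∀ z, x δ (p3 u v z) = true ∨ x δ (p3 z v w) = true) ∧
      (∀ i, i ≠ δ → ∀ (t : Fin (a i) → ℕ) (k l : Fin (a i)) (b : ℕ),
        x δ (p3 (t k) b (t l)) = true → x i (Function.update t k b) = x i t))} := by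
    refine measurableSet_setOfPred.2 (Measurable.not (Measurable.and ?_ (Measurable.and ?_
      (Measurable.and ?_ (Measurable.and ?_ (Measurable.and ?_ ?_))))))
    · exact Measurable.forall fun u => Measurable.forall fun w => measurable_const.imp (hc _ _ _)
    · exact Measurable.forall fun u => Measurable.forall fun v => hc _ _ _
    · exact Measurable.forall fun u => Measurable.forall fun v => Measurable.forall fun w =>
        (hc _ _ _).imp (hc _ _ _)
    · exact Measurable.forall fun u => Measurable.forall fun v => Measurable.forall fun w =>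
        (hc _ _ _).imp (hc _ _ _)
    · exact Measurable.forall fun u => Measurable.forall fun v => Measurable.forall fun w =>
        (hc _ _ _).imp (Measurable.forall fun z => (hc _ _ _).or (hc _ _ _))
    · exact Measurable.forall fun i => measurable_const.imp (Measurable.forall fun t =>
        Measurable.forall fun k => Measurable.forall fun l => Measurable.forall fun b =>
          (hc _ _ _).imp (hcc _ _ _))
  have a2 : AnalyticSet {x : RS a | ¬ ∀ e : ℕ → ℕ, Function.Injective e →
      (∀ l m n, l ≠ m → l ≠ n → m ≠ n → x δ (p3 (e l) (e m) (e n)) = false) →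
      (∀ u, x δ (p3 (e 0) (e 1) u) = false → ∃ n, ∀ m, m ≠ n →
        x δ (p3 u (e n) (e m)) = true) →
      V (fun i v => if i ≠ δ ∧ ∃ j l, v j ≠ v l then x i (e ∘ v) else false)} := by
    have e1 : {x : RS a | ¬ ∀ e : ℕ → ℕ, Function.Injective e →
        (∀ l m n, l ≠ m → l ≠ n → m ≠ n → x δ (p3 (e l) (e m) (e n)) = false) →
        (∀ u, x δ (p3 (e 0) (e 1) u) = false → ∃ n, ∀ m, m ≠ n →
          x δ (p3 u (e n) (e m)) = true) →
        V (fun i v => if i ≠ δ ∧ ∃ j l, v j ≠ v l then x i (e ∘ v) else false)} =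
        Prod.fst '' ({p : RS a × (ℕ → ℕ) | (∀ m n, p.2 m = p.2 n → m = n) ∧
          (∀ l m n, l ≠ m → l ≠ n → m ≠ n → p.1 δ (p3 (p.2 l) (p.2 m) (p.2 n)) = false) ∧
          (∀ u, p.1 δ (p3 (p.2 0) (p.2 1) u) = false → ∃ n, ∀ m, m ≠ n →
            p.1 δ (p3 u (p.2 n) (p.2 m)) = true)} ∩
          (fun p : RS a × (ℕ → ℕ) => (fun i v => if i ≠ δ ∧ ∃ j l, v j ≠ v l then
            p.1 i (p.2 ∘ v) else false : RS a)) ⁻¹' {x : RS a | ¬ V x}) := by
      ext x
      simp only [Set.mem_ofPred_eq, Set.mem_image, Set.mem_inter_iff, Set.mem_preimage]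
      constructor
      · intro h
        by_contra hcon
        apply h
        intro e he h1 h2
        by_contra hv
        exact hcon ⟨(x, e), ⟨⟨fun m n hmn => he hmn, h1, h2⟩, hv⟩, rfl⟩
      · rintro ⟨⟨x', e⟩, ⟨⟨he, h1, h2⟩, hv⟩, rfl⟩ h
        exact hv (h e (fun m n hmn => he m n hmn) h1 h2)
    rw [e1]
    refine AnalyticSet.image_of_continuous (kis_inter ?_ ?_) continuous_fst
    · refine MeasurableSet.analyticSet ?_
      have hq : ∀ n, Continuous fun p : RS a × (ℕ → ℕ) => p.2 n := fun n =>
        (continuous_apply n).comp continuous_snd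
      have hr : ∀ (f g h : RS a × (ℕ → ℕ) → ℕ), Continuous f → Continuous g → Continuous h →
          ∀ b, Measurable fun p : RS a × (ℕ → ℕ) => p.1 δ (p3 (f p) (g p) (h p)) = b :=
        fun f g h hf hg hh b => me_ev ((continuous_apply δ).comp continuous_fst)
          (p3_cont hf hg hh) b
      refine measurableSet_setOfPred.2 (Measurable.and ?_ (Measurable.and ?_ ?_))
      · exact Measurable.forall fun m => Measurable.forall fun n =>
          (kis_atom (hq m) (hq n)).imp measurable_const
      · exact Measurable.forall fun l => Measurable.forall fun m => Measurable.forall fun n =>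
          measurable_const.imp (measurable_const.imp (measurable_const.imp
            (hr _ _ _ (hq l) (hq m) (hq n) false)))
      · exact Measurable.forall fun u => (hr _ _ _ (hq 0) (hq 1) continuous_const false).imp
          (Measurable.exists fun n => Measurable.forall fun m => measurable_const.imp
            (hr _ _ _ continuous_const (hq n) (hq m) true))
    · exact hV.preimage (qt_cont (fun i => i ≠ δ) continuous_fst continuous_snd)
  have e0 : {x : RS a | ¬ IsTree δ V x} = {x : RS a | ¬ ((∀ u w, u ≠ w → x δ (p3 u u w) = true) ∧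
      (∀ u v, x δ (p3 u v u) = false) ∧
      (∀ u v w, x δ (p3 u v w) = true → x δ (p3 v u w) = true) ∧
      (∀ u v w, x δ (p3 u v w) = true → x δ (p3 u w v) = false) ∧
      (∀ u v w, x δ (p3 u v w) = true → ∀ z, x δ (p3 u v z) = true ∨ x δ (p3 z v w) = true) ∧
      (∀ i, i ≠ δ → ∀ (t : Fin (a i) → ℕ) (k l : Fin (a i)) (b : ℕ),
        x δ (p3 (t k) b (t l)) = true → x i (Function.update t k b) = x i t))} ∪
      {x : RS a | ¬ ∀ e : ℕ → ℕ, Function.Injective e →
      (∀ l m n, l ≠ m → l ≠ n → m ≠ n → x δ (p3 (e l) (e m) (e n)) = false) →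
      (∀ u, x δ (p3 (e 0) (e 1) u) = false → ∃ n, ∀ m, m ≠ n →
        x δ (p3 u (e n) (e m)) = true) →
      V (fun i v => if i ≠ δ ∧ ∃ j l, v j ≠ v l then x i (e ∘ v) else false)} := by
    ext x
    simp only [Set.mem_union, Set.mem_ofPred_eq]
    constructor
    · intro h
      by_contra hcon
      simp only [not_or, not_not] at hcon
      obtain ⟨⟨h1, h2, h3, h4, h5, h6⟩, h7⟩ := hcon
      exact h ⟨h1, h2, h3, h4, h5, h6, h7⟩
    · rintro (h | h) hs
      · exact h ⟨hs.refl, hs.irr, hs.symm, hs.c2, hs.c3, hs.mod⟩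
      · exact h hs.nodes
  rw [e0]
  exact kis_union m1.analyticSet a2

theorem qt_act {x : RS a} (σ : Equiv.Perm ℕ) (e : ℕ → ℕ) :
    qt (act σ x) e = qt x (⇑σ.symm ∘ e) := rfl

theorem ts_imod (a : ℕ → ℕ) (V : RS a → Prop) : Inv (MQ V) := by
  classical
  intro x y hxy hx
  obtain ⟨σ, rfl⟩ := exk_act hxy
  intro X e h1 h2 h3 h4 h5
  have key : ∀ Y : Set ℕ, Mdl (act σ x) Y → Mdl x (σ ⁻¹' Y) := by
    intro Y hY
    have h6 := hY.act (σ := σ.symm)
    rw [act_symm] at h6
    exact h6
  have h6 := hx (fun n => σ ⁻¹' (X n)) (⇑σ.symm ∘ e) (fun n => by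
    show σ (σ.symm (e n)) ∈ X n
    rw [σ.apply_symm_apply]
    exact h1 n) (fun n => key _ (h2 n)) (fun m n hmn => (h3 m n hmn).preimage σ) (by
    have := key _ h4
    rwa [preimage_iUnion] at this) (by
    rw [qt_act] at h5
    exact h5)
  rw [qt_act]
  exact h6

theorem ts_cmod (a : ℕ → ℕ) (V : RS a → Prop) (hV : Coan V) : Coan (MQ V) := by
  classical
  unfold Coan at *
  have P1 : PolishSpace (RS a) := kis_pRS a
  have P2 : PolishSpace (ℕ → ℕ → Bool) := exk_polish
  have P3 : PolishSpace (ℕ → ℕ) := kis_pN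
  have P4 : PolishSpace (RS a × ((ℕ → ℕ → Bool) × (ℕ → ℕ))) := inferInstance
  have B0 : ∀ n : ℕ, BorelSpace ((Fin (a n) → ℕ) → Bool) := fun n => inferInstance
  have S0 : ∀ n : ℕ, SecondCountableTopology ((Fin (a n) → ℕ) → Bool) :=
    fun n => inferInstance
  have B1 : BorelSpace (RS a) := Pi.borelSpace
  have B2 : BorelSpace (ℕ → ℕ → Bool) := inferInstance
  have B3 : BorelSpace (ℕ → ℕ) := inferInstance
  have B4 : BorelSpace ((ℕ → ℕ → Bool) × (ℕ → ℕ)) := Prod.borelSpace
  have B5 : BorelSpace (RS a × ((ℕ → ℕ → Bool) × (ℕ → ℕ))) := Prod.borelSpace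
  have cx : ∀ (i : ℕ) (t : Fin (a i) → ℕ),
      Continuous fun p : RS a × ((ℕ → ℕ → Bool) × (ℕ → ℕ)) => p.1 i t := fun i t =>
    (kis_coord i t).comp continuous_fst
  have cX : ∀ n u : ℕ, Continuous fun p : RS a × ((ℕ → ℕ → Bool) × (ℕ → ℕ)) => p.2.1 n u :=
    fun n u => (continuous_apply u).comp ((continuous_apply n).comp
      (continuous_fst.comp continuous_snd))
  have ce : ∀ n : ℕ, Continuous fun p : RS a × ((ℕ → ℕ → Bool) × (ℕ → ℕ)) => p.2.2 n :=
    fun n => (continuous_apply n).comp (continuous_snd.comp continuous_snd)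
  have mX : ∀ (n u : ℕ) (b : Bool),
      Measurable fun p : RS a × ((ℕ → ℕ → Bool) × (ℕ → ℕ)) => p.2.1 n u = b :=
    fun n u b => kis_atom (cX n u) continuous_const
  have mx : ∀ (i : ℕ) (t t' : Fin (a i) → ℕ),
      Measurable fun p : RS a × ((ℕ → ℕ → Bool) × (ℕ → ℕ)) => p.1 i t = p.1 i t' :=
    fun i t t' => kis_atom (cx i t) (cx i t')
  have mM : ∀ (S : RS a × ((ℕ → ℕ → Bool) × (ℕ → ℕ)) → Set ℕ),
      (∀ u, Measurable fun p => u ∈ S p) → Measurable fun p => Mdl p.1 (S p) := by
    intro S hS
    exact Measurable.forall fun i => Measurable.forall fun t => Measurable.forall fun k =>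
      Measurable.forall fun l => Measurable.forall fun b => (hS _).imp ((hS _).imp
        ((hS _).not.imp (mx _ _ _)))
  have cq : Continuous fun p : RS a × ((ℕ → ℕ → Bool) × (ℕ → ℕ)) => qt p.1 p.2.2 := by
    have h1 := qt_cont (a := a) (fun _ => True)
      (f := fun p : RS a × ((ℕ → ℕ → Bool) × (ℕ → ℕ)) => p.1) (g := fun p => p.2.2)
      continuous_fst (continuous_snd.comp continuous_snd)
    have h2 : (fun p : RS a × ((ℕ → ℕ → Bool) × (ℕ → ℕ)) => qt p.1 p.2.2) = fun p =>
        (fun i v => if True ∧ ∃ j l, v j ≠ v l then p.1 i (p.2.2 ∘ v) else false : RS a) := by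
      funext p i v
      unfold qt
      simp only [true_and]
    rw [h2]
    exact h1
  have e1 : {x : RS a | ¬ MQ V x} = Prod.fst ''
      ({p : RS a × ((ℕ → ℕ → Bool) × (ℕ → ℕ)) | (∀ n, p.2.1 n (p.2.2 n) = true) ∧
        (∀ n, Mdl p.1 {u | p.2.1 n u = true}) ∧
        (∀ m n, m ≠ n → ∀ u, p.2.1 m u = true → p.2.1 n u = false) ∧
        Mdl p.1 {u | ∃ n, p.2.1 n u = true} ∧
        (∀ i j n, i ≠ j → n ∈ ml (qt p.1 p.2.2) i j)} ∩
      (fun p => qt p.1 p.2.2) ⁻¹' {x : RS a | ¬ V x}) := by
    ext x
    simp only [Set.mem_image, Set.mem_inter_iff, Set.mem_preimage]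
    constructor
    · intro h
      by_contra hcon
      apply h
      intro X e h1 h2 h3 h4 h5
      by_contra hv
      refine hcon ⟨(x, (fun n u => decide (u ∈ X n), e)), ⟨⟨?_, ?_, ?_, ?_, ?_⟩, hv⟩, rfl⟩
      · intro n
        exact decide_eq_true (h1 n)
      · intro n
        have h6 : {u | decide (u ∈ X n) = true} = X n := by
          ext u
          simp
        show Mdl x {u | decide (u ∈ X n) = true}
        rw [h6]
        exact h2 n
      · intro m n hmn u hu
        have hu' : u ∈ X m := of_decide_eq_true hu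
        exact decide_eq_false fun h6 => Set.disjoint_left.1 (h3 m n hmn) hu' h6
      · have h6 : {u | ∃ n, decide (u ∈ X n) = true} = ⋃ n, X n := by
          ext u
          simp
        show Mdl x {u | ∃ n, decide (u ∈ X n) = true}
        rw [h6]
        exact h4
      · exact prm_iff.1 h5
    · rintro ⟨⟨x', X, e⟩, ⟨⟨h1, h2, h3, h4, h5⟩, hv⟩, rfl⟩ h
      refine hv (h (fun n => {u | X n u = true}) e h1 h2 ?_ ?_ (prm_iff.2 h5))
      · intro m n hmn
        rw [Set.disjoint_left]
        intro u hu hu'
        have h6 := h3 m n hmn u hu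
        have h7 : X n u = true := hu'
        have h8 : X n u = false := h6
        rw [h7] at h8
        exact absurd h8 (by simp)
      · have h6 : (⋃ n, {u | X n u = true}) = {u | ∃ n, X n u = true} := by
          ext u
          simp
        rw [h6]
        exact h4
  rw [e1]
  refine AnalyticSet.image_of_continuous (kis_inter ?_ (hV.preimage cq)) continuous_fst
  refine MeasurableSet.analyticSet ?_
  refine measurableSet_setOfPred.2 (Measurable.and ?_ (Measurable.and ?_ (Measurable.and ?_
    (Measurable.and ?_ ?_))))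
  · exact Measurable.forall fun n => me_ev ((continuous_apply n).comp
      (continuous_fst.comp continuous_snd)) (ce n) true
  · exact Measurable.forall fun n => mM _ fun u => mX n u true
  · exact Measurable.forall fun m => Measurable.forall fun n => measurable_const.imp
      (Measurable.forall fun u => (mX m u true).imp (mX n u false))
  · exact mM _ fun u => Measurable.exists fun n => mX n u true
  · refine Measurable.forall fun i => Measurable.forall fun j => Measurable.forall fun n =>
      measurable_const.imp ?_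
    exact me_ml (fun i' t => (me_RS i' t).comp cq.measurable) i j n

end inv

end Pool.Agent.W875.TS
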