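import Pool.Agent.W875.TS.OBS

set_option autoImplicit false

/-! The structures of the children satisfy Vaught's conjecture (countably many types). -/

namespace Pool.Agent.W875.TS

open Set
open Pool.Agent.H899R2.VP hiding RS
open Pool.Agent.H533R2.VO (Glu Lev RS RIso VC Dich)

variable {A : ℕ → ℕ}

theorem encI_0 (M : St (aD A)) (f : ℕ → ℕ) (t : Fin 2 → ℕ) : encI M f 0 t = false := by
  rw [← Bool.not_eq_true]
  exact fun h => (mk_0 _ _ _ _ _).1 h

theorem encI_1 (M : St (aD A)) (f : ℕ → ℕ) (t : Fin 2 → ℕ) : encI M f 1 t = false := by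
  rw [← Bool.not_eq_true]
  exact fun h => (mk_1 _ _ _ _ _).1 h

theorem encI_2 (M : St (aD A)) (f : ℕ → ℕ) (t : Fin 3 → ℕ) :
    encI M f 2 t = true ↔ D M (f (t 0)) (f (t 1)) (f (t 2)) := mk_2 _ _ _ _ _

theorem rd_encI (M : St (aD A)) (f : ℕ → ℕ) (i c : ℕ) (t : Fin (A i) → ℕ) :
    rd (encI M f) i c t = true ↔ c = 0 ∧ rl M i (f ∘ t) = true := rd_mk _ _ _ _ _ _ _

/-- Isomorphic pieces have isomorphic codes. -/
theorem encI_iso {M N : St (aD A)} {X Y : Set ℕ} (h : IsoOn M N X Y ∅) {e f : ℕ → ℕ}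
    (he : Function.Injective e) (her : range e = X) (hf : Function.Injective f)
    (hfr : range f = Y) : RIso (encI M e) (encI N f) := by
  obtain ⟨q, -, hq1, hq2, hq3, hq4⟩ := h
  have h1 : ∀ k, ∃ j, (e k, f j) ∈ q := by
    intro k
    obtain ⟨y, hy⟩ := hq3 (e k) (her ▸ mem_range_self k)
    have : y ∈ Y := (hq1 hy).2
    rw [← hfr] at this
    obtain ⟨j, rfl⟩ := this
    exact ⟨j, hy⟩
  have h2 : ∀ j, ∃ k, (e k, f j) ∈ q := by
    intro j
    obtain ⟨x, hx⟩ := hq4 (f j) (hfr ▸ mem_range_self j)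
    have : x ∈ X := (hq1 hx).1
    rw [← her] at this
    obtain ⟨k, rfl⟩ := this
    exact ⟨k, hx⟩
  choose r hr using h1
  choose s hs using h2
  have hsr : ∀ k, s (r k) = k := fun k => he (hq2.fst_eq (hs (r k)) (hr k) rfl)
  have hrs : ∀ j, r (s j) = j := fun j => hf (hq2.snd_eq (hr (s j)) (hs j) rfl)
  refine ⟨⟨r, s, hsr, hrs⟩, ?_⟩
  have key : (fun i v => encI N f i (r ∘ v)) = encI M e := by
    refine RS_ext ?_ ?_ ?_ ?_
    · intro x y
      exact (encI_0 N f _).trans (encI_0 M e _).symm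
    · intro x y
      exact (encI_1 N f _).trans (encI_1 M e _).symm
    · intro x y z
      rw [Bool.eq_iff_iff]
      refine Iff.trans (encI_2 _ _ _) (Iff.trans ?_ (encI_2 _ _ _).symm)
      exact (PIso_D hq2 (hr x) (hr y) (hr z)).symm
    · intro i c t
      rw [Bool.eq_iff_iff]
      have h3 : rd (fun i v => encI N f i (r ∘ v)) i c t = rd (encI N f) i c (r ∘ t) := rfl
      rw [h3, rd_encI, rd_encI]
      have h4 : rl M i (e ∘ t) = rl N i (f ∘ r ∘ t) :=
        PIso_rl hq2 i (fun k => (e (t k), f (r (t k)))) fun k => hr _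
      rw [h4]
  intro i v
  exact congrFun (congrFun key i) v

theorem vc_V2 {S : Set (St (aD A) × Set ℕ)} (hS : CF S) : VC (V2 S : RS (bE A) → Prop) := by
  classical
  intro B _ _ hBV
  left
  obtain ⟨f, hf⟩ := hS.cnt
  have hex : ∀ n, ∃ e : ℕ → ℕ, (f n).2.Infinite → Function.Injective e ∧ range e = (f n).2 := by
    intro n
    by_cases h : (f n).2.Infinite
    · have h' : (Set.ofPred (· ∈ (f n).2)).Infinite := h
      exact ⟨Nat.nth (· ∈ (f n).2), fun _ => ⟨Nat.nth_injective h', Nat.range_nth_of_infinite h'⟩⟩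
    · exact ⟨id, fun h' => absurd h' h⟩
  choose e he using hex
  refine ⟨fun n => encI (f n).1 (e n), fun x hx => ?_⟩
  obtain ⟨M, X, g, hMX, hg, hgr, rfl⟩ := hBV x hx
  obtain ⟨n, hn⟩ := hf M X hMX
  refine ⟨n, ?_⟩
  have hinf : (f n).2.Infinite := by
    obtain ⟨q, -, hq1, hq2, hq3, hq4⟩ := hn
    have h1 : ∀ k, ∃ x, (x, g k) ∈ q := fun k => hq4 (g k) (hgr ▸ mem_range_self k)
    choose s hs using h1
    refine Set.infinite_of_injective_forall_mem (f := s) ?_ fun k => (hq1 (hs k)).1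
    intro k l hkl
    exact hg (hq2.snd_eq (hs k) (hs l) hkl)
  obtain ⟨h1, h2⟩ := he n hinf
  exact encI_iso hn h1 h2 hg hgr

end Pool.Agent.W875.TS
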