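import Pool.Agent.W875.TS.MEA
import Pool.Agent.W875.TS.ADDPT
import Pool.Agent.W875.TS.VCV2
import Pool.Agent.H533R2.VS.All2
import Pool.Agent.H899R2.VP.Few

set_option autoImplicit false

/-! Centred structures: countably many types. -/

namespace Pool.Agent.W875.TS

open Set
open Pool.Agent.H899R2.VP hiding RS
open Pool.Agent.H533R2.VO (Glu Lev RS RIso VC Dich)
open Pool.Agent.H533R2.VS (IsSum IsOSum VCu)

variable {A : ℕ → ℕ}

theorem bE_pos (hA : ∀ i, 0 < A i) : ∀ i, 0 < bE A i
  | 0 => Nat.succ_pos 1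
  | 1 => Nat.succ_pos 1
  | 2 => Nat.succ_pos 2
  | n + 3 => hA _

theorem riso_symm {a : ℕ → ℕ} {x y : RS a} (h : RIso x y) : RIso y x := by
  obtain ⟨σ, h1⟩ := h
  refine ⟨σ.symm, fun i v => ?_⟩
  have h3 := h1 i (⇑σ.symm ∘ v)
  have e0 : (⇑σ ∘ ⇑σ.symm ∘ v) = v := by
    funext j
    simp
  rw [e0] at h3
  exact h3.symm

theorem isoOn_of_Is {M N : St (aD A)} {e : Equiv.Perm ℕ} (h : Is M N e) :
    IsoOn M N univ univ ∅ := by
  have h1 := h.isoOn univ
  rwa [image_univ_of_surjective e.surjective] at h1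

theorem t_CT (h1 : S_LEV3 A) (h2 : S_MS A) : S_CT A := by
  intro V hV α K S b hG hS
  obtain ⟨l, hl1, hl2, hl3⟩ := h1 S hS
  obtain ⟨hM, -⟩ := h2 S l hS hl3 hl1
  have hvc : VC (IsOSum 0 (IsSum 1 kk (V1 V) (V2 S)) : RS (bE A) → Prop) :=
    Pool.Agent.H533R2.VS.pln_ord (bE A) 0 rfl _
      (Pool.Agent.H533R2.VS.vs_plain_sum (bE A) (bE_pos hG.pos) 1 rfl kk (V1 V) (V2 S)
        (vcu_V1 hV) (vc_V2 hS))
  have hd : Dich {O : RS (bE A) | KP S b K O} := by
    refine hvc _ (me_KP hG.meas hM) ?_ fun O hO => KP.sum hG hO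
    intro O O' h
    exact ⟨fun hO => KP.riso hG hS h hO, fun hO => KP.riso hG hS (riso_symm h) hO⟩
  rcases hd with ⟨f, hf⟩ | ⟨g, hg1, hg2, hg3⟩
  · refine ⟨fun n => Rc (f n), fun N hN v hc => ?_⟩
    obtain ⟨hk, hr⟩ := KP_of hG hN hc
    obtain ⟨n, σ, hσ⟩ := hf _ hk
    refine ⟨n, ?_⟩
    have h3 := isoOn_of_Is (Is_Rc hσ)
    rw [hr] at h3
    exact h3
  · exfalso
    cases b with
    | true =>
      refine hG.few ⟨fun c => Rc (g c), cont_Rc.comp hg1, fun c => (hg2 c).mem,
        fun c d hcd => hg3 c d ?_⟩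
      obtain ⟨e, he, -⟩ := exists_is hcd
      refine KP.back (hg2 c) (hg2 d) he fun x y => ?_
      rw [(hg2 c).ct rfl, (hg2 d).ct rfl, he.mem hS, e.injective.ne_iff]
    | false =>
      have hcl : ∀ v, IsClosed {c | ∀ y, y ≠ v → Bo (g c) v y} := by
        intro v
        have h3 : {c | ∀ y, y ≠ v → Bo (g c) v y} =
            ⋂ y : ℕ, ⋂ _ : y ≠ v, {c | g c 0 ![v, y] = true} := by
          ext c
          simp only [Set.mem_ofPred_eq, mem_iInter]
          rfl
        rw [h3]
        refine isClosed_iInter fun y => isClosed_iInter fun _ => ?_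
        exact isClosed_eq ((co_O 0 ![v, y]).comp hg1) continuous_const
      have hcov : ⋃ v, {c | ∀ y, y ≠ v → Bo (g c) v y} = univ := by
        rw [eq_univ_iff_forall]
        intro c
        obtain ⟨v, hv⟩ := (hg2 c).cf rfl
        exact mem_iUnion.2 ⟨v, hv⟩
      obtain ⟨v, s, hs⟩ := nonempty_interior_of_iUnion_of_closed hcl hcov
      obtain ⟨I, u, hI, hIu⟩ := isOpen_pi_iff.1 isOpen_interior s hs
      let n : ℕ := I.sup id + 1
      let h : (ℕ → Bool) → (ℕ → Bool) := fun c i => if i < n then s i else c (i - n)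
      have hcont : Continuous h := by
        refine continuous_pi fun i => ?_
        by_cases hi : i < n
        · simp only [h, hi, if_true]
          exact continuous_const
        · simp only [h, hi, if_false]
          exact continuous_apply _
      have hinj : ∀ c d, h c = h d → c = d := by
        intro c d hcd
        funext i
        have := congrFun hcd (i + n)
        simp only [h, Nat.not_lt.2 (Nat.le_add_left n i), if_false, Nat.add_sub_cancel] at this
        exact this
      have hmem : ∀ c, ∀ y, y ≠ v → Bo (g (h c)) v y := by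
        intro c
        have : h c ∈ interior {c | ∀ y, y ≠ v → Bo (g c) v y} := by
          apply hIu
          intro i hi
          have hin : i < n := Nat.lt_succ_of_le (Finset.le_sup (f := id) hi)
          have : h c i = s i := by simp only [h, hin, if_true]
          rw [this]
          exact (hI i hi).2
        have h' : h c ∈ {c | ∀ y, y ≠ v → Bo (g c) v y} := interior_subset this
        exact h'
      refine few_base hG.meas hG.few (finite_singleton v) (fun c => Rc (g (h c)))
        (cont_Rc.comp (hg1.comp hcont)) (fun c => (hg2 _).mem) ?_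
      intro c d hcd
      apply hinj
      apply hg3
      obtain ⟨e, he, hev⟩ := exists_is hcd
      have hv : v = e v := hev (v, v) ⟨rfl, mem_singleton v⟩
      refine KP.back (hg2 _) (hg2 _) he fun x y => ?_
      rw [(hg2 _).Bo_iff (hmem c), (hg2 _).Bo_iff (hmem d), he.D_iff, ← hv]

end Pool.Agent.W875.TS
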