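import Pool.Agent.W875.TS.Spec

set_option autoImplicit false

/-! Levels and children of centred structures. -/

namespace Pool.Agent.W875.TS

open Set

variable {A : ℕ → ℕ}
open Pool.Agent.H899R2.VP hiding RS

/-- Same level. -/
def Lv (B : ℕ → ℕ → Prop) (x y : ℕ) : Prop := ¬ B x y ∧ ¬ B y x

/-- Same child. -/
def Sm (N : St (aD A)) (B : ℕ → ℕ → Prop) (x y : ℕ) : Prop := x = y ∨ ∃ b, B b x ∧ D N x y b

section ctr

variable {S : Set (St (aD A) × Set ℕ)} {N : St (aD A)} {B : ℕ → ℕ → Prop} {x y z b b' u w : ℕ}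

theorem Ctr.irr (hC : Ctr S N B) : ¬ B x x := fun h => (hC.cone x x h).1 rfl

theorem Ctr.tr (hC : Ctr S N B) (hxy : B x y) (hyz : B y z) : B x z := by
  have hN := hC.cs
  obtain ⟨p, hpy, hpz⟩ := hC.cmp y z ⟨x, hxy⟩ ⟨y, hyz⟩
  have hD1 : D N p y z := ((hC.cone p z hpz).2 y).1 hyz
  have hD2 : D N p x y := ((hC.cone p y hpy).2 x).1 hxy
  refine ((hC.cone p z hpz).2 x).2 ?_
  rcases hN.c3 _ _ _ hD1 x with h | h
  · exact absurd h (hN.c2 _ _ _ hD2)
  · exact hN.trans hD1 (hN.symm _ _ _ h)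

theorem Ctr.wk (hC : Ctr S N B) (y : ℕ) (hxz : B x z) : B x y ∨ B y z := by
  have hN := hC.cs
  by_cases hyz0 : y = z
  · subst hyz0
    exact Or.inl hxz
  by_cases hyz : B y z
  · exact Or.inr hyz
  by_cases hb : ∃ b, B b y
  · obtain ⟨p, hpy, hpz⟩ := hC.cmp y z hb ⟨x, hxz⟩
    have hD : D N p x z := ((hC.cone p z hpz).2 x).1 hxz
    have hn : y ∉ Cn N p z := fun h => hyz (((hC.cone p z hpz).2 y).2 h)
    exact Or.inl (((hC.cone p y hpy).2 x).2
      (hN.cin (hN.self_mem (hC.cone p z hpz).1) hD hn))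
  · exact absurd (hC.cen y hb z (Ne.symm hyz0)) hyz

theorem Ctr.asy (hC : Ctr S N B) (h : B x y) : ¬ B y x := fun h' => hC.irr (hC.tr h h')

theorem Lv.symm' (h : Lv B x y) : Lv B y x := ⟨h.2, h.1⟩

theorem Ctr.lv_refl (hC : Ctr S N B) (x : ℕ) : Lv B x x := ⟨hC.irr, hC.irr⟩

theorem Ctr.lvB (hC : Ctr S N B) (hl : Lv B x y) : B b x ↔ B b y := by
  constructor
  · intro h1
    rcases hC.wk y h1 with h2 | h2
    · exact h2
    · exact absurd h2 hl.2
  · intro h1
    rcases hC.wk x h1 with h2 | h2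
    · exact h2
    · exact absurd h2 hl.1

theorem Ctr.lvB' (hC : Ctr S N B) (hl : Lv B x y) : B x b ↔ B y b := by
  constructor
  · intro h1
    rcases hC.wk y h1 with h2 | h2
    · exact absurd h2 hl.1
    · exact h2
  · intro h1
    rcases hC.wk x h1 with h2 | h2
    · exact absurd h2 hl.2
    · exact h2

theorem Ctr.lv_trans (hC : Ctr S N B) (h : Lv B x y) (h' : Lv B y z) : Lv B x z :=
  ⟨fun h1 => h'.1 ((hC.lvB' h).1 h1), fun h1 => h.1 (by
    have h2 := (hC.lvB' h').2 h1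
    exact absurd h2 (h.symm').1)⟩

theorem Ctr.coneD (hC : Ctr S N B) (h1 : B x y) (h2 : B b y) : D N x b y :=
  ((hC.cone x y h1).2 b).1 h2

theorem Ctr.ceq (hC : Ctr S N B) (h1 : B b x) (h2 : B b' x) : Cn N x b = Cn N x b' :=
  hC.cs.ceq (hC.coneD h1 h2)

theorem Ctr.child_lv (hC : Ctr S N B) (h1 : B b x) (h2 : D N x y b) : Lv B x y := by
  have hcs := hC.cs
  constructor
  · intro h3
    have h4 : B b y := hC.tr h1 h3
    exact hcs.c2 _ _ _ h2 (hC.coneD h3 h4)
  · intro h3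
    have h4 : D N b y x := hC.coneD h1 h3
    exact hcs.c2 _ _ _ (hcs.symm _ _ _ h2) (hcs.symm _ _ _ h4)

theorem Ctr.sm_lv (hC : Ctr S N B) (h : Sm N B x y) : Lv B x y := by
  rcases h with rfl | ⟨b, h1, h2⟩
  · exact hC.lv_refl _
  · exact hC.child_lv h1 h2

theorem Ctr.sm_iff (hC : Ctr S N B) (h : B b x) : Sm N B x y ↔ D N x y b := by
  constructor
  · rintro (rfl | ⟨b', h1, h2⟩)
    · exact hC.cs.refl x b (fun e => hC.irr (e ▸ h))
    · have h3 := hC.ceq h1 h
      have : y ∈ Cn N x b' := h2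
      rw [h3] at this
      exact this
  · intro h1
    exact Or.inr ⟨b, h, h1⟩

theorem Sm.rfl' : Sm N B x x := Or.inl rfl

theorem Ctr.sm_symm (hC : Ctr S N B) (h : Sm N B x y) : Sm N B y x := by
  rcases h with rfl | ⟨b, h1, h2⟩
  · exact Sm.rfl'
  · exact Or.inr ⟨b, (hC.lvB (hC.child_lv h1 h2)).1 h1, hC.cs.symm _ _ _ h2⟩

theorem Ctr.sm_trans (hC : Ctr S N B) (h : Sm N B x y) (h' : Sm N B y z) : Sm N B x z := by
  rcases h with rfl | ⟨b, h1, h2⟩
  · exact h'
  · have h3 : B b y := (hC.lvB (hC.child_lv h1 h2)).1 h1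
    exact Or.inr ⟨b, h1, hC.cs.trans h2 ((hC.sm_iff h3).1 h')⟩

/-- A point outside a child. -/
theorem Ctr.out (hC : Ctr S N B) (h : Sm N B x y) (h' : ¬ Sm N B x z) : D N x y z := by
  rcases h with rfl | ⟨b, h1, h2⟩
  · exact hC.cs.refl _ _ (fun e => h' (Or.inl e))
  · refine hC.cs.cin (x := x) (z := b) (hC.cs.self_mem (fun e => hC.irr (e ▸ h1))) h2 ?_
    exact fun h3 => h' (Or.inr ⟨b, h1, h3⟩)

/-- The description of `D`. -/
theorem Ctr.D_iff (hC : Ctr S N B) (x y z : ℕ) : D N x y z ↔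
    (B x z ∧ B y z) ∨ (Sm N B x y ∧ (¬ Sm N B x z ∨ D N x y z)) := by
  have hcs := hC.cs
  constructor
  · intro hD
    by_cases h : B x z ∧ B y z
    · exact Or.inl h
    refine Or.inr ⟨?_, Or.inr hD⟩
    have hx : ¬ B x z := fun h1 => h ⟨h1, ((hC.cone x z h1).2 y).2 hD⟩
    have hy : ¬ B y z := fun h1 => h ⟨((hC.cone y z h1).2 x).2 (hcs.symm _ _ _ hD), h1⟩
    have hne : z ≠ x := (hcs.ne hD).symm
    have hb : ∃ b, B b x := by
      by_contra hno
      exact hx (hC.cen x hno z hne)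
    obtain ⟨b, hb⟩ := hb
    refine Or.inr ⟨b, hb, ?_⟩
    rcases hcs.c3 _ _ _ hD b with h1 | h1
    · exact h1
    exfalso
    by_cases hzx : B z x
    · have h2 : D N b z x := hC.coneD hb hzx
      have h3 : D N b x z := hcs.trans h1 (hcs.symm _ _ _ hD)
      exact hcs.c2 _ _ _ h2 h3
    · have hbz : B b z := (hC.lvB (x := x) (y := z) ⟨hx, hzx⟩).1 hb
      exact hy (((hC.cone b z hbz).2 y).2 h1)
  · rintro (⟨h1, h2⟩ | ⟨h1, h2 | h2⟩)
    · exact hC.coneD h1 h2
    · exact hC.out h1 h2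
    · exact h2

end ctr

/-- Values depend only on the parts. -/
theorem rl_kappa {N : St (aD A)} (hN : Cs N) {γ : Type} (κ : ℕ → γ) (X : Set ℕ)
    (hX : ∀ u ∈ X, ∀ u' ∈ X, ∀ w ∈ X, κ u = κ u' → κ u ≠ κ w → D N u u' w) {i : ℕ}
    (s s' : Fin (A i) → ℕ) (hs : ∀ k, s k ∈ X) (hs' : ∀ k, s' k ∈ X)
    (h : ∀ k, κ (s k) = κ (s' k)) (hn : ∃ j l, κ (s j) ≠ κ (s l)) : rl N i s = rl N i s' := by
  classical
  have key : ∀ F : Finset (Fin (A i)),
      rl N i (fun k => if k ∈ F then s' k else s k) = rl N i s := by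
    intro F
    induction F using Finset.induction_on with
    | empty => simp
    | insert k F hk ih =>
      have e1 : (fun j => if j ∈ insert k F then s' j else s j) =
          Function.update (fun j => if j ∈ F then s' j else s j) k (s' k) := by
        funext j
        by_cases hj : j = k
        · subst hj
          simp
        · rw [Function.update_of_ne hj]
          simp [hj]
      have hcur : ∀ j, κ (if j ∈ F then s' j else s j) = κ (s j) := by
        intro j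
        split_ifs
        · exact (h j).symm
        · rfl
      have hcurX : ∀ j, (if j ∈ F then s' j else s j) ∈ X := by
        intro j
        split_ifs
        · exact hs' j
        · exact hs j
      have hl : ∃ l, κ (s k) ≠ κ (s l) := by
        obtain ⟨j, l, hjl⟩ := hn
        by_cases h1 : κ (s k) = κ (s j)
        · exact ⟨l, fun h2 => hjl (h1.symm.trans h2)⟩
        · exact ⟨j, h1⟩
      obtain ⟨l, hl⟩ := hl
      rw [e1, ← ih]
      refine hN.mod i _ k l (s' k) ?_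
      refine hX _ (hcurX k) _ (hs' k) _ (hcurX l) ?_ ?_
      · rw [hcur k]
        exact h k
      · rw [hcur k, hcur l]
        exact hl
  have h1 := key Finset.univ
  simp only [Finset.mem_univ, if_true] at h1
  exact h1.symm

open Classical in
/-- The parts at the level of `x0`: the centre, and the children. -/
noncomputable def kap (N : St (aD A)) (B : ℕ → ℕ → Prop) (x0 u : ℕ) : Set ℕ :=
  if B u x0 then {w | B w x0} else {w | Sm N B u w}

section kap

variable {S : Set (St (aD A) × Set ℕ)} {N : St (aD A)} {B : ℕ → ℕ → Prop} {x0 u w : ℕ}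

theorem kap_cc (h : B u x0) (h' : B w x0) : kap N B x0 u = kap N B x0 w := by
  unfold kap
  rw [if_pos h, if_pos h']

theorem kap_cl (h : B u x0) (h' : ¬ B w x0) : kap N B x0 u ≠ kap N B x0 w := by
  unfold kap
  rw [if_pos h, if_neg h']
  intro e
  have h1 : w ∈ {v | Sm N B w v} := Sm.rfl'
  rw [← e] at h1
  exact h' h1

theorem Ctr.kap_ll (hC : Ctr S N B) (h : ¬ B u x0) (h' : ¬ B w x0) :
    kap N B x0 u = kap N B x0 w ↔ Sm N B u w := by
  unfold kap
  rw [if_neg h, if_neg h']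
  constructor
  · intro e
    have h1 : w ∈ {v | Sm N B w v} := Sm.rfl'
    rw [← e] at h1
    exact h1
  · intro h1
    ext v
    exact ⟨fun h2 => hC.sm_trans (hC.sm_symm h1) h2, fun h2 => hC.sm_trans h1 h2⟩

theorem Ctr.kapX (hC : Ctr S N B) (x0 : ℕ) : ∀ u ∈ {v | B v x0 ∨ Lv B v x0},
    ∀ u' ∈ {v | B v x0 ∨ Lv B v x0}, ∀ w ∈ {v | B v x0 ∨ Lv B v x0},
    kap N B x0 u = kap N B x0 u' → kap N B x0 u ≠ kap N B x0 w → D N u u' w := by
  intro u hu u' hu' w hw h1 h2
  by_cases hb : B u x0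
  · by_cases hb' : B u' x0
    · have hw' : Lv B w x0 := by
        rcases hw with hw | hw
        · exact absurd (kap_cc hb hw) h2
        · exact hw
      have h3 : B u w := (hC.lvB hw'.symm').1 hb
      have h4 : B u' w := (hC.lvB hw'.symm').1 hb'
      exact hC.coneD h3 h4
    · exact absurd h1 (kap_cl hb hb')
  · by_cases hb' : B u' x0
    · exact absurd h1.symm (kap_cl hb' hb)
    · have h3 := (hC.kap_ll hb hb').1 h1
      refine hC.out h3 ?_
      intro h4
      by_cases hw' : B w x0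
      · have h5 : Lv B u x0 := by
          rcases hu with hu | hu
          · exact absurd hu hb
          · exact hu
        exact (hC.sm_lv h4).2 ((hC.lvB h5.symm').1 hw')
      · exact h2 ((hC.kap_ll hb hw').2 h4)

/-- Values at a level. -/
theorem Ctr.rl_eq (hC : Ctr S N B) (x0 : ℕ) {i : ℕ} (s s' : Fin (A i) → ℕ)
    (hs : ∀ k, B (s k) x0 ∨ Lv B (s k) x0)
    (h : ∀ k, (B (s k) x0 ∧ B (s' k) x0) ∨ (Lv B (s k) x0 ∧ Sm N B (s k) (s' k)))
    (hn : (∃ j l, B (s j) x0 ∧ Lv B (s l) x0) ∨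
      ∃ j l, Lv B (s j) x0 ∧ Lv B (s l) x0 ∧ ¬ Sm N B (s j) (s l)) : rl N i s = rl N i s' := by
  refine rl_kappa hC.cs (kap N B x0) {v | B v x0 ∨ Lv B v x0} (hC.kapX x0) s s' hs ?_ ?_ ?_
  · intro k
    rcases h k with ⟨-, h1⟩ | ⟨h1, h2⟩
    · exact Or.inl h1
    · exact Or.inr (hC.lv_trans (hC.sm_lv h2).symm' h1)
  · intro k
    rcases h k with ⟨h1, h2⟩ | ⟨h1, h2⟩
    · exact kap_cc h1 h2
    · exact (hC.kap_ll h1.1 (hC.lv_trans (hC.sm_lv h2).symm' h1).1).2 h2
  · rcases hn with ⟨j, l, h1, h2⟩ | ⟨j, l, h1, h2, h3⟩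
    · exact ⟨j, l, kap_cl h1 h2.1⟩
    · exact ⟨j, l, fun h4 => h3 ((hC.kap_ll h1.1 h2.1).1 h4)⟩

end kap

end Pool.Agent.W875.TS
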