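import Pool.Agent.H533R2.VO.Spec

set_option autoImplicit false

/-!
# Vaught's conjecture for tree sums: definitions

Structures `M : St (aD A)` on `ℕ` have a ternary relation `D x y z` (`x`, `y` are together away
from `z`), a C-relation, and relations of arities `A i` for which all cones are modules.
-/

namespace Pool.Agent.W875.TS

open Set
open Pool.Agent.H899R2.VP (St Adj PIso BF IsoOn idOn inv comp zipSet)
open Pool.Agent.H533R2.VO (Glu Lev RS)

/-- Arities: one ternary relation, then the given relations. -/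
abbrev aD (A : ℕ → ℕ) : ℕ → ℕ
  | 0 => 3
  | i + 1 => A i

variable {A : ℕ → ℕ}

/-- The ternary relation. -/
def D (M : St (aD A)) (x y z : ℕ) : Prop := M.2 0 ![x, y, z] = true

/-- The other relations. -/
def rl (M : St (aD A)) (i : ℕ) (t : Fin (A i) → ℕ) : Bool := M.2 (i + 1) t

/-- Tree-like structures with modules. -/
structure Cs (M : St (aD A)) : Prop where
  flat : ∀ x y, M.1 x y = false
  refl : ∀ x z, x ≠ z → D M x x z
  irr : ∀ x y, ¬ D M x y x
  symm : ∀ x y z, D M x y z → D M y x z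
  c2 : ∀ x y z, D M x y z → ¬ D M x z y
  c3 : ∀ x y z, D M x y z → ∀ w, D M x y w ∨ D M w y z
  mod : ∀ i (t : Fin (A i) → ℕ) (k l : Fin (A i)) (b : ℕ), D M (t k) b (t l) →
    rl M i (Function.update t k b) = rl M i t

/-- The cone at `x` away from `z`. -/
def Cn (M : St (aD A)) (x z : ℕ) : Set ℕ := {y | D M x y z}

/-- The node generated by `x` and `y`. -/
def Nd (M : St (aD A)) (x y : ℕ) : Set ℕ := {z | ¬ D M x y z}

/-- `e` enumerates the children of a node with infinitely many children: representatives. -/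
structure NE (M : St (aD A)) (e : ℕ → ℕ) : Prop where
  inj : Function.Injective e
  star : ∀ l m n, l ≠ m → l ≠ n → m ≠ n → ¬ D M (e l) (e m) (e n)
  full : ∀ u, ¬ D M (e 0) (e 1) u → ∃ n, ∀ m, m ≠ n → D M u (e n) (e m)

/-- The structure of the children. -/
noncomputable def Qt (M : St (aD A)) (e : ℕ → ℕ) : RS A :=
  open Classical in fun i v => if ∃ j l, v j ≠ v l then rl M i (e ∘ v) else false

/-- The infinite nodes are in `V`. -/
def NV (V : RS A → Prop) (M : St (aD A)) : Prop := ∀ e, NE M e → V (Qt M e)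

/-- Families of (isomorphism types of) pieces, closed under subcones. -/
structure CF (S : Set (St (aD A) × Set ℕ)) : Prop where
  iso : ∀ M X N Y, (M, X) ∈ S → IsoOn M N X Y ∅ → (N, Y) ∈ S
  cnt : ∃ f : ℕ → St (aD A) × Set ℕ, ∀ M X, (M, X) ∈ S → ∃ n, IsoOn (f n).1 M (f n).2 X ∅
  sub : ∀ M X, (M, X) ∈ S → ∀ x ∈ X, ∀ z ∈ X, (M, X ∩ Cn M x z) ∈ S

/-- Small pieces: countably many variations of rank `α`. -/
def Small (α : Ordinal.{0}) (M : St (aD A)) (X : Set ℕ) : Prop :=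
  ∃ f : ℕ → St (aD A) × Set ℕ, ∀ (N : St (aD A)) (Y : Set ℕ), BF M N X Y α ∅ →
    ∃ n, IsoOn (f n).1 N (f n).2 Y ∅

/-- The standing hypotheses on the class `K`. -/
structure GC (V : RS A → Prop) (α : Ordinal.{0}) (K : Set (St (aD A))) : Prop where
  pos : ∀ i, 0 < A i
  meas : MeasurableSet K
  lt : α < Ordinal.omega 1
  om : Ordinal.omega0 ≤ α
  closed : ∀ M ∈ K, ∀ N : St (aD A), BF M N univ univ α ∅ → N ∈ K
  cs : ∀ M ∈ K, Cs M
  nv : ∀ M ∈ K, NV V M
  few : ¬ ∃ g : (ℕ → Bool) → St (aD A), Continuous g ∧ (∀ c, g c ∈ K) ∧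
    ∀ c d, IsoOn (g c) (g d) univ univ ∅ → c = d

/-- `e` is an isomorphism. -/
def Is (M N : St (aD A)) (e : Equiv.Perm ℕ) : Prop := PIso M N {w | w.2 = e w.1}

/-- Cones given by codes. -/
def Cc (M : St (aD A)) (p : ℕ) : Set ℕ := Cn M p.unpair.1 p.unpair.2

/-- The code is proper. -/
def Pr (p : ℕ) : Prop := p.unpair.1 ≠ p.unpair.2

/-- The cone with code `p` is not in the family. -/
def Bc (S : Set (St (aD A) × Set ℕ)) (M : St (aD A)) (p : ℕ) : Prop := Pr p ∧ (M, Cc M p) ∉ S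

/-- `q` and `r` are disjoint subcones of `p`. -/
def Sc (M : St (aD A)) (p q r : ℕ) : Prop :=
  Pr q ∧ Pr r ∧ Cc M q ⊆ Cc M p ∧ Cc M r ⊆ Cc M p ∧ Disjoint (Cc M q) (Cc M r)

/-! ### Combs -/

/-- A comb: disjoint big cones `X k = Cn M (x k) (z k)` and the descending nodes
`J k = Nd M (x k) (x (k + 1))`. -/
structure Cb (α : Ordinal.{0}) (M : St (aD A)) (x z : ℕ → ℕ) : Prop where
  cs : Cs M
  ne : ∀ k, x k ≠ z k
  dj : ∀ k j, k ≠ j → Disjoint (Cn M (x k) (z k)) (Cn M (x j) (z j))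
  XJ : ∀ k, Cn M (x k) (z k) ⊆ Nd M (x k) (x (k + 1))
  JJ : ∀ k, Nd M (x (k + 1)) (x (k + 2)) ⊆ Nd M (x k) (x (k + 1))
  XJd : ∀ k, Disjoint (Cn M (x k) (z k)) (Nd M (x (k + 1)) (x (k + 2)))
  Jc : ∀ k, ∀ v ∈ Nd M (x (k + 1)) (x (k + 2)), D M v (x (k + 1)) (x k)
  big : ∀ k, ¬ Small α M (Cn M (x k) (z k))

/-- The structure with the cones of the comb filled according to the bits of `σ`. -/
noncomputable def DS (M : St (aD A)) (x z : ℕ → ℕ) (t : ℕ → St (aD A)) (σ : ℕ → Bool) :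
    St (aD A) :=
  Glu M (fun k => Cn M (x k) (z k)) (fun k => t (2 * k + (σ k).toNat))

/-- Truncation. -/
noncomputable def trunc (M : St (aD A)) (t : ℕ → St (aD A)) (s : ℕ) : ℕ → St (aD A) :=
  fun r => if r < s then t r else M

/-- The countable set of pieces to be avoided at stage `s`. -/
def FF (M : St (aD A)) (x z : ℕ → ℕ) (t : ℕ → St (aD A)) (s : ℕ) : Set (St (aD A) × Set ℕ) :=
  {P | ∃ r ≤ s, ∃ c u v : ℕ, u ≠ v ∧ P = (DS M x z (trunc M t r) (fun j => c.testBit j),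
    Cn (DS M x z (trunc M t r) (fun j => c.testBit j)) u v)}

/-- Good fillings. -/
def GoodT (α : Ordinal.{0}) (M : St (aD A)) (x z : ℕ → ℕ) (t : ℕ → St (aD A)) : Prop :=
  ∀ s, BF M (t s) (Cn M (x (s / 2)) (z (s / 2))) (Cn M (x (s / 2)) (z (s / 2))) α ∅ ∧
    ∀ P ∈ FF M x z t s, ¬ IsoOn P.1 (t s) P.2 (Cn M (x (s / 2)) (z (s / 2))) ∅

/-- The standing assumptions of the coding. -/
structure SU (α : Ordinal.{0}) (M : St (aD A)) (x z : ℕ → ℕ) (t : ℕ → St (aD A)) : Prop where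
  pos : ∀ i, 0 < A i
  om : Ordinal.omega0 ≤ α
  cb : Cb α M x z
  gt : GoodT α M x z t

/-! ### Centred structures -/

/-- `B x y` means that `x` is in the cone at `y` towards the centre. -/
structure Ctr (S : Set (St (aD A) × Set ℕ)) (N : St (aD A)) (B : ℕ → ℕ → Prop) : Prop where
  cs : Cs N
  cone : ∀ x y, B x y → x ≠ y ∧ ∀ x', (B x' y ↔ D N x x' y)
  cmp : ∀ y y', (∃ x, B x y) → (∃ x, B x y') → ∃ x, B x y ∧ B x y'
  cen : ∀ v, (¬ ∃ x, B x v) → ∀ y, y ≠ v → B v y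
  thin : ∀ x y, B x y → (N, Cn N y x) ∈ S

/-- The two kinds of centres: a point `v`, or the end determined by the cones not in `S`. -/
def Be (S : Set (St (aD A) × Set ℕ)) (b : Bool) (N : St (aD A)) (v x y : ℕ) : Prop :=
  match b with
  | false => D N v x y
  | true => x ≠ y ∧ (N, Cn N x y) ∉ S

/-- `f` enumerates the types of `S`. -/
def Enu (S : Set (St (aD A) × Set ℕ)) (f : ℕ → St (aD A) × Set ℕ) : Prop :=
  ∀ M X, (M, X) ∈ S → ∃ n, f n ∈ S ∧ IsoOn (f n).1 M (f n).2 X ∅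

end Pool.Agent.W875.TS
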