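import Pool.Agent.W875.TS.CTA
import Pool.Agent.H533R2.VS.Spec2

set_option autoImplicit false

/-! The presentation of centred structures as ordered sums of generalised sums. -/

namespace Pool.Agent.W875.TS

open Set
open Pool.Agent.H899R2.VP hiding RS
open Pool.Agent.H533R2.VO (Glu Lev RS RIso VC)
open Pool.Agent.H533R2.VS (p2)

variable {A : ℕ → ℕ}

/-- Arities of the presentation: the order of the levels, the equivalence relation of the
children, the ternary relation inside the children, and for every `i` and every code `c` one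
relation of arity `A i`. -/
abbrev bE (A : ℕ → ℕ) : ℕ → ℕ
  | 0 => 2
  | 1 => 2
  | 2 => 3
  | n + 3 => A n.unpair.1

/-- The number of the relation for `i` and `c`. -/
def ix (i c : ℕ) : ℕ := Nat.pair i c

theorem ix_ar (i c : ℕ) : A (ix i c).unpair.1 = A i := by
  unfold ix
  rw [Nat.unpair_pair]

/-- Read the relation for `i` and `c`. -/
def rd (O : RS (bE A)) (i c : ℕ) (t : Fin (A i) → ℕ) : Bool :=
  O (ix i c + 3) (fun j => t (Fin.cast (ix_ar i c) j))

open Classical in
/-- Build a structure. -/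
noncomputable def mk (B E : ℕ → ℕ → Prop) (T : ℕ → ℕ → ℕ → Prop)
    (R : (i c : ℕ) → (Fin (A i) → ℕ) → Prop) : RS (bE A) := fun n =>
  match n with
  | 0 => fun t => decide (B (t 0) (t 1))
  | 1 => fun t => decide (E (t 0) (t 1))
  | 2 => fun t => decide (T (t 0) (t 1) (t 2))
  | n + 3 => fun t => decide (R n.unpair.1 n.unpair.2 t)

theorem mk_aux (R : (i c : ℕ) → (Fin (A i) → ℕ) → Prop) {i i' c c' : ℕ} (hi : i' = i)
    (hc : c' = c) (t : Fin (A i) → ℕ) (h : A i' = A i) :
    R i' c' (fun j => t (Fin.cast h j)) ↔ R i c t := by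
  subst hi hc
  exact Iff.rfl

theorem rd_mk (B E : ℕ → ℕ → Prop) (T : ℕ → ℕ → ℕ → Prop)
    (R : (i c : ℕ) → (Fin (A i) → ℕ) → Prop) (i c : ℕ) (t : Fin (A i) → ℕ) :
    rd (mk B E T R) i c t = true ↔ R i c t := by
  unfold rd mk
  simp only [decide_eq_true_eq]
  exact mk_aux R (by simp [ix]) (by simp [ix]) t _

theorem rd_eq (O : RS (bE A)) (n : ℕ) (t : Fin (A n.unpair.1) → ℕ) :
    O (n + 3) t = rd O n.unpair.1 n.unpair.2 t := by
  have key : ∀ (m : ℕ) (h : m = n) (h' : A m.unpair.1 = A n.unpair.1),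
      O (n + 3) t = O (m + 3) (fun j => t (Fin.cast h' j)) := by
    intro m h h'
    subst h
    rfl
  exact key (ix n.unpair.1 n.unpair.2) (by simp [ix]) _

theorem v2 (t : Fin 2 → ℕ) : t = ![t 0, t 1] := by
  funext k
  fin_cases k <;> rfl

theorem v3 (t : Fin 3 → ℕ) : t = ![t 0, t 1, t 2] := by
  funext k
  fin_cases k <;> rfl

/-- Extensionality. -/
theorem RS_ext {O O' : RS (bE A)} (h0 : ∀ x y, O 0 ![x, y] = O' 0 ![x, y])
    (h1 : ∀ x y, O 1 ![x, y] = O' 1 ![x, y])
    (h2 : ∀ x y z, O 2 ![x, y, z] = O' 2 ![x, y, z])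
    (h3 : ∀ i c (t : Fin (A i) → ℕ), rd O i c t = rd O' i c t) : O = O' := by
  funext n t
  match n, t with
  | 0, t => rw [v2 t]; exact h0 _ _
  | 1, t => rw [v2 t]; exact h1 _ _
  | 2, t => rw [v3 t]; exact h2 _ _ _
  | n + 3, t => exact (rd_eq O n t).trans ((h3 _ _ _).trans (rd_eq O' n t).symm)

/-- Relabelling commutes with reading. -/
theorem rd_comp (O : RS (bE A)) (f : ℕ → ℕ) (i c : ℕ) (t : Fin (A i) → ℕ) :
    rd (fun n v => O n (f ∘ v)) i c t = rd O i c (f ∘ t) := rfl

/-- The tuple `t` at the places in `m`, `b` at the other places. -/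
def mx {k : ℕ} (m : ℕ) (t : Fin k → ℕ) (b : ℕ) : Fin k → ℕ :=
  fun j => if m.testBit j = true then t j else b

/-- The mixed tuple does not lie in one part. -/
def okp {k : ℕ} (m : ℕ) (P : ℕ → ℕ → Prop) (t : Fin k → ℕ) : Prop :=
  (∃ j l : Fin k, m.testBit j = true ∧ m.testBit l = false) ∨
    ∃ j l : Fin k, m.testBit j = true ∧ m.testBit l = true ∧ ¬ P (t j) (t l)

/-- The relations of the presentation. -/
def ObR (N : St (aD A)) (B : ℕ → ℕ → Prop) (i : ℕ) : (c : ℕ) → (Fin (A i) → ℕ) → Prop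
  | 0 => fun t => (∀ j l, Sm N B (t j) (t l)) ∧ rl N i t = true
  | m + 1 => fun t => (∀ j l, Lv B (t j) (t l)) ∧ okp m (Sm N B) t ∧
      ∃ b, (∀ j, B b (t j)) ∧ rl N i (mx m t b) = true

/-- The presentation. -/
noncomputable def Ob (N : St (aD A)) (B : ℕ → ℕ → Prop) : RS (bE A) :=
  mk B (Sm N B) (fun x y z => Sm N B x y ∧ Sm N B x z ∧ D N x y z) (ObR N B)

/-- The positions of the outermost entries. -/
def oc (O : RS (bE A)) {k : ℕ} (t : Fin k → ℕ) : ℕ :=
  Nat.ofBits (fun j : Fin k => decide (∀ l, O 0 ![t j, t l] = false))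

theorem oc_iff (O : RS (bE A)) {k : ℕ} (t : Fin k → ℕ) (j : Fin k) :
    (oc O t).testBit j = true ↔ ∀ l, O 0 ![t j, t l] = false := by
  unfold oc
  rw [Nat.testBit_ofBits_lt _ _ j.2]
  simp

/-- The structure given by a presentation. -/
def Rc (O : RS (bE A)) : St (aD A) := (fun _ _ => false, fun n =>
  match n with
  | 0 => fun t => (O 0 ![t 0, t 2] && O 0 ![t 1, t 2]) ||
      (O 1 ![t 0, t 1] && (!(O 1 ![t 0, t 2]) || O 2 ![t 0, t 1, t 2]))
  | i + 1 => fun t => if ∀ j l, O 1 ![t j, t l] = true then rd O i 0 t else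
      decide (∃ j0 : Fin (A i), (oc O t).testBit j0 = true ∧
        rd O i (oc O t + 1) (mx (oc O t) t (t j0)) = true))

theorem mk_0 (B E : ℕ → ℕ → Prop) (T : ℕ → ℕ → ℕ → Prop)
    (R : (i c : ℕ) → (Fin (A i) → ℕ) → Prop) (t : Fin 2 → ℕ) :
    mk B E T R 0 t = true ↔ B (t 0) (t 1) := by
  classical
  exact decide_eq_true_iff

theorem mk_1 (B E : ℕ → ℕ → Prop) (T : ℕ → ℕ → ℕ → Prop)
    (R : (i c : ℕ) → (Fin (A i) → ℕ) → Prop) (t : Fin 2 → ℕ) :
    mk B E T R 1 t = true ↔ E (t 0) (t 1) := by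
  classical
  exact decide_eq_true_iff

theorem mk_2 (B E : ℕ → ℕ → Prop) (T : ℕ → ℕ → ℕ → Prop)
    (R : (i c : ℕ) → (Fin (A i) → ℕ) → Prop) (t : Fin 3 → ℕ) :
    mk B E T R 2 t = true ↔ T (t 0) (t 1) (t 2) := by
  classical
  exact decide_eq_true_iff

theorem Ob_0 (N : St (aD A)) (B : ℕ → ℕ → Prop) (x y : ℕ) : Ob N B 0 ![x, y] = true ↔ B x y :=
  mk_0 _ _ _ _ _

theorem Ob_1 (N : St (aD A)) (B : ℕ → ℕ → Prop) (x y : ℕ) :
    Ob N B 1 ![x, y] = true ↔ Sm N B x y :=
  mk_1 _ _ _ _ _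

theorem Ob_2 (N : St (aD A)) (B : ℕ → ℕ → Prop) (x y z : ℕ) :
    Ob N B 2 ![x, y, z] = true ↔ Sm N B x y ∧ Sm N B x z ∧ D N x y z :=
  mk_2 _ _ _ _ _

theorem rd_Ob (N : St (aD A)) (B : ℕ → ℕ → Prop) (i c : ℕ) (t : Fin (A i) → ℕ) :
    rd (Ob N B) i c t = true ↔ ObR N B i c t := rd_mk _ _ _ _ _ _ _

theorem bool_false {b : Bool} {p : Prop} (h : b = true ↔ p) : b = false ↔ ¬ p := by
  rw [← h, Bool.not_eq_true]

section rc

variable {S : Set (St (aD A) × Set ℕ)} {N : St (aD A)} {B : ℕ → ℕ → Prop}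

theorem oc_Ob {k : ℕ} (t : Fin k → ℕ) (j : Fin k) :
    (oc (Ob N B) t).testBit j = true ↔ ∀ l, ¬ B (t j) (t l) := by
  rw [oc_iff]
  exact forall_congr' fun l => bool_false (Ob_0 N B _ _)

/-- There is an outermost entry. -/
theorem Ctr.exists_top (hC : Ctr S N B) {k : ℕ} (hk : 0 < k) (t : Fin k → ℕ) :
    ∃ j, ∀ l, ¬ B (t j) (t l) := by
  have key : ∀ F : Finset (Fin k), F.Nonempty → ∃ j ∈ F, ∀ l ∈ F, ¬ B (t j) (t l) := by
    intro F hF
    induction hF using Finset.Nonempty.cons_induction with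
    | singleton a =>
      refine ⟨a, Finset.mem_singleton_self a, fun l hl => ?_⟩
      rw [Finset.mem_singleton.1 hl]
      exact hC.irr
    | cons a F ha hF ih =>
      obtain ⟨j, hj, h⟩ := ih
      by_cases h1 : B (t j) (t a)
      · refine ⟨a, Finset.mem_cons_self a F, fun l hl h2 => ?_⟩
        rcases Finset.mem_cons.1 hl with rfl | hl
        · exact hC.irr h2
        · exact h l hl (hC.tr h1 h2)
      · refine ⟨j, Finset.mem_cons_of_mem hj, fun l hl => ?_⟩
        rcases Finset.mem_cons.1 hl with rfl | hl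
        · exact h1
        · exact h l hl
  obtain ⟨j, -, h⟩ := key Finset.univ ⟨⟨0, hk⟩, Finset.mem_univ _⟩
  exact ⟨j, fun l => h l (Finset.mem_univ l)⟩

/-- Values of the patterns. -/
theorem Ctr.pat (hC : Ctr S N B) {i m : ℕ} (t : Fin (A i) → ℕ) (x0 : ℕ)
    (hm : ∀ j : Fin (A i), m.testBit j = true → Lv B (t j) x0) (hok : okp m (Sm N B) t)
    (s : Fin (A i) → ℕ) (hs : ∀ j : Fin (A i), m.testBit j = true → s j = t j)
    (hs' : ∀ j : Fin (A i), m.testBit j = false → B (s j) x0) {b : ℕ} (hb : B b x0) :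
    rl N i (mx m t b) = rl N i s := by
  have h1 : ∀ k : Fin (A i), m.testBit k = true → mx m t b k = t k := fun k hk => by
    unfold mx
    rw [if_pos hk]
  have h2 : ∀ k : Fin (A i), m.testBit k = false → mx m t b k = b := fun k hk => by
    unfold mx
    rw [if_neg (by rw [hk]; exact Bool.false_ne_true)]
  refine hC.rl_eq x0 _ _ ?_ ?_ ?_
  · intro k
    cases hk : m.testBit k with
    | true => rw [h1 k hk]; exact Or.inr (hm k hk)
    | false => rw [h2 k hk]; exact Or.inl hb
  · intro k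
    cases hk : m.testBit k with
    | true => rw [h1 k hk, hs k hk]; exact Or.inr ⟨hm k hk, Sm.rfl'⟩
    | false => rw [h2 k hk]; exact Or.inl ⟨hb, hs' k hk⟩
  · rcases hok with ⟨j, l, h3, h4⟩ | ⟨j, l, h3, h4, h5⟩
    · refine Or.inl ⟨l, j, ?_, ?_⟩
      · rw [h2 l h4]; exact hb
      · rw [h1 j h3]; exact hm j h3
    · refine Or.inr ⟨j, l, ?_, ?_, ?_⟩
      · rw [h1 j h3]; exact hm j h3
      · rw [h1 l h4]; exact hm l h4
      · rw [h1 j h3, h1 l h4]; exact h5

/-- The presentation determines the structure. -/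
theorem Rc_Ob (hA : ∀ i, 0 < A i) (hC : Ctr S N B) : Rc (Ob N B) = N := by
  refine Prod.ext ?_ ?_
  · funext x y
    exact (hC.cs.flat x y).symm
  funext n
  match n with
  | 0 =>
    funext t
    have h1 := hC.D_iff (t 0) (t 1) (t 2)
    have h2 : D N (t 0) (t 1) (t 2) ↔ N.2 0 t = true := by
      unfold D
      rw [← v3 t]
    rw [Bool.eq_iff_iff, ← h2, h1]
    show ((Ob N B 0 ![t 0, t 2] && Ob N B 0 ![t 1, t 2]) ||
      (Ob N B 1 ![t 0, t 1] && (!(Ob N B 1 ![t 0, t 2]) || Ob N B 2 ![t 0, t 1, t 2]))) = true ↔ _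
    rw [Bool.or_eq_true, Bool.and_eq_true, Bool.and_eq_true, Bool.or_eq_true,
      Bool.not_eq_true', Ob_0, Ob_0, Ob_1, bool_false (Ob_1 N B _ _), Ob_2]
    constructor
    · rintro (h3 | ⟨h3, h4 | h4⟩)
      · exact Or.inl h3
      · exact Or.inr ⟨h3, Or.inl h4⟩
      · exact Or.inr ⟨h3, Or.inr h4.2.2⟩
    · rintro (h3 | ⟨h3, h4⟩)
      · exact Or.inl h3
      · refine Or.inr ⟨h3, ?_⟩
        by_cases h5 : Sm N B (t 0) (t 2)
        · rcases h4 with h4 | h4
          · exact absurd h5 h4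
          · exact Or.inr ⟨h3, h5, h4⟩
        · exact Or.inl h5
  | i + 1 =>
    funext t
    change Fin (A i) → ℕ at t
    show (if ∀ j l, Ob N B 1 ![t j, t l] = true then rd (Ob N B) i 0 t else
      decide (∃ j0 : Fin (A i), (oc (Ob N B) t).testBit j0 = true ∧
        rd (Ob N B) i (oc (Ob N B) t + 1) (mx (oc (Ob N B) t) t (t j0)) = true)) = rl N i t
    by_cases hall : ∀ j l, Ob N B 1 ![t j, t l] = true
    · rw [if_pos hall, Bool.eq_iff_iff, rd_Ob]
      constructor
      · intro h; exact h.2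
      · intro h; exact ⟨fun j l => (Ob_1 N B _ _).1 (hall j l), h⟩
    rw [if_neg hall, Bool.eq_iff_iff, decide_eq_true_eq]
    have hns : ∃ j l, ¬ Sm N B (t j) (t l) := by
      by_contra hcon
      push Not at hcon
      exact hall fun j l => (Ob_1 N B _ _).2 (hcon j l)
    set m := oc (Ob N B) t with hm
    have hmt : ∀ j : Fin (A i), m.testBit j = true ↔ ∀ l, ¬ B (t j) (t l) := fun j => oc_Ob t j
    have hmf : ∀ j : Fin (A i), m.testBit j = false ↔ ¬ ∀ l, ¬ B (t j) (t l) := fun j =>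
      bool_false (hmt j)
    obtain ⟨j1, hj1⟩ := hC.exists_top (hA i) t
    -- facts for an outermost position
    have hlv : ∀ j0 : Fin (A i), m.testBit j0 = true → ∀ j : Fin (A i), m.testBit j = true →
        Lv B (t j) (t j0) := fun j0 h0 j hj => ⟨(hmt j).1 hj j0, (hmt j0).1 h0 j⟩
    have hin : ∀ j0 : Fin (A i), m.testBit j0 = true → ∀ j : Fin (A i), m.testBit j = false →
        B (t j) (t j0) := by
      intro j0 h0 j hj
      have h1 := (hmf j).1 hj
      push Not at h1
      obtain ⟨l, hl⟩ := h1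
      rcases hC.wk (t j0) hl with h2 | h2
      · exact h2
      · exact absurd h2 ((hmt j0).1 h0 l)
    have hokt : okp m (Sm N B) t := by
      by_cases hex : ∃ l : Fin (A i), m.testBit l = false
      · obtain ⟨l, hl⟩ := hex
        exact Or.inl ⟨j1, l, (hmt j1).2 hj1, hl⟩
      · push Not at hex
        obtain ⟨j, l, hjl⟩ := hns
        refine Or.inr ⟨j, l, ?_, ?_, hjl⟩
        · have := hex j
          simpa using this
        · have := hex l
          simpa using this
    constructor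
    · rintro ⟨j0, h0, h1⟩
      rw [rd_Ob] at h1
      obtain ⟨h2, h3, b, h4, h5⟩ := h1
      have hbj : B b (t j0) := by
        have := h4 j0
        unfold mx at this
        rwa [if_pos h0] at this
      have h6 : mx m (mx m t (t j0)) b = mx m t b := by
        funext j
        unfold mx
        split_ifs <;> rfl
      rw [h6] at h5
      rw [← hC.pat t (t j0) (hlv j0 h0) hokt t (fun _ _ => rfl) (hin j0 h0) hbj]
      exact h5
    · intro h
      have hj1' := (hmt j1).2 hj1
      refine ⟨j1, hj1', ?_⟩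
      rw [rd_Ob]
      have hb : ∃ b, B b (t j1) := by
        by_contra hno
        obtain ⟨j, l, hjl⟩ := hns
        have key : ∀ j, t j = t j1 := by
          intro j
          by_contra hne
          exact hj1 j (hC.cen _ hno _ hne)
        exact hjl (Or.inl ((key j).trans (key l).symm))
      obtain ⟨b, hb⟩ := hb
      have hall' : ∀ j, Lv B (mx m t (t j1) j) (t j1) := by
        intro j
        unfold mx
        split_ifs with h1
        · exact hlv j1 hj1' j h1
        · exact hC.lv_refl _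
      refine ⟨fun j l => hC.lv_trans (hall' j) (hall' l).symm', ?_, b,
        fun j => (hC.lvB (hall' j)).2 hb, ?_⟩
      · rcases hokt with h1 | ⟨j, l, h1, h2, h3⟩
        · exact Or.inl h1
        · refine Or.inr ⟨j, l, h1, h2, ?_⟩
          unfold mx
          rw [if_pos h1, if_pos h2]
          exact h3
      · have h6 : mx m (mx m t (t j1)) b = mx m t b := by
          funext j
          unfold mx
          split_ifs <;> rfl
        rw [h6, hC.pat t (t j1) (hlv j1 hj1') hokt t (fun _ _ => rfl) (hin j1 hj1') hb]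
        exact h

end rc

end Pool.Agent.W875.TS
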