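import Pool.Agent.W875.TS.FUN

set_option autoImplicit false

/-! Measurability of the class of presentations. -/

namespace Pool.Agent.W875.TS

open Set
open Pool.Agent.H899R2.VP hiding RS
open Pool.Agent.H533R2.VO (Glu Lev RS RIso VC Dich)

variable {A : ℕ → ℕ}

theorem co_O (n : ℕ) (t : Fin (bE A n) → ℕ) : Continuous fun O : RS (bE A) => O n t :=
  (continuous_apply t).comp (continuous_apply n)

theorem co_rd (i c : ℕ) (t : Fin (A i) → ℕ) : Continuous fun O : RS (bE A) => rd O i c t :=
  co_O (ix i c + 3) (fun j => t (Fin.cast (ix_ar i c) j))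

theorem co_oc {k : ℕ} (t : Fin k → ℕ) : Continuous fun O : RS (bE A) => oc O t := by
  have h1 : Continuous fun O : RS (bE A) => fun (j l : Fin k) => O 0 ![t j, t l] :=
    continuous_pi fun j => continuous_pi fun l => co_O 0 _
  exact (continuous_of_discreteTopology (f := fun w : Fin k → Fin k → Bool =>
    Nat.ofBits (fun j : Fin k => decide (∀ l, w j l = false)))).comp h1

theorem cont_Rc : Continuous (Rc : RS (bE A) → St (aD A)) := by
  refine Continuous.prodMk continuous_const ?_
  refine continuous_pi fun n => continuous_pi fun t => ?_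
  match n, t with
  | 0, t =>
    have h1 : Continuous fun O : RS (bE A) => (O 0 ![t 0, t 2], O 0 ![t 1, t 2],
        O 1 ![t 0, t 1], O 1 ![t 0, t 2], O 2 ![t 0, t 1, t 2]) :=
      (co_O 0 _).prodMk ((co_O 0 _).prodMk ((co_O 1 _).prodMk ((co_O 1 _).prodMk (co_O 2 _))))
    exact (continuous_of_discreteTopology (f := fun w : Bool × Bool × Bool × Bool × Bool =>
      (w.1 && w.2.1) || (w.2.2.1 && (!w.2.2.2.1 || w.2.2.2.2)))).comp h1
  | i + 1, t =>
    change Fin (A i) → ℕ at t
    show Continuous fun O : RS (bE A) =>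
      (if ∀ j l, O 1 ![t j, t l] = true then rd O i 0 t else
      decide (∃ j0 : Fin (A i), (oc O t).testBit j0 = true ∧
        rd O i (oc O t + 1) (mx (oc O t) t (t j0)) = true))
    have hfix : ∀ m : ℕ, Continuous fun O : RS (bE A) =>
      (if ∀ j l, O 1 ![t j, t l] = true then rd O i 0 t else
      decide (∃ j0 : Fin (A i), m.testBit j0 = true ∧
        rd O i (m + 1) (mx m t (t j0)) = true)) := by
      intro m
      have h1 : Continuous fun O : RS (bE A) => ((fun j l => O 1 ![t j, t l],
          rd O i 0 t, fun j0 => rd O i (m + 1) (mx m t (t j0))) :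
            (Fin (A i) → Fin (A i) → Bool) × Bool × (Fin (A i) → Bool)) :=
        (continuous_pi fun j => continuous_pi fun l => co_O 1 _).prodMk
          ((co_rd _ _ _).prodMk (continuous_pi fun j0 => co_rd _ _ _))
      exact (continuous_of_discreteTopology
        (f := fun w : (Fin (A i) → Fin (A i) → Bool) × Bool × (Fin (A i) → Bool) =>
          (if ∀ j l, w.1 j l = true then w.2.1 else
            decide (∃ j0 : Fin (A i), m.testBit j0 = true ∧ w.2.2 j0 = true)))).comp h1
    rw [continuous_iff_continuousAt]
    intro O0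
    have hopen : IsOpen {O : RS (bE A) | oc O t = oc O0 t} :=
      (isOpen_discrete {oc O0 t}).preimage (co_oc t)
    have hmem : O0 ∈ {O : RS (bE A) | oc O t = oc O0 t} := rfl
    refine (hfix (oc O0 t)).continuousAt.congr ?_
    filter_upwards [hopen.mem_nhds hmem] with O hO
    have hO' : oc O t = oc O0 t := hO
    rw [hO']

section meas

variable {X : Type} [MeasurableSpace X]

theorem me_eqc {g : X → Bool} (hg : Measurable g) (c : Bool) : Measurable fun N => g N = c :=
  measurableSet_setOfPred.1 (hg (measurableSet_singleton c))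

variable {R : X → St (aD A)} {B : X → ℕ → ℕ → Prop}

theorem me_R (hR : Measurable R) (i : ℕ) (t : Fin (aD A i) → ℕ) :
    Measurable fun N => (R N).2 i t := by
  have h1 : Measurable fun M : St (aD A) => M.2 i t :=
    (measurable_pi_apply t).comp ((measurable_pi_apply i).comp measurable_snd)
  exact h1.comp hR

theorem me_D (hR : Measurable R) (x y z : ℕ) : Measurable fun N => D (R N) x y z :=
  me_eqc (me_R hR 0 _) true

theorem me_rl (hR : Measurable R) (i : ℕ) (t : Fin (A i) → ℕ) :
    Measurable fun N => rl (R N) i t := me_R hR (i + 1) t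

theorem me_rlt (hR : Measurable R) (i : ℕ) (t : Fin (A i) → ℕ) :
    Measurable fun N => rl (R N) i t = true := me_eqc (me_rl hR i t) true

theorem me_Cs (hR : Measurable R) : Measurable fun N => Cs (R N) := by
  have h : (fun N => Cs (R N)) = fun N =>
      (∀ x y, (R N).1 x y = false) ∧ (∀ x z, x ≠ z → D (R N) x x z) ∧ (∀ x y, ¬ D (R N) x y x) ∧
      (∀ x y z, D (R N) x y z → D (R N) y x z) ∧ (∀ x y z, D (R N) x y z → ¬ D (R N) x z y) ∧
      (∀ x y z, D (R N) x y z → ∀ w, D (R N) x y w ∨ D (R N) w y z) ∧
      (∀ i (t : Fin (A i) → ℕ) (k l : Fin (A i)) (b : ℕ), D (R N) (t k) b (t l) →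
        rl (R N) i (Function.update t k b) = rl (R N) i t) := by
    funext N
    apply propext
    constructor
    · rintro ⟨h1, h2, h3, h4, h5, h6, h7⟩
      exact ⟨h1, h2, h3, h4, h5, h6, h7⟩
    · rintro ⟨h1, h2, h3, h4, h5, h6, h7⟩
      exact ⟨h1, h2, h3, h4, h5, h6, h7⟩
  rw [h]
  refine Measurable.and ?_ (Measurable.and ?_ (Measurable.and ?_ (Measurable.and ?_
    (Measurable.and ?_ (Measurable.and ?_ ?_)))))
  · refine Measurable.forall fun x => Measurable.forall fun y => me_eqc ?_ false
    have h1 : Measurable fun M : St (aD A) => M.1 x y :=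
      (measurable_pi_apply y).comp ((measurable_pi_apply x).comp measurable_fst)
    exact h1.comp hR
  · exact Measurable.forall fun x => Measurable.forall fun z =>
      Measurable.imp measurable_const (me_D hR _ _ _)
  · exact Measurable.forall fun x => Measurable.forall fun y => Measurable.not (me_D hR _ _ _)
  · exact Measurable.forall fun x => Measurable.forall fun y => Measurable.forall fun z =>
      Measurable.imp (me_D hR _ _ _) (me_D hR _ _ _)
  · exact Measurable.forall fun x => Measurable.forall fun y => Measurable.forall fun z =>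
      Measurable.imp (me_D hR _ _ _) (Measurable.not (me_D hR _ _ _))
  · exact Measurable.forall fun x => Measurable.forall fun y => Measurable.forall fun z =>
      Measurable.imp (me_D hR _ _ _) (Measurable.forall fun w =>
        Measurable.or (me_D hR _ _ _) (me_D hR _ _ _))
  · exact Measurable.forall fun i => Measurable.forall fun t => Measurable.forall fun k =>
      Measurable.forall fun l => Measurable.forall fun b => Measurable.imp (me_D hR _ _ _)
        (measurableSet_setOfPred.1 (measurableSet_eq_fun (me_rl hR i _) (me_rl hR i _)))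

theorem me_Ctr {S : Set (St (aD A) × Set ℕ)} (hR : Measurable R)
    (hS : ∀ x z, MeasurableSet {M : St (aD A) | (M, Cn M x z) ∈ S})
    (hB : ∀ x y, Measurable fun N => B N x y) : Measurable fun N => Ctr S (R N) (B N) := by
  have h : (fun N => Ctr S (R N) (B N)) = fun N =>
      Cs (R N) ∧ (∀ x y, B N x y → x ≠ y ∧ ∀ x', (B N x' y ↔ D (R N) x x' y)) ∧
      (∀ y y', (∃ x, B N x y) → (∃ x, B N x y') → ∃ x, B N x y ∧ B N x y') ∧
      (∀ v, (¬ ∃ x, B N x v) → ∀ y, y ≠ v → B N v y) ∧
      (∀ x y, B N x y → (R N, Cn (R N) y x) ∈ S) := by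
    funext N
    apply propext
    constructor
    · rintro ⟨h1, h2, h3, h4, h5⟩
      exact ⟨h1, h2, h3, h4, h5⟩
    · rintro ⟨h1, h2, h3, h4, h5⟩
      exact ⟨h1, h2, h3, h4, h5⟩
  rw [h]
  refine Measurable.and (me_Cs hR) (Measurable.and ?_ (Measurable.and ?_ (Measurable.and ?_ ?_)))
  · exact Measurable.forall fun x => Measurable.forall fun y => Measurable.imp (hB x y)
      (Measurable.and measurable_const (Measurable.forall fun x' =>
        Measurable.iff (hB _ _) (me_D hR _ _ _)))
  · exact Measurable.forall fun x => Measurable.forall fun y => Measurable.imp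
      (Measurable.exists fun _ => hB _ _) (Measurable.imp (Measurable.exists fun _ => hB _ _)
        (Measurable.exists fun _ => Measurable.and (hB _ _) (hB _ _)))
  · exact Measurable.forall fun v => Measurable.imp
      (Measurable.not (Measurable.exists fun _ => hB _ _))
      (Measurable.forall fun y => Measurable.imp measurable_const (hB _ _))
  · exact Measurable.forall fun x => Measurable.forall fun y => Measurable.imp (hB _ _)
      (measurableSet_setOfPred.1 (hR (hS y x)))

theorem me_Sm (hR : Measurable R) (hB : ∀ x y, Measurable fun N => B N x y) (x y : ℕ) :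
    Measurable fun N => Sm (R N) (B N) x y :=
  Measurable.or measurable_const (Measurable.exists fun b =>
    Measurable.and (hB _ _) (me_D hR _ _ _))

theorem me_Lv (hB : ∀ x y, Measurable fun N => B N x y) (x y : ℕ) :
    Measurable fun N => Lv (B N) x y :=
  Measurable.and (Measurable.not (hB _ _)) (Measurable.not (hB _ _))

theorem me_ObR (hR : Measurable R) (hB : ∀ x y, Measurable fun N => B N x y) (i c : ℕ)
    (t : Fin (A i) → ℕ) : Measurable fun N => ObR (R N) (B N) i c t := by
  cases c with
  | zero =>
    exact Measurable.and (Measurable.forall fun j => Measurable.forall fun l => me_Sm hR hB _ _)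
      (me_rlt hR i t)
  | succ m =>
    refine Measurable.and (Measurable.forall fun j => Measurable.forall fun l => me_Lv hB _ _)
      (Measurable.and (Measurable.or measurable_const ?_) ?_)
    · exact Measurable.exists fun j => Measurable.exists fun l => Measurable.and measurable_const
        (Measurable.and measurable_const (Measurable.not (me_Sm hR hB _ _)))
    · exact Measurable.exists fun b => Measurable.and
        (Measurable.forall fun j => hB _ _) (me_rlt hR i _)

end meas

theorem Ob_eq_iff (N : St (aD A)) (B : ℕ → ℕ → Prop) (O : RS (bE A)) : Ob N B = O ↔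
    (∀ x y, B x y ↔ O 0 ![x, y] = true) ∧ (∀ x y, Sm N B x y ↔ O 1 ![x, y] = true) ∧
    (∀ x y z, (Sm N B x y ∧ Sm N B x z ∧ D N x y z) ↔ O 2 ![x, y, z] = true) ∧
    (∀ i c (t : Fin (A i) → ℕ), ObR N B i c t ↔ rd O i c t = true) := by
  constructor
  · rintro rfl
    exact ⟨fun x y => (Ob_0 N B x y).symm, fun x y => (Ob_1 N B x y).symm,
      fun x y z => (Ob_2 N B x y z).symm, fun i c t => (rd_Ob N B i c t).symm⟩
  · rintro ⟨h1, h2, h3, h4⟩
    refine RS_ext ?_ ?_ ?_ ?_
    · intro x y
      rw [Bool.eq_iff_iff, Ob_0]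
      exact h1 x y
    · intro x y
      rw [Bool.eq_iff_iff, Ob_1]
      exact h2 x y
    · intro x y z
      rw [Bool.eq_iff_iff, Ob_2]
      exact h3 x y z
    · intro i c t
      rw [Bool.eq_iff_iff, rd_Ob]
      exact h4 i c t

theorem me_KP {S : Set (St (aD A) × Set ℕ)} {b : Bool} {K : Set (St (aD A))}
    (hK : MeasurableSet K) (hS : ∀ x z, MeasurableSet {M : St (aD A) | (M, Cn M x z) ∈ S}) :
    MeasurableSet {O : RS (bE A) | KP S b K O} := by
  have b2 : ∀ n : ℕ, BorelSpace ((Fin (bE A n) → ℕ) → Bool) := fun n => inferInstance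
  have s2 : ∀ n : ℕ, SecondCountableTopology ((Fin (bE A n) → ℕ) → Bool) := fun n => inferInstance
  have bo : BorelSpace (RS (bE A)) := Pi.borelSpace
  have hR : Measurable (Rc : RS (bE A) → St (aD A)) := cont_Rc.measurable
  have hO : ∀ n (t : Fin (bE A n) → ℕ), Measurable fun O : RS (bE A) => O n t = true :=
    fun n t => me_eqc (co_O n t).measurable true
  have hB : ∀ x y, Measurable fun O : RS (bE A) => Bo O x y := fun x y => hO 0 _
  have h : {O : RS (bE A) | KP S b K O} = {O | Rc O ∈ K ∧ Ctr S (Rc O) (Bo O) ∧
      (b = false → ∃ v, ∀ y, y ≠ v → Bo O v y) ∧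
      (b = true → ∀ x y, Bo O x y ↔ (x ≠ y ∧ (Rc O, Cn (Rc O) x y) ∉ S)) ∧
      ((∀ x y, Bo O x y ↔ O 0 ![x, y] = true) ∧ (∀ x y, Sm (Rc O) (Bo O) x y ↔
        O 1 ![x, y] = true) ∧
      (∀ x y z, (Sm (Rc O) (Bo O) x y ∧ Sm (Rc O) (Bo O) x z ∧ D (Rc O) x y z) ↔
        O 2 ![x, y, z] = true) ∧
      (∀ i c (t : Fin (A i) → ℕ), ObR (Rc O) (Bo O) i c t ↔ rd O i c t = true))} := by
    ext O
    show KP S b K O ↔ _
    constructor
    · rintro ⟨h1, h2, h3, h4, h5⟩
      exact ⟨h1, h2, h3, h4, (Ob_eq_iff _ _ _).1 h5⟩
    · rintro ⟨h1, h2, h3, h4, h5⟩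
      exact ⟨h1, h2, h3, h4, (Ob_eq_iff _ _ _).2 h5⟩
  rw [h]
  refine Measurable.setOf ?_
  refine Measurable.and (measurableSet_setOfPred.1 (hR hK)) (Measurable.and (me_Ctr hR hS hB)
    (Measurable.and ?_ (Measurable.and ?_ (Measurable.and ?_ (Measurable.and ?_
      (Measurable.and ?_ ?_))))))
  · exact Measurable.imp measurable_const (Measurable.exists fun v => Measurable.forall fun y =>
      Measurable.imp measurable_const (hB _ _))
  · exact Measurable.imp measurable_const (Measurable.forall fun x => Measurable.forall fun y =>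
      Measurable.iff (hB _ _) (Measurable.and measurable_const
        (Measurable.not (measurableSet_setOfPred.1 (hR (hS x y))))))
  · exact Measurable.forall fun x => Measurable.forall fun y => Measurable.iff (hB _ _) (hO 0 _)
  · exact Measurable.forall fun x => Measurable.forall fun y =>
      Measurable.iff (me_Sm hR hB _ _) (hO 1 _)
  · exact Measurable.forall fun x => Measurable.forall fun y => Measurable.forall fun z =>
      Measurable.iff (Measurable.and (me_Sm hR hB _ _) (Measurable.and (me_Sm hR hB _ _)
        (me_D hR _ _ _))) (hO 2 _)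
  · exact Measurable.forall fun i => Measurable.forall fun c => Measurable.forall fun t =>
      Measurable.iff (me_ObR hR hB _ _ _) (me_eqc (co_rd i c t).measurable true)

end Pool.Agent.W875.TS
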