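import Pool.Agent.W875.TS.MAINA
import Pool.Agent.W875.TS.MEA
import Pool.Agent.H899R2.VP.Borel

set_option autoImplicit false

/-! Vaught's conjecture for tree sums. -/

namespace Pool.Agent.W875.TS

open Set
open Pool.Agent.H899R2.VP hiding RS
open Pool.Agent.H533R2.VO (Glu Lev RS RIso VC Dich)
open Pool.Agent.H533R2.VS (IsSum IsOSum VCu US UIso UDich a1 a1_even a1_odd a1_even' a1_odd' evn odd
  cmb cmb_even cmb_odd cmb_evn cmb_odd_eq cmb_eta era)

/-- The tuple `(u, v, w)`. -/
def p3 {n : ℕ} (u v w : ℕ) : Fin n → ℕ :=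
  fun j => if j.val = 0 then u else if j.val = 1 then v else w

open Classical in
/-- Structures with a C-relation (number `δ`) whose cones are modules, with the infinite nodes in
`V`. -/
structure IsTree {a : ℕ → ℕ} (δ : ℕ) (V : RS a → Prop) (x : RS a) : Prop where
  refl : ∀ u w, u ≠ w → x δ (p3 u u w) = true
  irr : ∀ u v, x δ (p3 u v u) = false
  symm : ∀ u v w, x δ (p3 u v w) = true → x δ (p3 v u w) = true
  c2 : ∀ u v w, x δ (p3 u v w) = true → x δ (p3 u w v) = false
  c3 : ∀ u v w, x δ (p3 u v w) = true → ∀ z, x δ (p3 u v z) = true ∨ x δ (p3 z v w) = true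
  mod : ∀ i, i ≠ δ → ∀ (t : Fin (a i) → ℕ) (k l : Fin (a i)) (b : ℕ),
    x δ (p3 (t k) b (t l)) = true → x i (Function.update t k b) = x i t
  nodes : ∀ e : ℕ → ℕ, Function.Injective e →
    (∀ l m n, l ≠ m → l ≠ n → m ≠ n → x δ (p3 (e l) (e m) (e n)) = false) →
    (∀ u, x δ (p3 (e 0) (e 1) u) = false → ∃ n, ∀ m, m ≠ n → x δ (p3 u (e n) (e m)) = true) →
    V (fun i v => if i ≠ δ ∧ ∃ j l, v j ≠ v l then x i (e ∘ v) else false)

section tr

variable {a : ℕ → ℕ} {δ : ℕ}

/-- The relations of positive number. -/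
def tl (M : St (aD (a1 a))) : RS (a1 a) := fun i t => rl M i t

/-- The relation `δ` is the distinguished relation. -/
def phi3 (δ : ℕ) (y : US a) : St (aD (a1 a)) := (fun _ _ => false, fun n =>
  match n with
  | 0 => fun t => y.1 δ (p3 (t 0) (t 1) (t 2))
  | i + 1 => fun t => cmb (era δ y.1) y.2 i t)

/-- The inverse of `phi3`. -/
def psi3 (δ : ℕ) (hδ : a δ = 3) (M : St (aD (a1 a))) : US a :=
  (fun i t => if h : i = δ then
      M.2 0 ![t ⟨0, by rw [h, hδ]; omega⟩, t ⟨1, by rw [h, hδ]; omega⟩, t ⟨2, by rw [h, hδ]; omega⟩]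
    else evn (tl M) i t, odd (tl M))

theorem p3_eta (hδ : a δ = 3) (t : Fin (a δ) → ℕ) :
    p3 (t ⟨0, by rw [hδ]; omega⟩) (t ⟨1, by rw [hδ]; omega⟩) (t ⟨2, by rw [hδ]; omega⟩) = t := by
  funext j
  have hj : j.val < 3 := by
    have := j.isLt
    omega
  unfold p3
  by_cases h : j.val = 0
  · rw [if_pos h]
    congr 1
    apply Fin.ext
    exact h.symm
  · rw [if_neg h]
    by_cases h' : j.val = 1
    · rw [if_pos h']
      congr 1
      apply Fin.ext
      exact h'.symm
    · rw [if_neg h']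
      congr 1
      apply Fin.ext
      show 2 = j.val
      omega

theorem psi_phi (hδ : a δ = 3) (y : US a) : psi3 δ hδ (phi3 δ y) = y := by
  obtain ⟨x, U⟩ := y
  refine Prod.ext ?_ ?_
  · funext i t
    by_cases h : i = δ
    · subst h
      show (if h : i = i then _ else _) = _
      rw [dif_pos rfl]
      show x i (p3 _ _ _) = x i t
      have := p3_eta hδ t
      exact congrArg (x i) this
    · show (if h : i = δ then _ else _) = _
      rw [dif_neg h]
      show evn (cmb (era δ x) U) i t = x i t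
      rw [cmb_evn]
      unfold era
      rw [if_neg h]
  · exact cmb_odd_eq _ _

theorem phi_psi (hδ : a δ = 3) (M : St (aD (a1 a))) (h0 : ∀ u v, M.1 u v = false)
    (hM : ∀ t, tl M (2 * δ) t = false) : phi3 δ (psi3 δ hδ M) = M := by
  refine Prod.ext ?_ ?_
  · funext u v
    exact (h0 u v).symm
  · funext n
    match n with
    | 0 =>
      funext t
      show (if h : δ = δ then _ else _) = _
      rw [dif_pos rfl]
      have : (![t 0, t 1, t 2] : Fin 3 → ℕ) = t := (v3 t).symm
      show M.2 0 (![t 0, t 1, t 2] : Fin 3 → ℕ) = M.2 0 t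
      rw [this]
    | i + 1 =>
      show cmb (era δ (psi3 δ hδ M).1) (odd (tl M)) i = tl M i
      have h1 : era δ (psi3 δ hδ M).1 = evn (tl M) := by
        funext i t
        unfold era
        by_cases h : i = δ
        · subst h
          rw [if_pos rfl]
          exact (hM _).symm
        · rw [if_neg h]
          show (if h : i = δ then _ else _) = _
          rw [dif_neg h]
      rw [h1, cmb_eta]

theorem p3_comp {n : ℕ} (f : ℕ → ℕ) (u v w : ℕ) :
    (p3 (f u) (f v) (f w) : Fin n → ℕ) = f ∘ p3 u v w := by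
  funext j
  unfold p3
  show _ = f (if _ then _ else _)
  split_ifs <;> rfl

theorem phi_iso {y y' : US a} (h : UIso y y') : IsoOn (phi3 δ y) (phi3 δ y') univ univ ∅ := by
  obtain ⟨σ, h1, h2⟩ := h
  refine ⟨{w | w.2 = σ w.1}, empty_subset _, fun w _ => ⟨mem_univ _, mem_univ _⟩, ?_,
    fun x _ => ⟨σ x, rfl⟩, fun x _ => ⟨σ.symm x, (σ.apply_symm_apply x).symm⟩⟩
  refine PIso_mk ?_ ?_ ?_ ?_
  · intro u hu v hv
    rw [show u.2 = σ u.1 from hu, show v.2 = σ v.1 from hv]
    exact σ.injective.eq_iff.symm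
  · intro u _ v _
    rfl
  · intro u hu v hv w hw
    rw [show u.2 = σ u.1 from hu, show v.2 = σ v.1 from hv, show w.2 = σ w.1 from hw]
    show y.1 δ (p3 u.1 v.1 w.1) = true ↔ y'.1 δ (p3 (σ u.1) (σ v.1) (σ w.1)) = true
    rw [p3_comp, h1]
  · intro n t ht
    have e0 : (fun k => (t k).2) = ⇑σ ∘ fun k => (t k).1 := by
      funext k
      exact ht k
    rw [e0]
    show cmb (era δ y.1) y.2 n (fun k => (t k).1) = cmb (era δ y'.1) y'.2 n (⇑σ ∘ fun k => (t k).1)
    obtain ⟨i, hi | hi⟩ := Nat.even_or_odd' n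
    · subst hi
      rw [cmb_even, cmb_even]
      unfold era
      split_ifs with h
      · rfl
      · exact (h1 i _).symm
    · subst hi
      rw [cmb_odd, cmb_odd]
      exact (h2 i _).symm

theorem psi_iso (hδ : a δ = 3) {M N : St (aD (a1 a))} (h : IsoOn M N univ univ ∅) :
    UIso (psi3 δ hδ M) (psi3 δ hδ N) := by
  obtain ⟨σ, h1, -⟩ := exists_is h
  have h2 : ∀ i (t : Fin (a1 a i) → ℕ), tl N i (⇑σ ∘ t) = tl M i t := fun i t => h1.rl_comp i t
  refine ⟨σ, fun i t => ?_, fun i u => ?_⟩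
  · show (if h : i = δ then _ else _) = (if h : i = δ then _ else _)
    by_cases h : i = δ
    · rw [dif_pos h, dif_pos h]
      have h3 := h1.D_iff (t ⟨0, by rw [h, hδ]; omega⟩) (t ⟨1, by rw [h, hδ]; omega⟩)
        (t ⟨2, by rw [h, hδ]; omega⟩)
      unfold D at h3
      exact (Bool.eq_iff_iff.2 h3).symm
    · rw [dif_neg h, dif_neg h]
      exact h2 (2 * i) _
  · exact h2 (2 * i + 1) (fun _ => u)

theorem psi_cont (hδ : a δ = 3) : Continuous (psi3 δ hδ : St (aD (a1 a)) → US a) := by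
  refine Continuous.prodMk ?_ ?_
  · refine continuous_pi fun i => continuous_pi fun t => ?_
    by_cases h : i = δ
    · simp only [dif_pos h]
      exact (continuous_apply _).comp ((continuous_apply 0).comp continuous_snd)
    · simp only [dif_neg h]
      exact (continuous_apply _).comp ((continuous_apply (2 * i + 1)).comp continuous_snd)
  · refine continuous_pi fun i => continuous_pi fun u => ?_
    exact (continuous_apply _).comp ((continuous_apply (2 * i + 1 + 1)).comp continuous_snd)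

theorem update_cast {n m : ℕ} (h : m = n) (t : Fin n → ℕ) (k : Fin n) (b : ℕ) :
    (fun j : Fin m => Function.update t k b (Fin.cast h j)) =
      Function.update (fun j : Fin m => t (Fin.cast h j)) (Fin.cast h.symm k) b := by
  subst h
  rfl

theorem phi_cs {V : RS a → Prop} {y : US a} (h : IsTree δ V y.1) : Cs (phi3 δ y) := by
  have hD : ∀ u v w, D (phi3 δ y) u v w ↔ y.1 δ (p3 u v w) = true := fun u v w => Iff.rfl
  refine ⟨fun _ _ => rfl, h.refl, ?_, h.symm, ?_, h.c3, ?_⟩
  · intro u v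
    rw [hD, h.irr]
    exact Bool.false_ne_true
  · intro u v w h1
    rw [hD, h.c2 u v w h1]
    exact Bool.false_ne_true
  · intro n t k l b hb
    rw [hD] at hb
    show cmb (era δ y.1) y.2 n _ = cmb (era δ y.1) y.2 n t
    obtain ⟨i, hi | hi⟩ := Nat.even_or_odd' n
    · subst hi
      rw [cmb_even, cmb_even]
      unfold era
      by_cases hid : i = δ
      · rw [if_pos hid, if_pos hid]
      · rw [if_neg hid, if_neg hid, update_cast]
        exact h.mod i hid _ (Fin.cast (a1_even a i) k) (Fin.cast (a1_even a i) l) b hb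
    · subst hi
      have h1 := a1_odd a i
      have hj : k = l := by
        apply Fin.ext
        have := k.isLt
        have := l.isLt
        omega
      rw [hj, h.irr] at hb
      exact absurd hb Bool.false_ne_true

theorem phi_nv {V : RS a → Prop} {y : US a} (h : IsTree δ V y.1) :
    NV (fun R : RS (a1 a) => V (evn R) ∧ odd R = fun _ _ => false) (phi3 δ y) := by
  classical
  intro e he
  have hD : ∀ u v w, D (phi3 δ y) u v w ↔ y.1 δ (p3 u v w) = true := fun u v w => Iff.rfl
  have hD' : ∀ u v w, ¬ D (phi3 δ y) u v w ↔ y.1 δ (p3 u v w) = false := fun u v w => by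
    rw [hD, Bool.not_eq_true]
  have h1 := h.nodes e he.inj (fun l m n h1 h2 h3 => (hD' _ _ _).1 (he.star l m n h1 h2 h3))
    (fun u hu => he.full u ((hD' _ _ _).2 hu))
  constructor
  · have h2 : evn (Qt (phi3 δ y) e) =
        (fun i v => if i ≠ δ ∧ ∃ j l, v j ≠ v l then y.1 i (e ∘ v) else false) := by
      funext i v
      show (if ∃ j l, v (Fin.cast (a1_even a i) j) ≠ v (Fin.cast (a1_even a i) l) then
        cmb (era δ y.1) y.2 (2 * i) _ else false) = _
      rw [cmb_even]
      unfold era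
      have h3 : (∃ j l, v (Fin.cast (a1_even a i) j) ≠ v (Fin.cast (a1_even a i) l)) ↔
          ∃ j l, v j ≠ v l := by
        constructor
        · rintro ⟨j, l, h3⟩
          exact ⟨_, _, h3⟩
        · rintro ⟨j, l, h3⟩
          exact ⟨Fin.cast (a1_even a i).symm j, Fin.cast (a1_even a i).symm l, h3⟩
      by_cases hv : ∃ j l, v j ≠ v l
      · rw [if_pos (h3.2 hv)]
        by_cases hid : i = δ
        · rw [if_pos hid, if_neg (fun hh => hh.1 hid)]
        · rw [if_neg hid, if_pos ⟨hid, hv⟩]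
          rfl
      · rw [if_neg (fun hh => hv (h3.1 hh)), if_neg (fun hh => hv hh.2)]
    rw [h2]
    exact h1
  · funext i u
    show (if ∃ j l : Fin (a1 a (2 * i + 1)), u ≠ u then _ else false) = false
    rw [if_neg]
    rintro ⟨j, l, h3⟩
    exact h3 rfl

end tr

/-- Vaught's conjecture is preserved by tree sums. -/
theorem ts_tree : ∀ a : ℕ → ℕ, (∀ i, 0 < a i) → ∀ δ : ℕ, a δ = 3 → ∀ V : RS a → Prop, VCu V →
    VCu (IsTree δ V) := by
  intro a ha δ hδ V hV B hBm hBi hB
  obtain ⟨K, hK⟩ : ∃ K : Set (St (aD (a1 a))), K = {M | (∀ u v, M.1 u v = false) ∧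
    (∀ t, tl M (2 * δ) t = false) ∧ psi3 δ hδ M ∈ B} := ⟨_, rfl⟩
  have hmem : ∀ M, M ∈ K ↔ (∀ u v, M.1 u v = false) ∧
    (∀ t, tl M (2 * δ) t = false) ∧ psi3 δ hδ M ∈ B := fun M => by rw [hK]; rfl
  have hKm : MeasurableSet K := by
    rw [hK]
    refine Measurable.setOf ?_
    refine Measurable.and ?_ (Measurable.and ?_ ?_)
    · refine Measurable.forall fun x => Measurable.forall fun y => me_eqc ?_ false
      exact (measurable_pi_apply y).comp ((measurable_pi_apply x).comp measurable_fst)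
    · exact Measurable.forall fun t => me_eqc (me_rl measurable_id _ _) false
    · exact measurableSet_setOfPred.1 ((psi_cont hδ).measurable hBm)
  have hKinv : ∀ M ∈ K, ∀ N : St (aD (a1 a)), IsoOn M N univ univ ∅ → N ∈ K := by
    intro M hM N hMN
    rw [hmem] at hM ⊢
    obtain ⟨e, he, -⟩ := exists_is hMN
    refine ⟨?_, ?_, (hBi _ _ (psi_iso hδ hMN)).1 hM.2.2⟩
    · intro u v
      obtain ⟨u, rfl⟩ := e.surjective u
      obtain ⟨v, rfl⟩ := e.surjective v
      have h1 := he.2.1 (u, e u) (by rfl) (v, e v) (by rfl)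
      exact h1.symm.trans (hM.1 u v)
    · intro t
      have h1 : tl N (2 * δ) (⇑e ∘ (⇑e.symm ∘ t)) = tl M (2 * δ) (⇑e.symm ∘ t) :=
        he.rl_comp _ _
      have h2 : (⇑e ∘ (⇑e.symm ∘ t)) = t := by
        funext j
        simp
      rw [h2, hM.2.1] at h1
      exact h1
  have hphi : ∀ y ∈ B, phi3 δ y ∈ K := by
    intro y hy
    rw [hmem]
    refine ⟨fun _ _ => rfl, fun t => ?_, by rw [psi_phi hδ]; exact hy⟩
    show cmb (era δ y.1) y.2 (2 * δ) t = false
    rw [cmb_even]
    unfold era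
    rw [if_pos rfl]
  have heq : ∀ M ∈ K, ∃ y ∈ B, M = phi3 δ y := by
    intro M hM
    rw [hmem] at hM
    exact ⟨psi3 δ hδ M, hM.2.2, (phi_psi hδ M hM.1 hM.2.1).symm⟩
  by_cases hg : ∃ g : (ℕ → Bool) → St (aD (a1 a)), Continuous g ∧ (∀ c, g c ∈ K) ∧
      ∀ c d, IsoOn (g c) (g d) univ univ ∅ → c = d
  · right
    obtain ⟨g, g1, g2, g3⟩ := hg
    refine ⟨fun c => psi3 δ hδ (g c), (psi_cont hδ).comp g1, fun c => ((hmem _).1 (g2 c)).2.2,
      fun c d h => g3 c d ?_⟩
    have h1 := phi_iso (δ := δ) h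
    have h2 := (hmem _).1 (g2 c)
    have h3 := (hmem _).1 (g2 d)
    rw [phi_psi hδ _ h2.1 h2.2.1, phi_psi hδ _ h3.1 h3.2.1] at h1
    exact h1
  left
  obtain ⟨α₀, hα₀, hcl⟩ := closed_rank hKm hKinv
  have hω : Ordinal.omega0 < Ordinal.omega.{0} 1 := by
    rw [← Ordinal.omega_zero]; exact Ordinal.omega_lt_omega.2 one_pos
  have hpos : ∀ n, 0 < a1 a n := by
    intro n
    unfold a1
    split_ifs
    · exact ha _
    · exact one_pos
  have hG : GC (fun R : RS (a1 a) => V (evn R) ∧ odd R = fun _ _ => false)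
      (max α₀ Ordinal.omega0) K := by
    refine ⟨hpos, hKm, max_lt hα₀ hω, le_max_right _ _, ?_, ?_, ?_, hg⟩
    · exact fun M hM N hb => hcl M hM N (hb.mono (le_max_left _ _))
    · intro M hM
      obtain ⟨y, hy, rfl⟩ := heq M hM
      exact phi_cs (hB y hy)
    · intro M hM
      obtain ⟨y, hy, rfl⟩ := heq M hM
      exact phi_nv (hB y hy)
  have hV' : VCu (fun R : RS (a1 a) => V (evn R) ∧ odd R = fun _ _ => false) :=
    Pool.Agent.H533R2.VS.t_CL2 Pool.Agent.H533R2.VS.t_CMB a V hV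
  obtain ⟨f, hf⟩ := main3 _ hV' _ K hG
  refine ⟨fun n => psi3 δ hδ (f n), fun y hy => ?_⟩
  obtain ⟨n, hn⟩ := hf _ (hphi y hy)
  refine ⟨n, ?_⟩
  have h1 := psi_iso hδ hn
  rwa [psi_phi hδ] at h1

end Pool.Agent.W875.TS
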