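import Pool.Agent.W875.TS.OBS

set_option autoImplicit false

/-! Functoriality of the presentations. -/

namespace Pool.Agent.W875.TS

open Set
open Pool.Agent.H899R2.VP hiding RS
open Pool.Agent.H533R2.VO (Glu Lev RS RIso VC Dich)

variable {A : ℕ → ℕ}

/-- Relabelling. -/
def rlb (O : RS (bE A)) (f : ℕ → ℕ) : RS (bE A) := fun n v => O n (f ∘ v)

theorem comp_v2 (f : ℕ → ℕ) (x y : ℕ) : f ∘ (![x, y] : Fin 2 → ℕ) = ![f x, f y] := by
  funext k
  fin_cases k <;> rfl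

theorem comp_v3 (f : ℕ → ℕ) (x y z : ℕ) : f ∘ (![x, y, z] : Fin 3 → ℕ) = ![f x, f y, f z] := by
  funext k
  fin_cases k <;> rfl

theorem rlb_0 (O : RS (bE A)) (f : ℕ → ℕ) (x y : ℕ) : rlb O f 0 ![x, y] = O 0 ![f x, f y] := by
  show O 0 (f ∘ (![x, y] : Fin 2 → ℕ)) = _
  rw [comp_v2]

theorem rlb_1 (O : RS (bE A)) (f : ℕ → ℕ) (x y : ℕ) : rlb O f 1 ![x, y] = O 1 ![f x, f y] := by
  show O 1 (f ∘ (![x, y] : Fin 2 → ℕ)) = _
  rw [comp_v2]

theorem rlb_2 (O : RS (bE A)) (f : ℕ → ℕ) (x y z : ℕ) :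
    rlb O f 2 ![x, y, z] = O 2 ![f x, f y, f z] := by
  show O 2 (f ∘ (![x, y, z] : Fin 3 → ℕ)) = _
  rw [comp_v3]

theorem rd_rlb (O : RS (bE A)) (f : ℕ → ℕ) (i c : ℕ) (t : Fin (A i) → ℕ) :
    rd (rlb O f) i c t = rd O i c (f ∘ t) := rfl

theorem comp_mx {k : ℕ} (m : ℕ) (f : ℕ → ℕ) (t : Fin k → ℕ) (b : ℕ) :
    f ∘ mx m t b = mx m (f ∘ t) (f b) := by
  funext j
  unfold mx
  simp only [Function.comp_apply]
  split_ifs <;> rfl

theorem oc_rlb (O : RS (bE A)) (f : ℕ → ℕ) {k : ℕ} (t : Fin k → ℕ) :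
    oc (rlb O f) t = oc O (f ∘ t) := by
  unfold oc
  congr 1
  funext j
  congr 1
  simp only [rlb_0, Function.comp_apply]

/-- The structure of a relabelled presentation. -/
theorem Rc_rlb (O : RS (bE A)) (f : ℕ → ℕ) (n : ℕ) (t : Fin (aD A n) → ℕ) :
    (Rc (rlb O f)).2 n t = (Rc O).2 n (f ∘ t) := by
  match n, t with
  | 0, t =>
    show ((rlb O f 0 ![t 0, t 2] && rlb O f 0 ![t 1, t 2]) ||
      (rlb O f 1 ![t 0, t 1] && (!(rlb O f 1 ![t 0, t 2]) || rlb O f 2 ![t 0, t 1, t 2]))) =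
      ((O 0 ![f (t 0), f (t 2)] && O 0 ![f (t 1), f (t 2)]) ||
      (O 1 ![f (t 0), f (t 1)] && (!(O 1 ![f (t 0), f (t 2)]) || O 2 ![f (t 0), f (t 1), f (t 2)])))
    simp only [rlb_0, rlb_1, rlb_2]
  | i + 1, t =>
    change Fin (A i) → ℕ at t
    show (if ∀ j l, rlb O f 1 ![t j, t l] = true then rd (rlb O f) i 0 t else
      decide (∃ j0 : Fin (A i), (oc (rlb O f) t).testBit j0 = true ∧
        rd (rlb O f) i (oc (rlb O f) t + 1) (mx (oc (rlb O f) t) t (t j0)) = true)) =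
      (if ∀ j l, O 1 ![f (t j), f (t l)] = true then rd O i 0 (f ∘ t) else
      decide (∃ j0 : Fin (A i), (oc O (f ∘ t)).testBit j0 = true ∧
        rd O i (oc O (f ∘ t) + 1) (mx (oc O (f ∘ t)) (f ∘ t) (f (t j0))) = true))
    simp only [rlb_1, rd_rlb, oc_rlb, comp_mx]

theorem Is_Rc {O O' : RS (bE A)} {σ : Equiv.Perm ℕ}
    (h : ∀ (i : ℕ) (v : Fin (bE A i) → ℕ), O' i (⇑σ ∘ v) = O i v) : Is (Rc O) (Rc O') σ := by
  have hO : O = rlb O' σ := by
    funext i v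
    exact (h i v).symm
  subst hO
  refine ⟨?_, ?_, ?_⟩
  · intro u hu v hv
    rw [show u.2 = σ u.1 from hu, show v.2 = σ v.1 from hv]
    exact σ.injective.eq_iff.symm
  · intro u _ v _
    rfl
  · intro i t ht
    rw [Rc_rlb]
    have e0 : (⇑σ ∘ fun k => (t k).1) = fun k => (t k).2 := by
      funext k
      exact (show (t k).2 = σ (t k).1 from ht k).symm
    rw [e0]

section is

variable {N N' : St (aD A)} {e : Equiv.Perm ℕ} {B B' : ℕ → ℕ → Prop}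

theorem Is.rl_comp (h : Is N N' e) (i : ℕ) (t : Fin (A i) → ℕ) : rl N' i (e ∘ t) = rl N i t :=
  (PIso_rl h i (fun k => (t k, e (t k))) fun k => by rfl).symm

theorem Is.Cs' (h : Is N N' e) (hc : Cs N) : Cs N' := by
  have hs : ∀ x, ∃ x0, e x0 = x := fun x => e.surjective x
  refine ⟨?_, ?_, ?_, ?_, ?_, ?_, ?_⟩
  · intro x y
    obtain ⟨x, rfl⟩ := hs x
    obtain ⟨y, rfl⟩ := hs y
    have h1 := h.2.1 (x, e x) (by rfl) (y, e y) (by rfl)
    simp only at h1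
    rw [← h1]
    exact hc.flat x y
  · intro x z hxz
    obtain ⟨x, rfl⟩ := hs x
    obtain ⟨z, rfl⟩ := hs z
    exact (h.D_iff _ _ _).1 (hc.refl x z (fun hh => hxz (by rw [hh])))
  · intro x y
    obtain ⟨x, rfl⟩ := hs x
    obtain ⟨y, rfl⟩ := hs y
    exact fun hh => hc.irr x y ((h.D_iff _ _ _).2 hh)
  · intro x y z
    obtain ⟨x, rfl⟩ := hs x
    obtain ⟨y, rfl⟩ := hs y
    obtain ⟨z, rfl⟩ := hs z
    rw [← h.D_iff, ← h.D_iff]
    exact hc.symm x y z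
  · intro x y z
    obtain ⟨x, rfl⟩ := hs x
    obtain ⟨y, rfl⟩ := hs y
    obtain ⟨z, rfl⟩ := hs z
    rw [← h.D_iff, ← h.D_iff]
    exact hc.c2 x y z
  · intro x y z hD w
    obtain ⟨x, rfl⟩ := hs x
    obtain ⟨y, rfl⟩ := hs y
    obtain ⟨z, rfl⟩ := hs z
    obtain ⟨w, rfl⟩ := hs w
    rw [← h.D_iff] at hD
    rw [← h.D_iff, ← h.D_iff]
    exact hc.c3 x y z hD w
  · intro i t k l b hD
    obtain ⟨b, rfl⟩ := hs b
    have ht : t = e ∘ (e.symm ∘ t) := by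
      funext j
      simp
    rw [ht] at hD ⊢
    simp only [Function.comp_apply] at hD
    have h1 : Function.update (⇑e ∘ (⇑e.symm ∘ t)) k (e b) =
        e ∘ Function.update (⇑e.symm ∘ t) k b := by
      rw [Function.comp_update]
    rw [h1, h.rl_comp, h.rl_comp]
    exact hc.mod i _ k l b ((h.D_iff _ _ _).2 hD)

theorem Is.mem (h : Is N N' e) {S : Set (St (aD A) × Set ℕ)} (hS : CF S) (x y : ℕ) :
    (N, Cn N x y) ∈ S ↔ (N', Cn N' (e x) (e y)) ∈ S := by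
  have h1 := h.isoOn (Cn N x y)
  rw [h.image_Cn] at h1
  exact hS.iso' h1

theorem Is.ctr (h : Is N N' e) {S : Set (St (aD A) × Set ℕ)} (hS : CF S)
    (hB : ∀ x y, B x y ↔ B' (e x) (e y)) (hc : Ctr S N B) : Ctr S N' B' := by
  have hs : ∀ x, ∃ x0, e x0 = x := fun x => e.surjective x
  refine ⟨h.Cs' hc.cs, ?_, ?_, ?_, ?_⟩
  · intro x y hxy
    obtain ⟨x, rfl⟩ := hs x
    obtain ⟨y, rfl⟩ := hs y
    rw [← hB] at hxy
    obtain ⟨h1, h2⟩ := hc.cone x y hxy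
    refine ⟨e.injective.ne h1, ?_⟩
    intro x'
    obtain ⟨x', rfl⟩ := hs x'
    rw [← hB, ← h.D_iff]
    exact h2 x'
  · intro y y' h1 h2
    obtain ⟨y, rfl⟩ := hs y
    obtain ⟨y', rfl⟩ := hs y'
    obtain ⟨x, hx⟩ := h1
    obtain ⟨x', hx'⟩ := h2
    obtain ⟨x, rfl⟩ := hs x
    obtain ⟨x', rfl⟩ := hs x'
    obtain ⟨w, hw1, hw2⟩ := hc.cmp y y' ⟨x, (hB _ _).2 hx⟩ ⟨x', (hB _ _).2 hx'⟩
    exact ⟨e w, (hB _ _).1 hw1, (hB _ _).1 hw2⟩
  · intro w hw y hy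
    obtain ⟨w, rfl⟩ := hs w
    obtain ⟨y, rfl⟩ := hs y
    rw [← hB]
    refine hc.cen w ?_ y (fun hh => hy (by rw [hh]))
    rintro ⟨x, hx⟩
    exact hw ⟨e x, (hB _ _).1 hx⟩
  · intro x y hxy
    obtain ⟨x, rfl⟩ := hs x
    obtain ⟨y, rfl⟩ := hs y
    rw [← hB] at hxy
    exact (h.mem hS y x).1 (hc.thin x y hxy)

theorem Is.sm (h : Is N N' e) (hB : ∀ x y, B x y ↔ B' (e x) (e y)) (x y : ℕ) :
    Sm N B x y ↔ Sm N' B' (e x) (e y) := by
  unfold Sm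
  rw [e.injective.eq_iff]
  refine or_congr_right ⟨?_, ?_⟩
  · rintro ⟨b, h1, h2⟩
    exact ⟨e b, (hB _ _).1 h1, (h.D_iff _ _ _).1 h2⟩
  · rintro ⟨b, h1, h2⟩
    obtain ⟨b, rfl⟩ := e.surjective b
    exact ⟨b, (hB _ _).2 h1, (h.D_iff _ _ _).2 h2⟩

theorem lv_comp (hB : ∀ x y, B x y ↔ B' (e x) (e y)) (x y : ℕ) :
    Lv B x y ↔ Lv B' (e x) (e y) := by
  unfold Lv
  rw [← hB, ← hB]

theorem Is.ObR_iff (h : Is N N' e) (hB : ∀ x y, B x y ↔ B' (e x) (e y)) (i c : ℕ)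
    (t : Fin (A i) → ℕ) : ObR N B i c t ↔ ObR N' B' i c (e ∘ t) := by
  cases c with
  | zero =>
    show (_ ∧ _) ↔ (_ ∧ _)
    rw [h.rl_comp]
    refine and_congr_left fun _ => forall_congr' fun j => forall_congr' fun l => ?_
    exact h.sm hB _ _
  | succ m =>
    show (_ ∧ _ ∧ _) ↔ (_ ∧ _ ∧ _)
    refine and_congr ?_ (and_congr ?_ ?_)
    · exact forall_congr' fun j => forall_congr' fun l => lv_comp hB _ _
    · unfold okp
      refine or_congr_right ?_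
      refine exists_congr fun j => exists_congr fun l => ?_
      refine and_congr_right fun _ => and_congr_right fun _ => not_congr ?_
      exact h.sm hB _ _
    · constructor
      · rintro ⟨b, h1, h2⟩
        refine ⟨e b, fun j => (hB _ _).1 (h1 j), ?_⟩
        rw [← comp_mx, h.rl_comp]
        exact h2
      · rintro ⟨b, h1, h2⟩
        obtain ⟨b, rfl⟩ := e.surjective b
        refine ⟨b, fun j => (hB _ _).2 (h1 j), ?_⟩
        rw [← comp_mx, h.rl_comp] at h2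
        exact h2

/-- Functoriality of the presentation. -/
theorem Is.Ob_rlb (h : Is N N' e) (hB : ∀ x y, B x y ↔ B' (e x) (e y)) :
    rlb (Ob N' B') e = Ob N B := by
  refine RS_ext ?_ ?_ ?_ ?_
  · intro x y
    rw [rlb_0, Bool.eq_iff_iff, Ob_0, Ob_0]
    exact (hB x y).symm
  · intro x y
    rw [rlb_1, Bool.eq_iff_iff, Ob_1, Ob_1]
    exact (h.sm hB x y).symm
  · intro x y z
    rw [rlb_2, Bool.eq_iff_iff, Ob_2, Ob_2, ← h.sm hB, ← h.sm hB, ← h.D_iff]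
  · intro i c t
    rw [rd_rlb, Bool.eq_iff_iff, rd_Ob, rd_Ob]
    exact (h.ObR_iff hB i c t).symm

end is

/-- The order of the levels of a presentation. -/
def Bo (O : RS (bE A)) (x y : ℕ) : Prop := O 0 ![x, y] = true

theorem Bo_rlb (O : RS (bE A)) (f : ℕ → ℕ) (x y : ℕ) : Bo (rlb O f) x y ↔ Bo O (f x) (f y) := by
  unfold Bo
  rw [rlb_0]

theorem Bo_Ob (N : St (aD A)) (B : ℕ → ℕ → Prop) : Bo (Ob N B) = B := by
  funext x y
  exact propext (Ob_0 N B x y)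

/-- Presentations of members of `K`. -/
structure KP (S : Set (St (aD A) × Set ℕ)) (b : Bool) (K : Set (St (aD A))) (O : RS (bE A)) :
    Prop where
  mem : Rc O ∈ K
  ctr : Ctr S (Rc O) (Bo O)
  cf : b = false → ∃ v, ∀ y, y ≠ v → Bo O v y
  ct : b = true → ∀ x y, Bo O x y ↔ (x ≠ y ∧ (Rc O, Cn (Rc O) x y) ∉ S)
  ob : Ob (Rc O) (Bo O) = O

variable {S : Set (St (aD A) × Set ℕ)} {b : Bool} {K : Set (St (aD A))} {V : RS A → Prop}
  {α : Ordinal.{0}}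

/-- Invariance. -/
theorem KP.riso (hG : GC V α K) (hS : CF S) {O O' : RS (bE A)} (h : RIso O O')
    (hk : KP S b K O) : KP S b K O' := by
  obtain ⟨σ, h⟩ := h
  have hI : Is (Rc O) (Rc O') σ := Is_Rc h
  have hO : O = rlb O' σ := by
    funext i v
    exact (h i v).symm
  have hB : ∀ x y, Bo O x y ↔ Bo O' (σ x) (σ y) := by
    intro x y
    rw [hO, Bo_rlb]
  refine ⟨?_, hI.ctr hS hB hk.ctr, ?_, ?_, ?_⟩
  · have h1 := hI.isoOn univ
    rw [image_univ_of_surjective σ.surjective] at h1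
    exact hG.iso hk.mem h1
  · intro hb
    obtain ⟨v, hv⟩ := hk.cf hb
    refine ⟨σ v, fun y hy => ?_⟩
    obtain ⟨y, rfl⟩ := σ.surjective y
    rw [← hB]
    exact hv y fun hh => hy (by rw [hh])
  · intro hb x y
    obtain ⟨x, rfl⟩ := σ.surjective x
    obtain ⟨y, rfl⟩ := σ.surjective y
    rw [← hB, hk.ct hb, ← hI.mem hS, σ.injective.ne_iff]
  · have h1 := hI.Ob_rlb hB
    rw [hk.ob] at h1
    funext i v
    have h2 : rlb (Ob (Rc O') (Bo O')) σ i (⇑σ.symm ∘ v) = rlb O' σ i (⇑σ.symm ∘ v) := by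
      rw [h1, hO]
    have h3 : (⇑σ ∘ ⇑σ.symm ∘ v) = v := by
      funext j
      simp
    unfold rlb at h2
    rw [h3] at h2
    exact h2

/-- Members of `K` with a centre. -/
theorem KP_of (hG : GC V α K) {N : St (aD A)} (hN : N ∈ K) {v : ℕ} (hc : Ctr S N (Be S b N v)) :
    KP S b K (Ob N (Be S b N v)) ∧ Rc (Ob N (Be S b N v)) = N := by
  have h1 := Rc_Ob hG.pos hc
  refine ⟨⟨?_, ?_, ?_, ?_, ?_⟩, h1⟩
  · rw [h1]
    exact hN
  · rw [h1, Bo_Ob]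
    exact hc
  · intro hb
    subst hb
    refine ⟨v, fun y hy => ?_⟩
    rw [Bo_Ob]
    exact hc.cs.refl v y (Ne.symm hy)
  · intro hb x y
    subst hb
    rw [h1, Bo_Ob]
    exact Iff.rfl
  · rw [h1, Bo_Ob]

theorem KP.sum (hG : GC V α K) {O : RS (bE A)} (hk : KP S b K O) :
    Pool.Agent.H533R2.VS.IsOSum 0 (Pool.Agent.H533R2.VS.IsSum 1 kk (V1 V) (V2 S)) O := by
  have h1 := hk.ctr.sum (hG.nv _ hk.mem)
  rw [hk.ob] at h1
  exact h1

/-- The order is determined by a centre which is a point. -/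
theorem KP.Bo_iff {O : RS (bE A)} (hk : KP S b K O) {v : ℕ} (hv : ∀ y, y ≠ v → Bo O v y)
    (x y : ℕ) : Bo O x y ↔ D (Rc O) v x y := by
  have hC := hk.ctr
  by_cases hy : y = v
  · subst hy
    constructor
    · intro h1
      by_cases hx : x = y
      · subst hx
        exact absurd h1 hC.irr
      · exact absurd (hv x hx) (hC.asy h1)
    · intro h1
      exact absurd h1 (hC.cs.irr _ _)
  · exact (hC.cone v y (hv y hy)).2 x

/-- Isomorphisms of structures are isomorphisms of presentations. -/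
theorem KP.back {O O' : RS (bE A)} (hk : KP S b K O) (hk' : KP S b K O') {e : Equiv.Perm ℕ}
    (he : Is (Rc O) (Rc O') e) (hB : ∀ x y, Bo O x y ↔ Bo O' (e x) (e y)) : RIso O O' := by
  have h1 := he.Ob_rlb hB
  rw [hk.ob, hk'.ob] at h1
  exact ⟨e, fun i v => congrFun (congrFun h1 i) v⟩

end Pool.Agent.W875.TS
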