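import Pool.Agent.W875.TS.Spec
import Pool.Agent.H533R2.VO.PUT
import Pool.Agent.H533R2.VO.GLC
import Pool.Agent.H533R2.VO.MEAS1
import Pool.Agent.H899R2.VP.Few

set_option autoImplicit false

/-! KCONE: the class of variations of a cone. -/

namespace Pool.Agent.W875.TS

open Set

variable {A : ℕ → ℕ}
open Pool.Agent.H899R2.VP hiding RS
open Pool.Agent.H533R2.VO (Glu Lev RS bf_comp0 put lift t_PUT t_GLC t_MEAS1)

/-- The variation `N` of the cone `X`, put into `M` in place of `X`. -/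
noncomputable def ins (M : St (aD A)) (X : Set ℕ) (e : ℕ → ℕ) (N : St (aD A)) : St (aD A) :=
  Glu M (fun _ : Unit => X) (fun _ => put e N.2)

theorem eq_lift {N : St (aD A)} (h : ∀ x y, N.1 x y = false) : N = lift N.2 := by
  refine Prod.ext ?_ rfl
  funext x y
  exact h x y

theorem put_iso {N : St (aD A)} (h : ∀ x y, N.1 x y = false) {e : ℕ → ℕ}
    (he : Function.Injective e) {X : Set ℕ} (hr : range e = X) :
    IsoOn N (put e N.2) univ X {w | w.2 = e w.1} := by
  have h3 := (t_PUT (aD A) e he).2.1 N.2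
  rw [hr, ← eq_lift h] at h3
  exact h3

theorem exists_enum {X : Set ℕ} (hX : X.Infinite) :
    ∃ e : ℕ → ℕ, Function.Injective e ∧ range e = X := by
  have hX' : (Set.ofPred (· ∈ X)).Infinite := hX
  exact ⟨Nat.nth (· ∈ X), Nat.nth_injective hX', Nat.range_nth_of_infinite hX'⟩

/-- Facts on the replaced structure. -/
theorem ins_facts (h0 : S_CSBF A) (h1 : S_GLB3 A) (h2 : S_GLF3 A) {V : RS A → Prop}
    {α : Ordinal.{0}} {K : Set (St (aD A))} (hK : GC V α K) {M : St (aD A)} (hMK : M ∈ K)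
    {x z : ℕ} (hxz : x ≠ z) {e : ℕ → ℕ} (he : Function.Injective e) (hr : range e = Cn M x z)
    {N : St (aD A)} (hN : BF M N (Cn M x z) univ α ∅) :
    ins M (Cn M x z) e N ∈ K ∧ Cn (ins M (Cn M x z) e N) x z = Cn M x z ∧
      IsoOn N (ins M (Cn M x z) e N) univ (Cn M x z) {w | w.2 = e w.1} := by
  have hM : Cs M := hK.cs M hMK
  have hcs : Cs N := h0 α M N _ hK.om hM hN
  have hput := put_iso hcs.flat he hr
  have hdisj : ∀ i j : Unit, i ≠ j →
      Disjoint (Cn M ((fun _ : Unit => x) i) ((fun _ : Unit => z) i))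
        (Cn M ((fun _ : Unit => x) j) ((fun _ : Unit => z) j)) :=
    fun a b hab => absurd (Subsingleton.elim a b) hab
  have h3 := h1 hK.pos Unit α M (fun _ => x) (fun _ => z) (fun _ => put e N.2) hK.om hM hdisj (by
    intro _
    exact bf_comp0 hN ((hput.mono (empty_subset _)).bf α))
  have h4 := h2 hK.pos Unit M (fun _ => x) (fun _ => z) (fun _ => put e N.2) hM
    (fun _ => hxz) hdisj
  refine ⟨hK.closed M hMK _ h3, h4.1 (), ?_⟩
  refine (hput.trans (h4.2.1 ())).mono ?_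
  rintro ⟨u, v⟩ huv
  have huv' : v = e u := huv
  subst huv'
  exact ⟨e u, rfl, rfl, hr ▸ mem_range_self u⟩

/-- The nodes of a variation of a cone. -/
theorem ins_nv (h0 : S_CSBF A) (h1 : S_GLB3 A) (h2 : S_GLF3 A) {V : RS A → Prop}
    {α : Ordinal.{0}} {K : Set (St (aD A))} (hK : GC V α K) {M : St (aD A)} (hMK : M ∈ K)
    {x z : ℕ} (hxz : x ≠ z) (hinf : (Cn M x z).Infinite)
    {N : St (aD A)} (hN : BF M N (Cn M x z) univ α ∅) : NV V N := by
  intro E hE
  obtain ⟨e, he, hr⟩ := exists_enum hinf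
  obtain ⟨hG, hC, q, hq1, hq2, hq3, hq4, hq5⟩ := ins_facts h0 h1 h2 hK hMK hxz he hr hN
  have hq : ∀ u, (u, e u) ∈ q := fun u => hq1 (show (u, e u) ∈ {w : ℕ × ℕ | w.2 = e w.1} from rfl)
  have hD : ∀ u v w, D N u v w ↔ D (ins M (Cn M x z) e N) (e u) (e v) (e w) := fun u v w =>
    PIso_D hq3 (hq u) (hq v) (hq w)
  have hGcs := hK.cs _ hG
  have hNE : NE (ins M (Cn M x z) e N) (e ∘ E) := by
    refine ⟨he.comp hE.inj, fun l m n h3 h4 h5 h6 => hE.star l m n h3 h4 h5 ((hD _ _ _).2 h6),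
      fun u hu => ?_⟩
    by_cases huX : u ∈ Cn M x z
    · rw [← hr] at huX
      obtain ⟨w, rfl⟩ := huX
      obtain ⟨n, hn⟩ := hE.full w fun h3 => hu ((hD _ _ _).1 h3)
      exact ⟨n, fun m hm => (hD _ _ _).1 (hn m hm)⟩
    · exfalso
      apply hu
      have h3 : ∀ w, e w ∈ Cn (ins M (Cn M x z) e N) x z := by
        intro w
        rw [hC, ← hr]
        exact mem_range_self w
      rw [← hC] at huX
      exact hGcs.cin (h3 _) (h3 _) huX
  have h3 := hK.nv _ hG _ hNE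
  have h4 : Qt (ins M (Cn M x z) e N) (e ∘ E) = Qt N E := by
    funext i v
    unfold Qt
    split_ifs
    · exact (PIso_rl hq3 i (fun k => (E (v k), e (E (v k)))) fun k => hq _).symm
    · rfl
  rwa [h4] at h3

theorem t_KCONE (h0 : S_CSBF A) (h1 : S_GLB3 A) (h2 : S_GLF3 A) : S_KCONE A := by
  intro V α K hK M hM x z hxz hinf
  obtain ⟨e, he, hr⟩ := exists_enum hinf
  refine ⟨hK.pos, ?_, hK.lt, hK.om, ?_, ?_, ?_, ?_⟩
  · exact t_MEAS1 (aD A) M (Cn M x z) (fun _ => univ) (fun _ => by simp) α hK.lt ∅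
  · intro M' hM' N hN
    exact bf_comp0 hM' hN
  · intro N hN
    exact h0 α M N (Cn M x z) hK.om (hK.cs M hM) hN
  · intro N hN
    exact ins_nv h0 h1 h2 hK hM hxz hinf hN
  · rintro ⟨g, hg, hgK, hinj⟩
    refine few_base hK.meas hK.few (F := {x, z}) (Set.toFinite _)
      (fun c => ins M (Cn M x z) e (g c)) ?_
      (fun c => (ins_facts h0 h1 h2 hK hM hxz he hr (hgK c)).1) ?_
    · refine t_GLC (aD A) Unit M (fun _ => Cn M x z) (fun _ c => put e (g c).2)
        (fun a b hab => absurd (Subsingleton.elim a b) hab) (fun _ => ?_)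
      exact (t_PUT (aD A) e he).2.2.2.comp (continuous_snd.comp hg)
    · intro c d hcd
      obtain ⟨-, c2, c3⟩ := ins_facts h0 h1 h2 hK hM hxz he hr (hgK c)
      obtain ⟨-, d2, d3⟩ := ins_facts h0 h1 h2 hK hM hxz he hr (hgK d)
      have hxx : (x, x) ∈ idOn ({x, z} : Set ℕ) := ⟨rfl, Or.inl rfl⟩
      have hzz : (z, z) ∈ idOn ({x, z} : Set ℕ) := ⟨rfl, Or.inr rfl⟩
      have h3 := resIsoCn hxx hzz hcd
      rw [c2, d2, univ_inter] at h3
      have h5 := ((c3.trans h3).trans d3.symm)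
      exact hinj c d (h5.mono (empty_subset _))

end Pool.Agent.W875.TS
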