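import Pool.Agent.W875.TS.Defs

set_option autoImplicit false

/-! Basic lemmas. -/

namespace Pool.Agent.W875.TS

open Set
open Pool.Agent.H899R2.VP
open Pool.Agent.H533R2.VO (Glu Lev RS resBF resIso iso_refl0 iso_symm0 iso_trans0 bf_comp0 bf_symm0)

variable {A : ℕ → ℕ}


section cs

variable {M N : St (aD A)} {x y z u v w a b d x' z' : ℕ} {X Y : Set ℕ}

theorem Cs.ne (h : Cs M) (h1 : D M x y z) : x ≠ z := fun e => h.irr z y (e ▸ h1)

theorem Cs.ne' (h : Cs M) (h1 : D M x y z) : y ≠ z := h.ne (h.symm _ _ _ h1)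

theorem Cs.trans (h : Cs M) (h1 : D M x y z) (h2 : D M y w z) : D M x w z := by
  rcases h.c3 _ _ _ (h.symm _ _ _ h1) w with h3 | h3
  · rcases h.c3 _ _ _ h2 x with h4 | h4
    · exact absurd (h.symm _ _ _ h3) (fun h5 => h.c2 _ _ _ h4 (h.symm _ _ _ h5))
    · exact h4
  · exact h.symm _ _ _ h3

theorem mem_Cn : y ∈ Cn M x z ↔ D M x y z := Iff.rfl

theorem mem_Nd : z ∈ Nd M x y ↔ ¬ D M x y z := Iff.rfl

theorem Cs.self_mem (h : Cs M) (h1 : x ≠ z) : x ∈ Cn M x z := h.refl x z h1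

theorem Cs.not_mem (h : Cs M) : z ∉ Cn M x z := fun h1 => h.ne' h1 rfl

theorem Cs.Cn_eq (h : Cs M) (h1 : D M x y z) : Cn M x z = Cn M y z := by
  ext w
  exact ⟨fun h2 => h.trans (h.symm _ _ _ h1) h2, fun h2 => h.trans h1 h2⟩

/-- A3, first part. -/
theorem Cs.cin (h : Cs M) (ha : a ∈ Cn M x z) (hb : b ∈ Cn M x z) (hw : w ∉ Cn M x z) :
    D M a b w := by
  have h1 : D M a b z := h.trans (h.symm _ _ _ ha) hb
  rcases h.c3 _ _ _ h1 w with h2 | h2
  · exact h2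
  · exact absurd (h.trans hb (h.symm _ _ _ h2)) hw

/-- A3, second part. -/
theorem Cs.cout (h : Cs M) (ha : a ∈ Cn M x z) (hb : b ∈ Cn M x z) (hw : w ∉ Cn M x z) :
    ¬ D M a w b := h.c2 _ _ _ (h.cin ha hb hw)

theorem Cs.cout' (h : Cs M) (ha : a ∈ Cn M x z) (hb : b ∈ Cn M x z) (hw : w ∉ Cn M x z) :
    ¬ D M w a b := fun h1 => h.cout ha hb hw (h.symm _ _ _ h1)

/-- A3, third part. -/
theorem Cs.csw (h : Cs M) (ha : a ∈ Cn M x z) (hb : b ∈ Cn M x z) (hv : v ∉ Cn M x z) :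
    D M a w v ↔ D M b w v :=
  ⟨fun h1 => h.trans (h.cin hb ha hv) h1, fun h1 => h.trans (h.cin ha hb hv) h1⟩

/-- A3, fourth part. -/
theorem Cs.csw' (h : Cs M) (ha : a ∈ Cn M x z) (hb : b ∈ Cn M x z) (hv : v ∉ Cn M x z) : D M w v a ↔ D M w v b := by
  constructor
  · intro h1
    rcases h.c3 _ _ _ h1 b with h2 | h2
    · exact h2
    · exact absurd h2 (h.cout hb ha hv)
  · intro h1
    rcases h.c3 _ _ _ h1 a with h2 | h2
    · exact h2
    · exact absurd h2 (h.cout ha hb hv)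

/-- Laminarity of cones. -/
theorem Cs.lam (h : Cs M) : Cn M x z ⊆ Cn M x' z' ∨ Cn M x' z' ⊆ Cn M x z ∨
    Disjoint (Cn M x z) (Cn M x' z') := by
  by_contra hcon
  push Not at hcon
  obtain ⟨h1, h2, h3⟩ := hcon
  obtain ⟨b, hb, hb'⟩ := not_subset.1 h1
  obtain ⟨c, hc, hc'⟩ := not_subset.1 h2
  obtain ⟨a, ha, ha'⟩ := Set.not_disjoint_iff.1 h3
  exact h.c2 _ _ _ (h.cin ha hb hc') (h.cin ha' hc hb')

theorem Cs.csub (h : Cs M) (hx : x' ∈ Cn M x z) (hz : z' ∈ Cn M x z) :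
    Cn M x' z' ⊆ Cn M x z := by
  intro y hy
  by_contra hy'
  exact h.cout hx hz hy' hy

theorem Cs.cmax (h : Cs M) (ha : a ∈ Cn M x z) (hw : w ∉ Cn M x z) : Cn M x z ⊆ Cn M a w :=
  fun _ hb => h.cin ha hb hw

theorem Cs.nself (h : Cs M) : x ∈ Nd M x y := h.irr x y

theorem Cs.nself' (h : Cs M) : y ∈ Nd M x y := fun h1 => h.irr y x (h.symm _ _ _ h1)

theorem Cs.nsub (h : Cs M) (hu : u ∈ Nd M x y) (hv : v ∈ Nd M x y) : Nd M u v ⊆ Nd M x y := by
  intro w hw h1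
  apply hw
  have h2 : D M u y w := by
    rcases h.c3 _ _ _ h1 u with h2 | h2
    · exact absurd h2 hu
    · exact h2
  have h3 : D M v y w := by
    rcases h.c3 _ _ _ h1 v with h3 | h3
    · exact absurd h3 hv
    · exact h3
  exact h.trans h2 (h.symm _ _ _ h3)

theorem Cs.neq (h : Cs M) (h1 : D M v d x) : Nd M x v = Nd M x d := by
  have key : ∀ v d, D M v d x → Nd M x v ⊆ Nd M x d := by
    intro v d h1 w hw h2
    apply hw
    rcases h.c3 _ _ _ h2 v with h3 | h3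
    · exact absurd (h.symm _ _ _ h3) (h.c2 _ _ _ (h.symm _ _ _ h1))
    · exact h.trans h2 (h.symm _ _ _ h3)
  exact Subset.antisymm (key _ _ h1) (key _ _ (h.symm _ _ _ h1))

/-- The cone at `x` away from `v` or from `d`. -/
theorem Cs.ceq (h : Cs M) (h1 : D M v d x) : Cn M x v = Cn M x d := by
  have key : ∀ v d, D M v d x → Cn M x v ⊆ Cn M x d := by
    intro v d h1 w hw
    rcases h.c3 _ _ _ hw d with h3 | h3
    · exact h3
    · exact absurd (h.symm _ _ _ h1) (h.c2 _ _ _ (h.trans h3 (h.symm _ _ _ hw)))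
  exact Subset.antisymm (key _ _ h1) (key _ _ (h.symm _ _ _ h1))

/-- A cone and a node which meet are comparable. -/
theorem Cs.cnode (h : Cs M) (ha : a ∈ Cn M x z) (ha' : a ∈ Nd M u v)
    (hn : ¬ Nd M u v ⊆ Cn M x z) : Cn M x z ⊆ Nd M u v := by
  obtain ⟨b, hb, hb'⟩ := not_subset.1 hn
  intro c hc hcn
  have key : ∀ s, s ∈ Nd M u v → D M s v c := by
    intro s hs
    rcases h.c3 _ _ _ hcn s with h1 | h1
    · exact absurd h1 hs
    · exact h1
  exact h.cout ha hc hb' (h.trans (key a ha') (h.symm _ _ _ (key b hb)))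

end cs

section bf

variable {M N K : St (aD A)} {X Y : Set ℕ} {p : Set (ℕ × ℕ)} {o : Ordinal.{0}}

/-- `D` is preserved by partial isomorphisms. -/
theorem PIso_D (h : PIso M N p) {x y z x' y' z' : ℕ} (hx : (x, x') ∈ p) (hy : (y, y') ∈ p)
    (hz : (z, z') ∈ p) : D M x y z ↔ D N x' y' z' := by
  have h1 := h.2.2 0 ![(x, x'), (y, y'), (z, z')] (by
    intro k
    fin_cases k <;> assumption)
  have e1 : (fun k => (![(x, x'), (y, y'), (z, z')] k).1) = ![x, y, z] := by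
    funext k
    fin_cases k <;> rfl
  have e2 : (fun k => (![(x, x'), (y, y'), (z, z')] k).2) = ![x', y', z'] := by
    funext k
    fin_cases k <;> rfl
  unfold D
  rw [← e1, ← e2]
  exact iff_of_eq (congrArg (· = true) h1)

/-- The relations are preserved by partial isomorphisms. -/
theorem PIso_rl (h : PIso M N p) (i : ℕ) (t : Fin (A i) → ℕ × ℕ) (ht : ∀ k, t k ∈ p) :
    rl M i (fun k => (t k).1) = rl N i (fun k => (t k).2) := h.2.2 (i + 1) t ht

/-- Characterisation of partial isomorphisms. -/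
theorem PIso_mk (h0 : ∀ u ∈ p, ∀ v ∈ p, (u.1 = v.1 ↔ u.2 = v.2))
    (h1 : ∀ u ∈ p, ∀ v ∈ p, M.1 u.1 v.1 = N.1 u.2 v.2)
    (h2 : ∀ u ∈ p, ∀ v ∈ p, ∀ w ∈ p, (D M u.1 v.1 w.1 ↔ D N u.2 v.2 w.2))
    (h3 : ∀ i, ∀ t : Fin (A i) → ℕ × ℕ, (∀ k, t k ∈ p) →
      rl M i (fun k => (t k).1) = rl N i (fun k => (t k).2)) : PIso M N p := by
  refine ⟨h0, h1, fun i t ht => ?_⟩
  match i, t, ht with
  | 0, t, ht =>
    have h4 := h2 (t 0) (ht 0) (t 1) (ht 1) (t 2) (ht 2)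
    unfold D at h4
    have e1 : (fun k => (t k).1) = ![(t 0).1, (t 1).1, (t 2).1] := by
      funext k
      fin_cases k <;> rfl
    have e2 : (fun k => (t k).2) = ![(t 0).2, (t 1).2, (t 2).2] := by
      funext k
      fin_cases k <;> rfl
    rw [e1, e2]
    exact Bool.eq_iff_iff.2 h4
  | i + 1, t, ht => exact h3 i t ht

/-- Restriction to cones. -/
theorem resCn {x z x' z' : ℕ} (hx : (x, x') ∈ p) (hz : (z, z') ∈ p) (hb : BF M N X Y o p) :
    BF M N (X ∩ Cn M x z) (Y ∩ Cn N x' z') o p := by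
  refine resBF inter_subset_left inter_subset_left (fun u hu v hv hp => ?_) hb
  have h1 := PIso_D hp (mem_insert_of_mem _ hx) (mem_insert (u, v) _) (mem_insert_of_mem _ hz)
  exact ⟨fun h => ⟨hv, h1.1 h.2⟩, fun h => ⟨hu, h1.2 h.2⟩⟩

theorem resIsoCn {x z x' z' : ℕ} (hx : (x, x') ∈ p) (hz : (z, z') ∈ p)
    (hb : IsoOn M N X Y p) : IsoOn M N (X ∩ Cn M x z) (Y ∩ Cn N x' z')
      {u | u ∈ p ∧ u.1 ∈ X ∩ Cn M x z} := by
  refine resIso (X' := X ∩ Cn M x z) (Y' := Y ∩ Cn N x' z') inter_subset_left inter_subset_left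
    (fun u hu v hv hp => ?_) hb
  have h1 := PIso_D hp (mem_insert_of_mem _ hx) (mem_insert (u, v) _) (mem_insert_of_mem _ hz)
  exact ⟨fun h => ⟨hv, h1.1 h.2⟩, fun h => ⟨hu, h1.2 h.2⟩⟩

theorem resCn0 {x z x' z' : ℕ} (hx : (x, x') ∈ p) (hz : (z, z') ∈ p)
    (hb : BF M N univ univ o p) : BF M N (Cn M x z) (Cn N x' z') o ∅ := by
  have h := resCn hx hz hb
  rw [univ_inter, univ_inter] at h
  exact h.subset (empty_subset _)

end bf

section is

variable {M N : St (aD A)} {e : Equiv.Perm ℕ}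

theorem Is.D_iff (h : Is M N e) (x y z : ℕ) : D M x y z ↔ D N (e x) (e y) (e z) :=
  PIso_D h (by rfl) (by rfl) (by rfl)

theorem Is.symm (h : Is M N e) : Is N M e.symm := by
  have h1 := PIso.symm h
  have : inv {w : ℕ × ℕ | w.2 = e w.1} = {w | w.2 = e.symm w.1} := by
    ext ⟨u, v⟩
    simp only [inv, Set.mem_ofPred_eq]
    exact ⟨fun h2 => by rw [h2, Equiv.symm_apply_apply], fun h2 => by
      rw [h2, Equiv.apply_symm_apply]⟩
  unfold Is
  rw [← this]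
  exact h1

theorem Is.image_Cn (h : Is M N e) (x z : ℕ) : e '' Cn M x z = Cn N (e x) (e z) := by
  ext w
  constructor
  · rintro ⟨y, hy, rfl⟩
    exact (h.D_iff _ _ _).1 hy
  · intro hw
    refine ⟨e.symm w, ?_, e.apply_symm_apply w⟩
    apply (h.D_iff _ _ _).2
    rw [e.apply_symm_apply]
    exact hw

theorem Is.image_Nd (h : Is M N e) (x y : ℕ) : e '' Nd M x y = Nd N (e x) (e y) := by
  ext w
  constructor
  · rintro ⟨z, hz, rfl⟩
    exact fun h1 => hz ((h.D_iff _ _ _).2 h1)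
  · intro hw
    refine ⟨e.symm w, ?_, e.apply_symm_apply w⟩
    intro h1
    apply hw
    have := (h.D_iff _ _ _).1 h1
    rwa [e.apply_symm_apply] at this

theorem Is.isoOn (h : Is M N e) (X : Set ℕ) : IsoOn M N X (e '' X) ∅ := by
  refine ⟨{w | w.2 = e w.1 ∧ w.1 ∈ X}, empty_subset _, ?_, PIso.mono h fun w hw => hw.1, ?_, ?_⟩
  · rintro ⟨u, v⟩ ⟨h1, h2⟩
    simp only at h1 h2
    subst h1
    exact ⟨h2, mem_image_of_mem e h2⟩
  · intro x hx
    exact ⟨e x, rfl, hx⟩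
  · rintro y ⟨x, hx, rfl⟩
    exact ⟨x, rfl, hx⟩

theorem exists_is {p : Set (ℕ × ℕ)} (h : IsoOn M N univ univ p) :
    ∃ e : Equiv.Perm ℕ, Is M N e ∧ ∀ u ∈ p, u.2 = e u.1 := by
  obtain ⟨q, hpq, -, h3, h4, h5⟩ := h
  choose f hf using fun x => h4 x (mem_univ x)
  choose g hg using fun x => h5 x (mem_univ x)
  have hq : ∀ x y, (x, y) ∈ q ↔ y = f x := by
    intro x y
    constructor
    · intro h
      exact h3.snd_eq h (hf x) rfl
    · rintro rfl
      exact hf x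
  refine ⟨⟨f, g, fun x => h3.fst_eq (hg (f x)) (hf x) rfl, fun y => ?_⟩, ?_, ?_⟩
  · exact ((hq _ _).1 (hg y)).symm
  · refine PIso.mono h3 ?_
    rintro ⟨x, y⟩ hxy
    exact (hq x y).2 hxy
  · rintro ⟨x, y⟩ hu
    exact (hq x y).1 (hpq hu)

end is

section families

variable {S : Set (St (aD A) × Set ℕ)}

theorem CF.iso' (h : CF S) {M N : St (aD A)} {X Y : Set ℕ} (hi : IsoOn M N X Y ∅) :
    (M, X) ∈ S ↔ (N, Y) ∈ S :=
  ⟨fun h1 => h.iso _ _ _ _ h1 hi, fun h1 => h.iso _ _ _ _ h1 (iso_symm0 hi)⟩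

theorem CF.enu (h : CF S) : ∃ f : ℕ → St (aD A) × Set ℕ, Enu S f := by
  obtain ⟨f, hf⟩ := h.cnt
  refine ⟨f, fun M X hMX => ?_⟩
  obtain ⟨n, hn⟩ := hf M X hMX
  exact ⟨n, (h.iso' hn).2 hMX, hn⟩

theorem CF.sub' (h : CF S) {M : St (aD A)} (hM : Cs M) {x z x' z' : ℕ} (h1 : (M, Cn M x z) ∈ S)
    (hx : x' ∈ Cn M x z) (hz : z' ∈ Cn M x z) : (M, Cn M x' z') ∈ S := by
  have h2 := h.sub M _ h1 x' hx z' hz
  rwa [inter_eq_self_of_subset_right (hM.csub hx hz)] at h2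

end families

section gc

variable {V : RS A → Prop} {α : Ordinal.{0}} {K : Set (St (aD A))}

theorem GC.iso (h : GC V α K) {M N : St (aD A)} (hM : M ∈ K) (hi : IsoOn M N univ univ ∅) :
    N ∈ K :=
  h.closed M hM N (hi.bf α)

end gc

end Pool.Agent.W875.TS
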