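import Pool.Agent.W875.TS.All1
import Pool.Agent.W875.TS.CT

set_option autoImplicit false

/-! Assembly of the main argument. -/

namespace Pool.Agent.W875.TS

open Pool.Agent.H899R2.VP hiding RS
open Pool.Agent.H533R2.VO (Glu Lev RS RIso VC Dich)
open Pool.Agent.H533R2.VS (IsSum IsOSum VCu)

variable {A : ℕ → ℕ}

theorem main3 : S_MAIN3 A := by
  have glb : S_GLB3 A := t_GLB3 t_MIX
  have kcone := t_KCONE t_CSBF glb t_GLF3
  have fill : S_FILL3 A := t_FILL3 t_TRP3
  have sq := t_SEQ3 fill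
  have dsf := t_DSF glb t_GLF3 t_CSBF
  have stg := t_STG dsf t_CBF
  have da := t_DA dsf stg
  have db := t_DB dsf stg t_CBF
  have dc := t_DC dsf da db t_CBF
  have dd := t_DD dsf dc stg
  have code := t_CODE3 sq dsf dd
  have ct : S_CT A := t_CT t_LEV3 t_MS
  have finc : S_FINC A := t_FINC t_LAB3
  have infc := t_INFC kcone ct t_CTF t_CTT
  have sim := t_SIM3 t_LAB3 t_GENC t_GENUC finc infc t_TRX
  have cnt := t_CNT3 sim t_GENUC
  have base : S_BASE3 A := t_BASE3 t_LAB3 t_GENC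
  exact t_MAIN3 base t_LEV3 t_MS t_MSC t_BL3 t_COMB code cnt ct t_CTF

end Pool.Agent.W875.TS
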