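import Pool.Agent.W875.TS.FIN
import Pool.Agent.H533R2.VS.Spec4

set_option autoImplicit false

/-! Modules of structures. -/

namespace Pool.Agent.W875.TS

open Set
open Pool.Agent.H533R2.VO (RS RIso VC Dich)

variable {a : ℕ → ℕ} {x : RS a} {X Y : Set ℕ}

/-- Modules. -/
def Mdl (x : RS a) (X : Set ℕ) : Prop := ∀ (i : ℕ) (t : Fin (a i) → ℕ) (k l : Fin (a i)) (b : ℕ),
  t k ∈ X → b ∈ X → t l ∉ X → x i (Function.update t k b) = x i t

theorem Mdl.multi (hX : Mdl x X) {i : ℕ} (s s' : Fin (a i) → ℕ)
    (h : ∀ j, s j = s' j ∨ (s j ∈ X ∧ s' j ∈ X)) (l : Fin (a i)) (hl : s l ∉ X) :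
    x i s' = x i s := by
  classical
  have hl' : s' l = s l := by
    rcases h l with h1 | h1
    · exact h1.symm
    · exact absurd h1.1 hl
  have key : ∀ F : Finset (Fin (a i)),
      x i (fun k => if k ∈ F then s' k else s k) = x i s := by
    intro F
    induction F using Finset.induction_on with
    | empty => simp
    | insert k F hk ih =>
      have e1 : (fun j => if j ∈ insert k F then s' j else s j) =
          Function.update (fun j => if j ∈ F then s' j else s j) k (s' k) := by
        funext j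
        by_cases hj : j = k
        · subst hj
          simp
        · rw [Function.update_of_ne hj]
          simp [hj]
      rw [e1, ← ih]
      rcases h k with h1 | h1
      · have e2 : Function.update (fun j => if j ∈ F then s' j else s j) k (s' k) =
            (fun j => if j ∈ F then s' j else s j) := by
          rw [Function.update_eq_self_iff]
          simp [hk, h1]
        rw [e2]
      · refine hX i _ k l (s' k) ?_ h1.2 ?_
        · simp only [hk, if_false]
          exact h1.1
        · show (if l ∈ F then s' l else s l) ∉ X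
          split_ifs
          · rw [hl']
            exact hl
          · exact hl
  have h1 := key Finset.univ
  simp only [Finset.mem_univ, if_true] at h1
  exact h1

theorem Mdl.union (hX : Mdl x X) (hY : Mdl x Y) {w : ℕ} (h1 : w ∈ X) (h2 : w ∈ Y) :
    Mdl x (X ∪ Y) := by
  intro i t k l b hk hb hl
  have hlX : t l ∉ X := fun h => hl (Or.inl h)
  have hlY : t l ∉ Y := fun h => hl (Or.inr h)
  have hkl : l ≠ k := fun h => hl (h ▸ hk)
  have hu : ∀ c, Function.update t k c l = t l := fun c => Function.update_of_ne hkl _ _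
  have key : ∀ Z Z' : Set ℕ, Mdl x Z → Mdl x Z' → w ∈ Z → w ∈ Z' → t l ∉ Z → t l ∉ Z' →
      t k ∈ Z → b ∈ Z' → x i (Function.update t k b) = x i t := by
    intro Z Z' hZ hZ' hw hw' h3 h4 h5 h6
    have e1 := hZ i t k l w h5 hw h3
    have e2 := hZ' i (Function.update t k w) k l b (by rw [Function.update_self]; exact hw') h6
      (by rw [hu]; exact h4)
    rw [Function.update_idem] at e2
    exact e2.trans e1
  rcases hk with hk | hk
  · rcases hb with hb | hb
    · exact hX i t k l b hk hb hlX
    · exact key X Y hX hY h1 h2 hlX hlY hk hb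
  · rcases hb with hb | hb
    · exact key Y X hY hX h2 h1 hlY hlX hk hb
    · exact hY i t k l b hk hb hlY

theorem Mdl.diff (hX : Mdl x X) (hY : Mdl x Y) {w y : ℕ} (h1 : w ∈ X) (h2 : w ∈ Y) (h3 : y ∈ Y)
    (h4 : y ∉ X) : Mdl x (X \ Y) := by
  classical
  intro i t k l b hk hb hl
  by_cases hex : ∃ l', t l' ∉ X
  · obtain ⟨l', hl'⟩ := hex
    exact hX i t k l' b hk.1 hb.1 hl'
  push Not at hex
  have hlY : t l ∈ Y := by
    by_contra h
    exact hl ⟨hex l, h⟩
  have e1 : x i (fun j => if t j ∈ Y then y else t j) = x i t := by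
    refine hY.multi t _ (fun j => ?_) k hk.2
    by_cases hj : t j ∈ Y
    · right
      simp only [hj, if_true]
      exact ⟨trivial, h3⟩
    · left
      simp only [hj, if_false]
  have e2 : x i (fun j => if Function.update t k b j ∈ Y then y else Function.update t k b j) =
      x i (Function.update t k b) := by
    refine hY.multi _ _ (fun j => ?_) k (by rw [Function.update_self]; exact hb.2)
    by_cases hj : Function.update t k b j ∈ Y
    · right
      simp only [hj, if_true]
      exact ⟨trivial, h3⟩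
    · left
      simp only [hj, if_false]
  have e3 : (fun j => if Function.update t k b j ∈ Y then y else Function.update t k b j) =
      Function.update (fun j => if t j ∈ Y then y else t j) k b := by
    funext j
    by_cases hj : j = k
    · subst hj
      simp only [Function.update_self]
      rw [if_neg hb.2]
    · simp only [Function.update_of_ne hj]
  rw [← e2, ← e1, e3]
  refine hX i _ k l b ?_ hb.1 ?_
  · show (if t k ∈ Y then y else t k) ∈ X
    rw [if_neg hk.2]
    exact hk.1
  · show (if t l ∈ Y then y else t l) ∉ X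
    rw [if_pos hlY]
    exact h4

/-- The least module containing `u` and `v`. -/
def ml (x : RS a) (u v : ℕ) : Set ℕ := {w | ∀ X, Mdl x X → u ∈ X → v ∈ X → w ∈ X}

theorem ml_left (u v : ℕ) : u ∈ ml x u v := fun _ _ h _ => h

theorem ml_right (u v : ℕ) : v ∈ ml x u v := fun _ _ _ h => h

theorem ml_mdl (u v : ℕ) : Mdl x (ml x u v) := by
  intro i t k l b hk hb hl
  have h1 : ∃ X, Mdl x X ∧ u ∈ X ∧ v ∈ X ∧ t l ∉ X := by
    by_contra hcon
    apply hl
    intro X hX h2 h3
    by_contra h4
    exact hcon ⟨X, hX, h2, h3, h4⟩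
  obtain ⟨X, hX, h2, h3, h4⟩ := h1
  exact hX i t k l b (hk X hX h2 h3) (hb X hX h2 h3) h4

theorem ml_sub {u v : ℕ} (hX : Mdl x X) (hu : u ∈ X) (hv : v ∈ X) : ml x u v ⊆ X :=
  fun _ hw => hw X hX hu hv

theorem ml_comm (u v : ℕ) : ml x u v = ml x v u := by
  apply Subset.antisymm
  · exact ml_sub (ml_mdl v u) (ml_right v u) (ml_left v u)
  · exact ml_sub (ml_mdl u v) (ml_right u v) (ml_left u v)

theorem ml_self (u w : ℕ) (h : w ∈ ml x u u) : w = u := by
  have h1 : Mdl x {u} := by
    intro i t k l b hk hb hl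
    rw [mem_singleton_iff] at hk hb
    rw [hb, ← hk, Function.update_eq_self]
  exact h {u} h1 rfl rfl

/-- The C-relation of the modules. -/
def dm (x : RS a) (u v w : ℕ) : Prop := w ∉ ml x u v ∧ v ∈ ml x u w ∧ u ∈ ml x v w

theorem dm_refl {u w : ℕ} (h : u ≠ w) : dm x u u w :=
  ⟨fun h1 => h (ml_self u w h1).symm, ml_left u w, ml_left u w⟩

theorem dm_irr (u v : ℕ) : ¬ dm x u v u := fun h => h.1 (ml_left u v)

theorem dm_symm {u v w : ℕ} (h : dm x u v w) : dm x v u w := by
  refine ⟨?_, h.2.2, h.2.1⟩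
  rw [ml_comm]
  exact h.1

theorem dm_c2 {u v w : ℕ} (h : dm x u v w) : ¬ dm x u w v := fun h1 => h1.1 h.2.1

theorem dm_c3 {u v w : ℕ} (h : dm x u v w) (z : ℕ) : dm x u v z ∨ dm x z v w := by
  obtain ⟨h1, h2, h3⟩ := h
  have hP : ml x v w ⊆ ml x u w := ml_sub (ml_mdl u w) h2 (ml_right u w)
  have hP' : ml x u w ⊆ ml x v w := ml_sub (ml_mdl v w) h3 (ml_right v w)
  by_cases hzP : z ∈ ml x u w
  swap
  · -- `z` is outside
    left
    refine ⟨fun h4 => hzP (ml_sub (ml_mdl u w) (ml_left u w) h2 h4), ?_, ?_⟩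
    · by_contra h4
      have h5 : w ∉ ml x u z := fun h5 => h4 (ml_sub (ml_mdl u z) (ml_left u z) h5 h2)
      have h6 : Mdl x (ml x u w \ ml x u z) :=
        (ml_mdl u w).diff (ml_mdl u z) (ml_left u w) (ml_left u z) (ml_right u z) hzP
      exact (ml_sub h6 ⟨h2, h4⟩ ⟨ml_right u w, h5⟩ h3).2 (ml_left u z)
    · by_contra h4
      have h5 : w ∉ ml x v z := fun h5 => h4 (ml_sub (ml_mdl v z) (ml_left v z) h5 h3)
      have hzP' : z ∉ ml x v w := fun h6 => hzP (hP h6)
      have h6 : Mdl x (ml x v w \ ml x v z) :=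
        (ml_mdl v w).diff (ml_mdl v z) (ml_left v w) (ml_left v z) (ml_right v z) hzP'
      exact (ml_sub h6 ⟨h3, h4⟩ ⟨ml_right v w, h5⟩ h2).2 (ml_left v z)
  by_cases hz : z ∈ ml x u v
  · right
    refine ⟨fun h4 => h1 (ml_sub (ml_mdl u v) hz (ml_right u v) h4), ?_, hP' hzP⟩
    by_contra h4
    have h5 : u ∉ ml x z w := fun h5 => h4 (ml_sub (ml_mdl z w) h5 (ml_right z w) h2)
    have h6 : Mdl x (ml x u v \ ml x z w) :=
      (ml_mdl u v).diff (ml_mdl z w) hz (ml_left z w) (ml_right z w) h1
    exact (ml_sub h6 ⟨ml_left u v, h5⟩ ⟨ml_right u v, h4⟩ hz).2 (ml_left z w)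
  by_cases hi : v ∈ ml x u z
  · by_cases hii : u ∈ ml x v z
    · exact Or.inl ⟨hz, hi, hii⟩
    · right
      refine ⟨?_, ?_, hP' hzP⟩
      · rw [ml_comm]
        exact fun h4 => hii (ml_sub (ml_mdl v z) (ml_left v z) h4 h3)
      · by_contra h4
        have h5 : Mdl x (ml x v z ∪ ml x z w) :=
          (ml_mdl v z).union (ml_mdl z w) (ml_right v z) (ml_left z w)
        rcases ml_sub h5 (Or.inl (ml_left v z)) (Or.inr (ml_right z w)) h3 with h6 | h6
        · exact hii h6
        · exact h4 (ml_sub (ml_mdl z w) h6 (ml_right z w) h2)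
  · right
    refine ⟨?_, ?_, hP' hzP⟩
    · intro h4
      -- the union of `ml u v` and `ml u z`
      have h5 : Mdl x (ml x u v ∪ ml x u z) :=
        (ml_mdl u v).union (ml_mdl u z) (ml_left u v) (ml_left u z)
      rcases ml_sub h5 (Or.inr (ml_right u z)) (Or.inl (ml_right u v)) h4 with h6 | h6
      · exact h1 h6
      · exact hi (ml_sub (ml_mdl u z) (ml_left u z) h6 h2)
    · by_contra h4
      have h5 : Mdl x (ml x u z ∪ ml x z w) :=
        (ml_mdl u z).union (ml_mdl z w) (ml_right u z) (ml_left z w)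
      rcases ml_sub h5 (Or.inl (ml_left u z)) (Or.inr (ml_right z w)) h2 with h6 | h6
      · exact hi h6
      · exact h4 h6

theorem dm_mod {i : ℕ} (t : Fin (a i) → ℕ) (k l : Fin (a i)) (b : ℕ)
    (h : dm x (t k) b (t l)) : x i (Function.update t k b) = x i t :=
  ml_mdl (t k) b i t k l b (ml_left _ _) (ml_right _ _) h.1

end Pool.Agent.W875.TS
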