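import Pool.Agent.W875.TS.MD1

set_option autoImplicit false

/-! The expansion by the C-relation of the modules. -/

namespace Pool.Agent.W875.TS

open Set
open Pool.Agent.H533R2.VO (RS RIso VC Dich)
open Pool.Agent.H533R2.VS (act Canon)

variable {a : ℕ → ℕ} {x : RS a} {X Y : Set ℕ}

/-- Stages of the closure. -/
def cl (x : RS a) (u v : ℕ) : ℕ → Set ℕ
  | 0 => {u, v}
  | n + 1 => cl x u v n ∪ {w | ∃ (i : ℕ) (t : Fin (a i) → ℕ) (k l : Fin (a i)) (b : ℕ),
      t k ∈ cl x u v n ∧ b ∈ cl x u v n ∧ t l = w ∧ x i (Function.update t k b) ≠ x i t}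

theorem cl_mono (u v : ℕ) {m n : ℕ} (h : m ≤ n) : cl x u v m ⊆ cl x u v n := by
  induction h with
  | refl => exact Subset.rfl
  | step _ ih => exact ih.trans subset_union_left

theorem ml_iff (u v w : ℕ) : w ∈ ml x u v ↔ ∃ n, w ∈ cl x u v n := by
  constructor
  · intro h
    have h1 : Mdl x {w | ∃ n, w ∈ cl x u v n} := by
      rintro i t k l b ⟨m, hm⟩ ⟨n, hn⟩ hl
      by_contra hne
      refine hl ⟨max m n + 1, Or.inr ⟨i, t, k, l, b, cl_mono u v (le_max_left m n) hm,
        cl_mono u v (le_max_right m n) hn, rfl, hne⟩⟩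
    exact h _ h1 ⟨0, Or.inl rfl⟩ ⟨0, Or.inr rfl⟩
  · rintro ⟨n, hn⟩ X hX hu hv
    have key : ∀ n, cl x u v n ⊆ X := by
      intro n
      induction n with
      | zero =>
        rintro w (h | h)
        · rw [h]; exact hu
        · rw [mem_singleton_iff] at h
          rw [h]; exact hv
      | succ n ih =>
        rintro w (h | ⟨i, t, k, l, b, h1, h2, h3, h4⟩)
        · exact ih h
        · by_contra h5
          exact h4 (hX i t k l b (ih h1) (ih h2) (by rw [h3]; exact h5))
    exact key n hn

section meas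

variable {Z : Type} [MeasurableSpace Z] {R : Z → RS a}

theorem me_rel (hR : ∀ i t, Measurable fun z => R z i t) (u v n w : ℕ) :
    Measurable fun z => w ∈ cl (R z) u v n := by
  induction n generalizing w with
  | zero => exact measurable_const
  | succ n ih =>
    refine Measurable.or (ih w) ?_
    refine Measurable.exists fun i => Measurable.exists fun t => Measurable.exists fun k =>
      Measurable.exists fun l => Measurable.exists fun b => ?_
    exact Measurable.and (ih _) (Measurable.and (ih _) (Measurable.and measurable_const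
      (Measurable.not (measurableSet_setOfPred.1 (measurableSet_eq_fun (hR i _) (hR i _))))))

theorem me_ml (hR : ∀ i t, Measurable fun z => R z i t) (u v w : ℕ) :
    Measurable fun z => w ∈ ml (R z) u v := by
  have h : (fun z => w ∈ ml (R z) u v) = fun z => ∃ n, w ∈ cl (R z) u v n := by
    funext z
    exact propext (ml_iff u v w)
  rw [h]
  exact Measurable.exists fun n => me_rel hR u v n w

theorem me_dm (hR : ∀ i t, Measurable fun z => R z i t) (u v w : ℕ) :
    Measurable fun z => dm (R z) u v w :=
  Measurable.and (Measurable.not (me_ml hR _ _ _)) (Measurable.and (me_ml hR _ _ _)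
    (me_ml hR _ _ _))

end meas

theorem me_RS (i : ℕ) (t : Fin (a i) → ℕ) : Measurable fun x : RS a => x i t :=
  (measurable_pi_apply t).comp (measurable_pi_apply i)

open Classical in
/-- The expansion. -/
noncomputable def cD (x : RS a) : RS (aD a) := fun n =>
  match n with
  | 0 => fun t => decide (dm x (t 0) (t 1) (t 2))
  | i + 1 => fun t => x i t

/-- The reduct. -/
def dD (z : RS (aD a)) : RS a := fun i => z (i + 1)

theorem comp_upd {n : ℕ} (f : ℕ → ℕ) (t : Fin n → ℕ) (k : Fin n) (b : ℕ) :
    f ∘ Function.update t k b = Function.update (f ∘ t) k (f b) := by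
  rw [Function.comp_update]

theorem Mdl.act {σ : Equiv.Perm ℕ} (h : Mdl x X) :
    Mdl (Pool.Agent.H533R2.VS.act σ x) (σ.symm ⁻¹' X) := by
  intro i t k l b hk hb hl
  show x i (⇑σ.symm ∘ Function.update t k b) = x i (⇑σ.symm ∘ t)
  rw [comp_upd]
  exact h i _ k l _ hk hb hl

theorem act_symm (σ : Equiv.Perm ℕ) (x : RS a) : act σ.symm (act σ x) = x := by
  funext i v
  show x i (⇑σ.symm ∘ (⇑σ.symm.symm ∘ v)) = x i v
  have e : ⇑σ.symm ∘ (⇑σ.symm.symm ∘ v) = v := by
    funext j
    simp
  rw [e]

theorem ml_act (σ : Equiv.Perm ℕ) (x : RS a) (u v w : ℕ) :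
    w ∈ ml (act σ x) u v ↔ σ.symm w ∈ ml x (σ.symm u) (σ.symm v) := by
  constructor
  · intro h Y hY hu hv
    exact h _ (hY.act (σ := σ)) hu hv
  · intro h Y hY hu hv
    have h1 := hY.act (σ := σ.symm)
    rw [act_symm] at h1
    have h2 := h _ h1 (by simpa using hu) (by simpa using hv)
    simpa using h2

theorem dm_act (σ : Equiv.Perm ℕ) (x : RS a) (u v w : ℕ) :
    dm (act σ x) u v w ↔ dm x (σ.symm u) (σ.symm v) (σ.symm w) := by
  unfold dm
  rw [ml_act, ml_act, ml_act]

theorem canon_cD (a : ℕ → ℕ) : Canon (cD : RS a → RS (aD a)) dD := by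
  classical
  refine ⟨?_, ?_, ?_, ?_⟩
  · refine measurable_pi_lambda _ fun n => measurable_pi_lambda _ fun t => ?_
    match n, t with
    | 0, t =>
      have h1 : Measurable fun x : RS a => dm x (t 0) (t 1) (t 2) := me_dm me_RS _ _ _
      refine measurable_to_bool ?_
      have h2 : (fun x : RS a => decide (dm x (t 0) (t 1) (t 2))) ⁻¹' {true} =
          {x : RS a | dm x (t 0) (t 1) (t 2)} := by
        ext x
        simp
      show MeasurableSet ((fun x : RS a => decide (dm x (t 0) (t 1) (t 2))) ⁻¹' {true})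
      rw [h2]
      exact h1.setOf
    | i + 1, t => exact me_RS i t
  · exact continuous_pi fun i => continuous_apply (i + 1)
  · intro σ x
    funext n t
    match n, t with
    | 0, t =>
      show decide (dm (act σ x) (t 0) (t 1) (t 2)) =
        decide (dm x (σ.symm (t 0)) (σ.symm (t 1)) (σ.symm (t 2)))
      simp only [dm_act]
    | i + 1, t => rfl
  · intro σ z
    rfl

end Pool.Agent.W875.TS
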