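import Pool.Agent.W875.TS.MD2

set_option autoImplicit false

/-! Structures without proper cones. -/

namespace Pool.Agent.W875.TS

open Set
open Pool.Agent.H533R2.VO (RS RIso VC Dich)
open Pool.Agent.H533R2.VS (act Canon)

variable {a : ℕ → ℕ} {Q : RS a}

/-- Prime structures. -/
def Prm (Q : RS a) : Prop := ∀ Y : Set ℕ, Mdl Q Y → Y.Subsingleton ∨ Y = univ

theorem prm_iff : Prm Q ↔ ∀ i j n, i ≠ j → n ∈ ml Q i j := by
  constructor
  · intro h i j n hij
    rcases h _ (ml_mdl i j) with h1 | h1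
    · exact absurd (h1 (ml_left i j) (ml_right i j)) hij
    · rw [h1]
      exact mem_univ n
  · intro h Y hY
    by_cases hs : Y.Subsingleton
    · exact Or.inl hs
    · right
      rw [Set.not_subsingleton_iff] at hs
      obtain ⟨i, hi, j, hj, hij⟩ := hs
      rw [eq_univ_iff_forall]
      intro n
      exact ml_sub hY hi hj (h i j n hij)

/-- No cones with more than one point. -/
def Nc (Q : RS a) : Prop := ∀ l m n, l ≠ m → l ≠ n → m ≠ n → ¬ dm Q l m n

theorem nc_step1 (h : Nc Q) {p q r : ℕ} (hpq : p ≠ q) (h1 : r ∈ ml Q p q)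
    (h2 : q ∈ ml Q p r) (h3 : p ∈ ml Q q r) (d : ℕ) : d ∈ ml Q p q := by
  by_contra hd
  have hdp : d ≠ p := fun e => hd (by rw [e]; exact ml_left p q)
  have hdq : d ≠ q := fun e => hd (by rw [e]; exact ml_right p q)
  have h4 : ¬ (q ∈ ml Q p d ∧ p ∈ ml Q q d) := fun h5 =>
    h p q d hpq hdp.symm hdq.symm ⟨hd, h5.1, h5.2⟩
  by_cases h5 : q ∈ ml Q p d
  · have h6 : p ∉ ml Q q d := fun h6 => h4 ⟨h5, h6⟩
    have h7 : r ∉ ml Q q d := fun h7 => h6 (ml_sub (ml_mdl q d) (ml_left q d) h7 h3)
    have h8 : Mdl Q (ml Q p q \ ml Q q d) :=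
      (ml_mdl p q).diff (ml_mdl q d) (ml_right p q) (ml_left q d) (ml_right q d) hd
    exact (ml_sub h8 ⟨ml_left p q, h6⟩ ⟨h1, h7⟩ h2).2 (ml_left q d)
  · have h7 : r ∉ ml Q p d := fun h7 => h5 (ml_sub (ml_mdl p d) (ml_left p d) h7 h2)
    have h8 : Mdl Q (ml Q p q \ ml Q p d) :=
      (ml_mdl p q).diff (ml_mdl p d) (ml_left p q) (ml_left p d) (ml_right p d) hd
    exact (ml_sub h8 ⟨ml_right p q, h5⟩ ⟨h1, h7⟩ h3).2 (ml_left p d)

theorem nc_step2 (h : Nc Q) {p q r : ℕ} (hpq : p ≠ q) (h1 : ∀ d, d ∈ ml Q p q)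
    (h2 : ∀ d, d ∈ ml Q p r) (h3 : ∀ d, d ∈ ml Q q r) {d : ℕ} (hdp : d ≠ p) (hdq : d ≠ q)
    (n : ℕ) : n ∈ ml Q p d := by
  by_contra hn
  have h4 : q ∉ ml Q p d := fun h4 => hn (ml_sub (ml_mdl p d) (ml_left p d) h4 (h1 n))
  have h5 : r ∉ ml Q p d := fun h5 => hn (ml_sub (ml_mdl p d) (ml_left p d) h5 (h2 n))
  have h6 : ∀ m, m ∈ ml Q q d := by
    intro m
    by_contra hm
    have h7 : r ∉ ml Q q d := fun h7 => hm (ml_sub (ml_mdl q d) (ml_left q d) h7 (h3 m))
    have h8 : Mdl Q (ml Q p d ∪ ml Q q d) :=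
      (ml_mdl p d).union (ml_mdl q d) (ml_right p d) (ml_right q d)
    rcases ml_sub h8 (Or.inl (ml_left p d)) (Or.inr (ml_left q d)) (h1 r) with h9 | h9
    · exact h5 h9
    · exact h7 h9
  refine h p d q hdp.symm hpq hdq ⟨h4, h1 d, ?_⟩
  rw [ml_comm]
  exact h6 p

/-- Prime, or no triples of the third kind. -/
theorem nc_prm (h : Nc Q) : Prm Q ∨ ∀ l m n, l ≠ m → l ≠ n → m ≠ n →
    ¬ (n ∈ ml Q l m ∧ m ∈ ml Q l n ∧ l ∈ ml Q m n) := by
  by_cases hex : ∃ l m n, l ≠ m ∧ l ≠ n ∧ m ≠ n ∧ n ∈ ml Q l m ∧ m ∈ ml Q l n ∧ l ∈ ml Q m n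
  swap
  · right
    intro l m n h1 h2 h3 ⟨h4, h5, h6⟩
    exact hex ⟨l, m, n, h1, h2, h3, h4, h5, h6⟩
  left
  rw [prm_iff]
  obtain ⟨p, q, r, hpq, hpr, hqr, h1, h2, h3⟩ := hex
  have f1 : ∀ d, d ∈ ml Q p q := nc_step1 h hpq h1 h2 h3
  have f2 : ∀ d, d ∈ ml Q p r := nc_step1 h hpr h2 h1 (by rw [ml_comm]; exact h3)
  have f3 : ∀ d, d ∈ ml Q q r := nc_step1 h hqr h3 (by rw [ml_comm]; exact h1)
    (by rw [ml_comm]; exact h2)
  have fp : ∀ d, d ≠ p → ∀ n, n ∈ ml Q p d := by
    intro d hd n
    by_cases hq : d = q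
    · rw [hq]; exact f1 n
    · exact nc_step2 h hpq f1 f2 f3 hd hq n
  have fq : ∀ d, d ≠ q → ∀ n, n ∈ ml Q q d := by
    intro d hd n
    by_cases hq : d = p
    · rw [hq, ml_comm]; exact f1 n
    · exact nc_step2 h hpq.symm (fun d => by rw [ml_comm]; exact f1 d) f3 f2 hd hq n
  intro i j n hij
  by_cases hip : i = p
  · rw [hip]
    exact fp j (fun e => hij (by rw [hip, e])) n
  by_cases hiq : i = q
  · rw [hiq]
    exact fq j (fun e => hij (by rw [hiq, e])) n
  by_cases hjp : j = p
  · rw [hjp, ml_comm]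
    exact fp i hip n
  exact nc_step2 h hip (fun d => by rw [ml_comm]; exact fp i hip d)
    (fun d => by rw [ml_comm]; exact fq i hiq d) f1 (fun e => hij e.symm) hjp n

/-- No triples of the second and the third kind. -/
def Gd2 (Q : RS a) : Prop := ∀ p q r : ℕ, p ≠ q → p ≠ r → q ≠ r →
  (r ∉ ml Q p q ∧ q ∉ ml Q p r) ∨ (r ∉ ml Q p q ∧ p ∉ ml Q q r) ∨
    (q ∉ ml Q p r ∧ p ∉ ml Q q r)

theorem nc_gd2 (h : Nc Q) (h' : ∀ l m n, l ≠ m → l ≠ n → m ≠ n →
    ¬ (n ∈ ml Q l m ∧ m ∈ ml Q l n ∧ l ∈ ml Q m n)) : Gd2 Q := by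
  intro p q r hpq hpr hqr
  have h1 := h p q r hpq hpr hqr
  have h2 := h p r q hpr hpq hqr.symm
  have h3 := h q r p hqr hpq.symm hpr.symm
  have h4 := h' p q r hpq hpr hqr
  unfold dm at h1 h2 h3
  rw [ml_comm (x := Q) r q] at h2
  rw [ml_comm (x := Q) q p, ml_comm (x := Q) r p] at h3
  tauto

theorem ml_ch {p q r : ℕ} (h : r ∉ ml Q p q) {i : ℕ} (s : Fin (a i) → ℕ) (j l : Fin (a i))
    (hl : s l = r) (hj : s j = p) : Q i (Function.update s j q) = Q i s :=
  ml_mdl p q i s j l q (by rw [hj]; exact ml_left p q) (ml_right p q) (by rw [hl]; exact h)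

theorem ml_ch' {p q r : ℕ} (h : r ∉ ml Q p q) {i : ℕ} (s : Fin (a i) → ℕ) (j l : Fin (a i))
    (hl : s l = r) (hj : s j = q) : Q i (Function.update s j p) = Q i s :=
  ml_mdl p q i s j l p (by rw [hj]; exact ml_right p q) (ml_left p q) (by rw [hl]; exact h)

/-- Change of one entry. -/
theorem gd2_ch (h : Gd2 Q) {i : ℕ} (s : Fin (a i) → ℕ) (z j0 j : Fin (a i))
    (hne : s z ≠ s j0) (hj : j ≠ z) (hj0 : j ≠ j0) :
    Q i (Function.update s j (s j0)) = Q i s := by
  have hzj0 : z ≠ j0 := fun e => hne (by rw [e])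
  -- the case that the entry is `s z`
  have key : ∀ s : Fin (a i) → ℕ, s z ≠ s j0 → s j = s z →
      Q i (Function.update s j (s j0)) = Q i s := by
    intro s hne hsj
    obtain ⟨u, hu⟩ : ∃ u, u = s z := ⟨_, rfl⟩
    obtain ⟨w, hw⟩ : ∃ w, w = s j0 := ⟨_, rfl⟩
    rw [← hw, ← hu] at hne
    rw [← hu] at hsj
    obtain ⟨r, hru, hrw⟩ : ∃ r : ℕ, u ≠ r ∧ w ≠ r := ⟨u + w + 1, by omega, by omega⟩
    rw [← hw]
    rcases h u w r hne hru hrw with ⟨h1, h2⟩ | ⟨h1, h2⟩ | ⟨h1, h2⟩
    · -- `u` is in the middle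
      have e1 : Q i (Function.update s z r) = Q i s := ml_ch h2 s z j0 hw.symm hu.symm
      have e2 : Q i (Function.update (Function.update s z r) j w) =
          Q i (Function.update s z r) := by
        refine ml_ch h1 _ j z (Function.update_self _ _ _) ?_
        rw [Function.update_of_ne hj, hsj]
      have e3 : Q i (Function.update (Function.update (Function.update s z r) j w) z u) =
          Q i (Function.update (Function.update s z r) j w) := by
        refine ml_ch' h2 _ z j0 ?_ ?_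
        · rw [Function.update_of_ne hj0.symm, Function.update_of_ne hzj0.symm, ← hw]
        · rw [Function.update_of_ne hj.symm, Function.update_self]
      have e4 : Function.update (Function.update (Function.update s z r) j w) z u =
          Function.update s j w := by
        rw [Function.update_comm hj, Function.update_idem]
        congr 1
        rw [hu, Function.update_eq_self]
      rw [← e4, e3, e2, e1]
    · -- `w` is in the middle
      have e1 : Q i (Function.update s j0 r) = Q i s := ml_ch h2 s j0 z hu.symm hw.symm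
      have e2 : Q i (Function.update (Function.update s j0 r) j w) =
          Q i (Function.update s j0 r) := by
        refine ml_ch h1 _ j j0 (Function.update_self _ _ _) ?_
        rw [Function.update_of_ne hj0, hsj]
      have e3 : Q i (Function.update (Function.update (Function.update s j0 r) j w) j0 w) =
          Q i (Function.update (Function.update s j0 r) j w) := by
        refine ml_ch' h2 _ j0 z ?_ ?_
        · rw [Function.update_of_ne hj.symm, Function.update_of_ne hzj0, ← hu]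
        · rw [Function.update_of_ne hj0.symm, Function.update_self]
      have e4 : Function.update (Function.update (Function.update s j0 r) j w) j0 w =
          Function.update s j w := by
        rw [Function.update_comm hj0, Function.update_idem]
        congr 1
        rw [hw, Function.update_eq_self]
      rw [← e4, e3, e2, e1]
    · -- `r` is in the middle
      have e1 : Q i (Function.update s j r) = Q i s := ml_ch h1 s j j0 hw.symm hsj
      have e2 : Q i (Function.update (Function.update s j r) j w) =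
          Q i (Function.update s j r) := by
        refine ml_ch' h2 _ j z ?_ (Function.update_self _ _ _)
        rw [Function.update_of_ne hj.symm, ← hu]
      rw [Function.update_idem] at e2
      rw [e2, e1]
  by_cases h0 : s j = s z
  · exact key s hne h0
  by_cases h00 : s j = s j0
  · rw [← h00, Function.update_eq_self]
  obtain ⟨u, hu⟩ : ∃ u, u = s z := ⟨_, rfl⟩
  obtain ⟨w, hw⟩ : ∃ w, w = s j0 := ⟨_, rfl⟩
  obtain ⟨c, hc⟩ : ∃ c, c = s j := ⟨_, rfl⟩
  rw [← hw, ← hu] at hne
  rw [← hc, ← hu] at h0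
  rw [← hc, ← hw] at h00
  rw [← hw]
  by_cases h1 : u ∈ ml Q c w
  · -- the pairs with `u` are good
    have h2 : w ∉ ml Q u c := by
      rcases h u c w (fun e => h0 e.symm) hne h00 with ⟨h2, h3⟩ | ⟨h2, h3⟩ | ⟨h2, h3⟩
      · exact h2
      · exact h2
      · exact absurd h1 h3
    have e1 : Q i (Function.update s j u) = Q i s := ml_ch' h2 s j j0 hw.symm hc.symm
    have e2 := key (Function.update s j u) (by
      rw [Function.update_of_ne hj.symm, Function.update_of_ne hj0.symm, ← hu, ← hw]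
      exact hne) (by
      rw [Function.update_of_ne hj.symm, Function.update_self, ← hu])
    rw [Function.update_of_ne hj0.symm, ← hw, Function.update_idem] at e2
    rw [e2, e1]
  · exact ml_ch h1 s j z hu.symm hc.symm

/-- Values on nonconstant tuples. -/
theorem gd2_val (h : Gd2 Q) {i : ℕ} (s : Fin (a i) → ℕ) (z j0 : Fin (a i))
    (hne : s z ≠ s j0) : Q i s = Q i (fun j => if j = z then s z else s j0) := by
  classical
  have hzj0 : z ≠ j0 := fun e => hne (by rw [e])
  have key : ∀ F : Finset (Fin (a i)), z ∉ F → j0 ∉ F →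
      Q i (fun k => if k ∈ F then s j0 else s k) = Q i s := by
    intro F
    induction F using Finset.induction_on with
    | empty => intros; simp
    | insert k F hk ih =>
      intro hz hj0
      rw [Finset.mem_insert, not_or] at hz hj0
      have e1 : (fun j => if j ∈ insert k F then s j0 else s j) =
          Function.update (fun j => if j ∈ F then s j0 else s j) k (s j0) := by
        funext j
        by_cases hj : j = k
        · subst hj
          simp
        · rw [Function.update_of_ne hj]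
          simp [hj]
      have e2 := gd2_ch h (fun j => if j ∈ F then s j0 else s j) z j0 k (by
        simp only [hz.2, hj0.2, if_false]
        exact hne) (fun e => hz.1 e.symm) (fun e => hj0.1 e.symm)
      simp only [hj0.2, if_false] at e2
      rw [e1, e2]
      exact ih hz.2 hj0.2
  have h1 := key (Finset.univ \ {z, j0}) (by simp) (by simp)
  rw [← h1]
  congr 1
  funext k
  by_cases hkz : k = z
  · subst hkz
    simp
  · by_cases hkj : k = j0
    · subst hkj
      simp [hkz]
    · simp [hkz, hkj]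

end Pool.Agent.W875.TS
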