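import Pool.Agent.W875.TS.MD3
import Pool.Agent.H533R2.VS.All2

set_option autoImplicit false

/-! Degenerate structures in arbitrary languages. -/

namespace Pool.Agent.W875.TS

open Set
open Pool.Agent.H533R2.VO (RS RIso VC Dich)
open Pool.Agent.H533R2.VS (act Canon p2 DecG VCu US UIso UDich Coan Inv kdeB)

variable {a : ℕ → ℕ} {Q : RS a}

/-- The binary language. -/
abbrev b2 : ℕ → ℕ := fun _ => 2

/-- The binary structure. -/
def c2 (Q : RS a) : RS b2 := fun i t => Q i (p2 (t 0) (t 1))

open Classical in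
/-- A position with `P`. -/
noncomputable def pk {n : ℕ} (P : Fin n → Prop) (j0 : Fin n) : Fin n :=
  if h : ∃ j, P j then h.choose else j0

theorem pk_spec {n : ℕ} {P : Fin n → Prop} (j0 : Fin n) (h : ∃ j, P j) : P (pk P j0) := by
  unfold pk
  rw [dif_pos h]
  exact h.choose_spec

open Classical in
/-- The structure given by a binary structure. -/
noncomputable def d2 (z : RS b2) : RS a := fun i v =>
  if h : 0 < a i then
    if ∃ j, v j ≠ v ⟨0, h⟩ then
      z i ![v ⟨0, h⟩, v (pk (fun j => v j ≠ v ⟨0, h⟩) ⟨0, h⟩)]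
    else false
  else false

theorem p2_comp {n : ℕ} (f : ℕ → ℕ) (u v : ℕ) : (p2 (f u) (f v) : Fin n → ℕ) = f ∘ p2 u v := by
  funext j
  unfold p2
  show _ = f (if _ then _ else _)
  split_ifs <;> rfl

theorem canon_c2 (a : ℕ → ℕ) : Canon (c2 : RS a → RS b2) d2 := by
  classical
  refine ⟨?_, ?_, ?_, ?_⟩
  · refine measurable_pi_lambda _ fun n => measurable_pi_lambda _ fun t => me_RS _ _
  · refine continuous_pi fun i => continuous_pi fun v => ?_
    unfold d2
    by_cases h : 0 < a i
    · simp only [dif_pos h]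
      by_cases h' : ∃ j, v j ≠ v ⟨0, h⟩
      · simp only [if_pos h']
        exact (continuous_apply _).comp (continuous_apply i)
      · simp only [if_neg h']
        exact continuous_const
    · simp only [dif_neg h]
      exact continuous_const
  · intro σ x
    funext i t
    show x i (⇑σ.symm ∘ p2 (t 0) (t 1)) = x i (p2 (σ.symm (t 0)) (σ.symm (t 1)))
    rw [p2_comp]
  · intro σ z
    funext i v
    show d2 (act σ z) i v = d2 z i (⇑σ.symm ∘ v)
    unfold d2
    by_cases h : 0 < a i
    · rw [dif_pos h, dif_pos h]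
      have hP : (fun j => (⇑σ.symm ∘ v) j ≠ (⇑σ.symm ∘ v) ⟨0, h⟩) = fun j => v j ≠ v ⟨0, h⟩ := by
        funext j
        simp only [Function.comp_apply, ne_eq, σ.symm.injective.eq_iff]
      have hE : (∃ j, (⇑σ.symm ∘ v) j ≠ (⇑σ.symm ∘ v) ⟨0, h⟩) = ∃ j, v j ≠ v ⟨0, h⟩ := by
        congr 1
      by_cases h' : ∃ j, v j ≠ v ⟨0, h⟩
      · rw [if_pos h', if_pos (hE.mpr h'), hP]
        show z i (⇑σ.symm ∘ ![v ⟨0, h⟩, v (pk (fun j => v j ≠ v ⟨0, h⟩) ⟨0, h⟩)]) = _
        have : (⇑σ.symm ∘ ![v ⟨0, h⟩, v (pk (fun j => v j ≠ v ⟨0, h⟩) ⟨0, h⟩)] : Fin 2 → ℕ) =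
            ![(⇑σ.symm ∘ v) ⟨0, h⟩, (⇑σ.symm ∘ v) (pk (fun j => v j ≠ v ⟨0, h⟩) ⟨0, h⟩)] := by
          funext k
          fin_cases k <;> rfl
        exact congrArg (z i) this
      · rw [if_neg h', if_neg (fun hh => h' (hE.mp hh))]
    · rw [dif_neg h, dif_neg h]

/-- Degenerate structures. -/
def DecH (Q : RS a) : Prop := DecG (c2 Q) ∧ d2 (c2 Q) = Q

theorem vcu_decH (a : ℕ → ℕ) : VCu (DecH : RS a → Prop) :=
  Pool.Agent.H533R2.VS.vs_exc a b2 c2 d2 (canon_c2 a) DecG (Pool.Agent.H533R2.VS.vs_dec b2)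

theorem inv_decH (a : ℕ → ℕ) : Inv (DecH : RS a → Prop) :=
  (Pool.Agent.H533R2.VS.vs_exk a b2 c2 d2 (canon_c2 a) DecG (Pool.Agent.H533R2.VS.vs_kde b2).1
    (Pool.Agent.H533R2.VS.vs_kde b2).2).2

theorem meas_decH (a : ℕ → ℕ) : MeasurableSet {Q : RS a | DecH Q} := by
  have hc : Measurable (c2 : RS a → RS b2) := (canon_c2 a).meas
  have h1 : MeasurableSet {z : RS b2 | DecG z} := by
    refine Measurable.setOf ?_
    exact Measurable.and Pool.Agent.H533R2.VS.kde_zero Pool.Agent.H533R2.VS.kde_dec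
  have hd : Measurable fun Q : RS a => (d2 (c2 Q) : RS a) :=
    (canon_c2 a).cont.measurable.comp hc
  have h2 : MeasurableSet {Q : RS a | d2 (c2 Q) = Q} := by
    have : {Q : RS a | d2 (c2 Q) = Q} = ⋂ i, ⋂ t, {Q : RS a | d2 (c2 Q) i t = Q i t} := by
      ext Q
      rw [mem_iInter₂]
      constructor
      · intro h i t
        exact congrFun (congrFun h i) t
      · intro h
        funext i t
        exact h i t
    rw [this]
    exact MeasurableSet.iInter fun i => MeasurableSet.iInter fun t =>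
      measurableSet_eq_fun ((me_RS i t).comp hd) (me_RS i t)
  exact (hc h1).inter h2

/-- Structures without triples of the second and third kind are degenerate. -/
theorem decH_of (hpos : ∀ i, 0 < a i) (h : Gd2 Q)
    (hc : ∀ i (v : Fin (a i) → ℕ), (¬ ∃ j l, v j ≠ v l) → Q i v = false) : DecH Q := by
  classical
  refine ⟨⟨fun i hi => absurd rfl hi, ?_⟩, ?_⟩
  · intro F hF
    have hex : ∃ p ∈ F, ∃ q ∈ F, p ≠ q ∧ ∃ w ∈ F, w ∉ ml Q p q := by
      by_contra hcon
      push Not at hcon
      have hF' : 2 < F.card := by omega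
      obtain ⟨p, hp, q, hq, r, hr, hpq, hpr, hqr⟩ := Finset.two_lt_card.1 hF'
      have h1 := hcon p hp q hq hpq r hr
      have h2 := hcon p hp r hr hpr q hq
      have h3 := hcon q hq r hr hqr p hp
      rcases h p q r hpq hpr hqr with h4 | h4 | h4
      · exact h4.1 h1
      · exact h4.1 h1
      · exact h4.1 h2
    obtain ⟨p, hp, q, hq, hpq, w, hw, hwn⟩ := hex
    refine ⟨F.filter (· ∈ ml Q p q), Finset.filter_subset _ _, ?_, ?_, ?_⟩
    · rw [Finset.one_lt_card]
      exact ⟨p, Finset.mem_filter.2 ⟨hp, ml_left p q⟩, q, Finset.mem_filter.2 ⟨hq, ml_right p q⟩,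
        hpq⟩
    · apply Finset.card_lt_card
      rw [Finset.ssubset_iff_of_subset (Finset.filter_subset _ _)]
      exact ⟨w, hw, fun h1 => hwn (Finset.mem_filter.1 h1).2⟩
    · intro u hu v hv w hw hwn i
      have hu' := (Finset.mem_filter.1 hu).2
      have hv' := (Finset.mem_filter.1 hv).2
      have hw' : w ∉ ml Q p q := fun h1 => hwn (Finset.mem_filter.2 ⟨hw, h1⟩)
      show (if 2 = 2 then c2 Q i (p2 u w) else false) = (if 2 = 2 then c2 Q i (p2 v w) else false) ∧
        (if 2 = 2 then c2 Q i (p2 w u) else false) = (if 2 = 2 then c2 Q i (p2 w v) else false)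
      simp only [if_true]
      show Q i (p2 u w) = Q i (p2 v w) ∧ Q i (p2 w u) = Q i (p2 w v)
      by_cases hai : 1 < a i
      · constructor
        · refine (ml_mdl p q).multi _ _ (fun j => ?_) ⟨1, hai⟩ ?_
          · by_cases hj : j.val = 0
            · right
              unfold p2
              rw [if_pos hj, if_pos hj]
              exact ⟨hv', hu'⟩
            · left
              unfold p2
              rw [if_neg hj, if_neg hj]
          · show p2 v w _ ∉ _
            unfold p2
            rw [if_neg (by simp)]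
            exact hw'
        · refine (ml_mdl p q).multi _ _ (fun j => ?_) ⟨0, hpos i⟩ ?_
          · by_cases hj : j.val = 0
            · left
              unfold p2
              rw [if_pos hj, if_pos hj]
            · right
              unfold p2
              rw [if_neg hj, if_neg hj]
              exact ⟨hv', hu'⟩
          · show p2 w v _ ∉ _
            unfold p2
            rw [if_pos rfl]
            exact hw'
      · have hsub : ∀ v : Fin (a i) → ℕ, ¬ ∃ j l, v j ≠ v l := by
          rintro v ⟨j, l, h1⟩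
          apply h1
          congr 1
          apply Fin.ext
          have := j.isLt
          have := l.isLt
          omega
        rw [hc i _ (hsub _), hc i _ (hsub _), hc i _ (hsub _), hc i _ (hsub _)]
        exact ⟨rfl, rfl⟩
  · funext i v
    unfold d2
    rw [dif_pos (hpos i)]
    by_cases h' : ∃ j, v j ≠ v ⟨0, hpos i⟩
    · rw [if_pos h']
      have h1 := pk_spec (P := fun j => v j ≠ v ⟨0, hpos i⟩) ⟨0, hpos i⟩ h'
      have h2 := gd2_val h v ⟨0, hpos i⟩ (pk (fun j => v j ≠ v ⟨0, hpos i⟩) ⟨0, hpos i⟩)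
        (fun e => h1 e.symm)
      rw [h2]
      show Q i (p2 _ _) = _
      congr 1
      funext j
      unfold p2
      by_cases hj : j.val = 0
      · rw [if_pos hj, if_pos (Fin.ext hj)]
        rfl
      · rw [if_neg hj, if_neg (fun e => hj (by rw [e]))]
        rfl
    · rw [if_neg h']
      symm
      apply hc
      push Not at h'
      rintro ⟨j, l, h1⟩
      exact h1 ((h' j).trans (h' l).symm)

/-- Union with an invariant Borel class. -/
theorem vcu_or {V W : RS a → Prop} (hV : VCu V) (hW : VCu W)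
    (hm : MeasurableSet {x : RS a | W x}) (hi : Inv W) : VCu fun x => V x ∨ W x := by
  classical
  intro B hBm hBi hB
  have hsymm : ∀ x y : RS a, RIso x y → (W x ↔ W y) := fun x y h => ⟨hi x y h, hi y x (by
    obtain ⟨σ, h1⟩ := h
    refine ⟨σ.symm, fun i v => ?_⟩
    have h3 := h1 i (⇑σ.symm ∘ v)
    have e0 : (⇑σ ∘ ⇑σ.symm ∘ v) = v := by
      funext j
      simp
    rw [e0] at h3
    exact h3.symm)⟩
  have hred : ∀ x y : US a, UIso x y → RIso x.1 y.1 := by
    rintro x y ⟨σ, h1, -⟩
    exact ⟨σ, h1⟩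
  have hmW : MeasurableSet {y : US a | W y.1} := measurable_fst hm
  have d1 : UDich (B ∩ {y : US a | W y.1}) := hW _ (hBm.inter hmW)
    (fun x y h => and_congr (hBi x y h) (hsymm _ _ (hred x y h))) fun y hy => hy.2
  have d2 : UDich (B ∩ {y : US a | W y.1}ᶜ) := hV _ (hBm.inter hmW.compl)
    (fun x y h => and_congr (hBi x y h) (not_congr (hsymm _ _ (hred x y h)))) fun y hy => by
      rcases hB y hy.1 with h1 | h1
      · exact h1
      · exact absurd h1 hy.2
  rcases d1 with ⟨f, hf⟩ | ⟨g, g1, g2, g3⟩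
  · rcases d2 with ⟨f', hf'⟩ | ⟨g, g1, g2, g3⟩
    · left
      refine ⟨fun n => if n % 2 = 0 then f (n / 2) else f' (n / 2), fun x hx => ?_⟩
      by_cases hWx : W x.1
      · obtain ⟨n, hn⟩ := hf x ⟨hx, hWx⟩
        refine ⟨2 * n, ?_⟩
        have e1 : (2 * n) % 2 = 0 := by omega
        have e2 : (2 * n) / 2 = n := by omega
        simp only [e1, e2, if_true]
        exact hn
      · obtain ⟨n, hn⟩ := hf' x ⟨hx, hWx⟩
        refine ⟨2 * n + 1, ?_⟩
        have e1 : (2 * n + 1) % 2 ≠ 0 := by omega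
        have e2 : (2 * n + 1) / 2 = n := by omega
        simp only [e1, e2, if_false]
        exact hn
    · exact Or.inr ⟨g, g1, fun c => (g2 c).1, g3⟩
  · exact Or.inr ⟨g, g1, fun c => (g2 c).1, g3⟩

end Pool.Agent.W875.TS
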