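import Pool.Agent.W875.TS.MD4

set_option autoImplicit false

/-! Vaught's conjecture and the modular decomposition. -/

namespace Pool.Agent.W875.TS

open Set
open Pool.Agent.H533R2.VO (RS RIso VC Dich)
open Pool.Agent.H533R2.VS (act Canon p2 DecG VCu US UIso UDich Coan Inv)

variable {a : ℕ → ℕ} {x : RS a}

open Classical in
/-- The quotient structure. -/
noncomputable def qt (x : RS a) (e : ℕ → ℕ) : RS a :=
  fun i v => if ∃ j l, v j ≠ v l then x i (e ∘ v) else false

/-- All infinite prime quotients are in `V`. -/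
def MQ (V : RS a → Prop) (x : RS a) : Prop := ∀ (X : ℕ → Set ℕ) (e : ℕ → ℕ),
  (∀ n, e n ∈ X n) → (∀ n, Mdl x (X n)) → (∀ m n, m ≠ n → Disjoint (X m) (X n)) →
  Mdl x (⋃ n, X n) → Prm (qt x e) → V (qt x e)

theorem dm_trans {u v w z : ℕ} (h1 : dm x u v w) (h2 : dm x v z w) : dm x u z w := by
  rcases dm_c3 h2 u with h3 | h3
  · rcases dm_c3 (dm_symm h1) z with h4 | h4
    · exact absurd h4 (dm_c2 h3)
    · exact dm_symm h4
  · exact h3

/-- A node. -/
structure Nod (x : RS a) (e : ℕ → ℕ) : Prop where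
  inj : Function.Injective e
  star : ∀ l m n, l ≠ m → l ≠ n → m ≠ n → ¬ dm x (e l) (e m) (e n)
  full : ∀ u, ¬ dm x (e 0) (e 1) u → ∃ n, ∀ m, m ≠ n → dm x u (e n) (e m)

/-- The children. -/
def ch (x : RS a) (e : ℕ → ℕ) (n : ℕ) : Set ℕ := {u | ∀ m, m ≠ n → dm x u (e n) (e m)}

section nod

variable {e : ℕ → ℕ}

theorem Nod.self (h : Nod x e) (n : ℕ) : e n ∈ ch x e n :=
  fun _ hm => dm_refl fun he => hm (h.inj he).symm

theorem ch_mdl (n : ℕ) : Mdl x (ch x e n) := by
  intro i t k l b hk hb hl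
  have h1 : ∃ m, m ≠ n ∧ ¬ dm x (t l) (e n) (e m) := by
    by_contra hcon
    push Not at hcon
    exact hl hcon
  obtain ⟨m, hm, h1⟩ := h1
  apply dm_mod t k l b
  have h2 : dm x (t k) (e n) (t l) := (dm_c3 (hk m hm) (t l)).resolve_right h1
  have h3 : dm x b (e n) (t l) := (dm_c3 (hb m hm) (t l)).resolve_right h1
  exact dm_trans h2 (dm_symm h3)

theorem ch_disj {m n : ℕ} (h : m ≠ n) : Disjoint (ch x e m) (ch x e n) := by
  rw [Set.disjoint_left]
  intro u h1 h2
  exact dm_c2 (h1 n h.symm) (h2 m h)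

theorem ch_uniq {m n u : ℕ} (h1 : u ∈ ch x e m) (h2 : u ∈ ch x e n) : m = n := by
  by_contra h
  exact Set.disjoint_left.1 (ch_disj h) h1 h2

theorem Nod.out (h : Nod x e) {n u : ℕ} (hu : u ∈ ch x e n) : ¬ dm x (e 0) (e 1) u := by
  intro h1
  by_cases h0 : n = 0
  · subst h0
    exact dm_c2 (dm_symm (hu 1 (by norm_num))) h1
  by_cases h1' : n = 1
  · subst h1'
    exact dm_c2 (dm_symm (hu 0 (by norm_num))) (dm_symm h1)
  rcases dm_c3 h1 (e n) with h2 | h2
  · exact h.star 0 1 n (by norm_num) (fun e => h0 e.symm) (fun e => h1' e.symm) h2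
  · exact dm_c2 (dm_symm (hu 1 (fun e => h1' e.symm))) h2

theorem Nod.mem_iff (h : Nod x e) (u : ℕ) : u ∈ ⋃ n, ch x e n ↔ ¬ dm x (e 0) (e 1) u := by
  constructor
  · rw [mem_iUnion]
    rintro ⟨n, hn⟩
    exact h.out hn
  · intro hu
    obtain ⟨n, hn⟩ := h.full u hu
    exact mem_iUnion.2 ⟨n, hn⟩

theorem Nod.node_mdl (h : Nod x e) : Mdl x (⋃ n, ch x e n) := by
  intro i t k l b hk hb hl
  rw [h.mem_iff] at hk hb hl
  rw [not_not] at hl
  apply dm_mod t k l b
  have h1 : dm x (t k) (e 1) (t l) := (dm_c3 hl (t k)).resolve_left hk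
  have h2 : dm x b (e 1) (t l) := (dm_c3 hl b).resolve_left hb
  exact dm_trans h1 (dm_symm h2)

theorem ch_kappa {i : ℕ} (s s' : Fin (a i) → ℕ) (π : Fin (a i) → ℕ)
    (hs : ∀ j, s j ∈ ch x e (π j)) (hs' : ∀ j, s' j ∈ ch x e (π j))
    (hn : ∃ j l, π j ≠ π l) : x i s = x i s' := by
  classical
  have key : ∀ F : Finset (Fin (a i)),
      x i (fun k => if k ∈ F then s' k else s k) = x i s := by
    intro F
    induction F using Finset.induction_on with
    | empty => simp
    | insert k F hk ih =>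
      have e1 : (fun j => if j ∈ insert k F then s' j else s j) =
          Function.update (fun j => if j ∈ F then s' j else s j) k (s' k) := by
        funext j
        by_cases hj : j = k
        · subst hj
          simp
        · rw [Function.update_of_ne hj]
          simp [hj]
      have hcur : ∀ j, (if j ∈ F then s' j else s j) ∈ ch x e (π j) := by
        intro j
        split_ifs
        · exact hs' j
        · exact hs j
      have hl : ∃ l, π k ≠ π l := by
        obtain ⟨j, l, hjl⟩ := hn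
        by_cases h1 : π k = π j
        · exact ⟨l, fun h2 => hjl (h1.symm.trans h2)⟩
        · exact ⟨j, h1⟩
      obtain ⟨l, hl⟩ := hl
      rw [e1, ← ih]
      exact ch_mdl (π k) i _ k l (s' k) (hcur k) (hs' k) fun h1 => hl (ch_uniq h1 (hcur l))
  have h1 := key Finset.univ
  simp only [Finset.mem_univ, if_true] at h1
  exact h1.symm

theorem qt_val {i : ℕ} {v : Fin (a i) → ℕ} (h : ∃ j l, v j ≠ v l) :
    qt x e i v = x i (e ∘ v) := by
  unfold qt
  rw [if_pos h]

theorem qt_cst {i : ℕ} {v : Fin (a i) → ℕ} (h : ¬ ∃ j l, v j ≠ v l) :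
    qt x e i v = false := by
  unfold qt
  rw [if_neg h]

/-- Modules of the quotient give modules of the structure. -/
theorem Nod.up (h : Nod x e) {Y : Set ℕ} (hY : Mdl (qt x e) Y) :
    Mdl x (⋃ n ∈ Y, ch x e n) := by
  intro i t k l b hk hb hl
  have hsub : (⋃ n ∈ Y, ch x e n) ⊆ ⋃ n, ch x e n := by
    intro u hu
    rw [mem_iUnion₂] at hu
    obtain ⟨n, -, hn⟩ := hu
    exact mem_iUnion.2 ⟨n, hn⟩
  by_cases hex : ∃ l', t l' ∉ ⋃ n, ch x e n
  · obtain ⟨l', hl'⟩ := hex
    exact h.node_mdl i t k l' b (hsub hk) (hsub hb) hl'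
  push Not at hex
  have hπ : ∀ j, ∃ n, t j ∈ ch x e n := fun j => mem_iUnion.1 (hex j)
  choose π hπ using hπ
  rw [mem_iUnion₂] at hk hb
  obtain ⟨p, hp, hkp⟩ := hk
  obtain ⟨q, hq, hbq⟩ := hb
  have hkp' : π k = p := ch_uniq (hπ k) hkp
  have hl' : π l ∉ Y := fun h1 => hl (mem_iUnion₂.2 ⟨π l, h1, hπ l⟩)
  have hkl : l ≠ k := fun h1 => hl' (by rw [h1, hkp']; exact hp)
  have n1 : ∃ j l, π j ≠ π l := ⟨k, l, fun h1 => hl' (by rw [← h1, hkp']; exact hp)⟩
  have n2 : ∃ j l, Function.update π k q j ≠ Function.update π k q l := by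
    refine ⟨k, l, ?_⟩
    rw [Function.update_self, Function.update_of_ne hkl]
    exact fun h1 => hl' (by rw [← h1]; exact hq)
  have e1 : x i t = x i (e ∘ π) := ch_kappa t (e ∘ π) π hπ (fun j => h.self _) n1
  have e2 : x i (Function.update t k b) = x i (e ∘ Function.update π k q) := by
    refine ch_kappa _ _ (Function.update π k q) (fun j => ?_) (fun j => h.self _) n2
    by_cases hj : j = k
    · subst hj
      rw [Function.update_self, Function.update_self]
      exact hbq
    · rw [Function.update_of_ne hj, Function.update_of_ne hj]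
      exact hπ j
  have e3 := hY i π k l q (by rw [hkp']; exact hp) hq hl'
  rw [qt_val n1, qt_val n2] at e3
  rw [e1, e2, e3]

/-- Modules of the structure give modules of the quotient. -/
theorem qt_down (he : Function.Injective e) {X : Set ℕ} (hX : Mdl x X) :
    Mdl (qt x e) (e ⁻¹' X) := by
  intro i t k l b hk hb hl
  have hkl : l ≠ k := fun h1 => hl (by rw [h1]; exact hk)
  have n1 : ∃ j l, t j ≠ t l := ⟨k, l, fun h1 => hl (by rw [← h1]; exact hk)⟩
  have n2 : ∃ j l, Function.update t k b j ≠ Function.update t k b l := by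
    refine ⟨k, l, ?_⟩
    rw [Function.update_self, Function.update_of_ne hkl]
    exact fun h1 => hl (by rw [← h1]; exact hb)
  rw [qt_val n1, qt_val n2, comp_upd]
  exact hX i _ k l _ hk hb hl

theorem Nod.ml_iff (h : Nod x e) (p q n : ℕ) :
    n ∈ ml (qt x e) p q ↔ e n ∈ ml x (e p) (e q) := by
  constructor
  · intro h1
    exact h1 (e ⁻¹' ml x (e p) (e q)) (qt_down h.inj (ml_mdl _ _)) (ml_left _ _) (ml_right _ _)
  · intro h1
    have h2 := h1 _ (h.up (ml_mdl (x := qt x e) p q))
      (mem_iUnion₂.2 ⟨p, ml_left p q, h.self p⟩) (mem_iUnion₂.2 ⟨q, ml_right p q, h.self q⟩)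
    rw [mem_iUnion₂] at h2
    obtain ⟨n', h3, h4⟩ := h2
    rw [ch_uniq (h.self n) h4]
    exact h3

theorem Nod.nc (h : Nod x e) : Nc (qt x e) := by
  intro l m n h1 h2 h3 h4
  refine h.star l m n h1 h2 h3 ⟨?_, ?_, ?_⟩
  · rw [← h.ml_iff]
    exact h4.1
  · rw [← h.ml_iff]
    exact h4.2.1
  · rw [← h.ml_iff]
    exact h4.2.2

/-- The quotient at a node is prime or degenerate. -/
theorem Nod.dich (hpos : ∀ i, 0 < a i) (h : Nod x e) : Prm (qt x e) ∨ DecH (qt x e) := by
  rcases nc_prm h.nc with h1 | h1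
  · exact Or.inl h1
  · exact Or.inr (decH_of hpos (nc_gd2 h.nc h1) fun i v hv => qt_cst hv)

end nod

/-- Add an empty relation. -/
def az (x : RS a) : RS (aD a) := fun n =>
  match n with
  | 0 => fun _ => false
  | i + 1 => fun t => x i t

theorem canon_dD (a : ℕ → ℕ) : Canon (dD : RS (aD a) → RS a) az := by
  refine ⟨?_, ?_, ?_, ?_⟩
  · exact measurable_pi_lambda _ fun i => measurable_pi_apply (i + 1)
  · refine continuous_pi fun n => ?_
    match n with
    | 0 => exact continuous_const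
    | i + 1 => exact continuous_apply i
  · intro σ z
    rfl
  · intro σ z
    funext n t
    match n, t with
    | 0, t => rfl
    | i + 1, t => rfl

theorem tree_cD (hpos : ∀ i, 0 < a i) {V : RS a → Prop} (h : MQ V x) :
    IsTree 0 (fun R : RS (aD a) => (V (dD R) ∨ DecH (dD R)) ∧ az (dD R) = R) (cD x) := by
  classical
  have hD : ∀ u v w, cD x 0 (p3 u v w) = true ↔ dm x u v w := by
    intro u v w
    show decide (dm x _ _ _) = true ↔ _
    rw [decide_eq_true_eq]
    rfl
  have hD' : ∀ u v w, cD x 0 (p3 u v w) = false ↔ ¬ dm x u v w := by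
    intro u v w
    rw [← hD, Bool.not_eq_true]
  refine ⟨?_, ?_, ?_, ?_, ?_, ?_, ?_⟩
  · intro u w h1
    rw [hD]
    exact dm_refl h1
  · intro u v
    rw [hD']
    exact dm_irr u v
  · intro u v w h1
    rw [hD] at h1 ⊢
    exact dm_symm h1
  · intro u v w h1
    rw [hD] at h1
    rw [hD']
    exact dm_c2 h1
  · intro u v w h1 z
    rw [hD] at h1
    rw [hD, hD]
    exact dm_c3 h1 z
  · intro i hi t k l b h1
    match i, hi, t, k, l, h1 with
    | i + 1, hi, t, k, l, h1 =>
      rw [hD] at h1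
      exact dm_mod (x := x) (i := i) t k l b h1
  · intro e he h1 h2
    have hN : Nod x e := ⟨he, fun l m n a1 a2 a3 => (hD' _ _ _).1 (h1 l m n a1 a2 a3), fun u hu =>
      (h2 u ((hD' _ _ _).2 hu)).imp fun n hn m hm => (hD _ _ _).1 (hn m hm)⟩
    have e1 : (dD (fun i v => if i ≠ 0 ∧ ∃ j l, v j ≠ v l then cD x i (e ∘ v) else false) :
        RS a) = qt x e := by
      funext i v
      show (if i + 1 ≠ 0 ∧ ∃ j l, v j ≠ v l then x i (e ∘ v) else false) = qt x e i v
      unfold qt
      by_cases hv : ∃ j l, v j ≠ v l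
      · rw [if_pos hv, if_pos ⟨Nat.succ_ne_zero i, hv⟩]
      · rw [if_neg hv, if_neg fun hh => hv hh.2]
    refine ⟨?_, ?_⟩
    · rw [e1]
      rcases hN.dich hpos with h3 | h3
      · left
        exact h (ch x e) e hN.self (fun n => ch_mdl n) (fun m n hmn => ch_disj hmn)
          hN.node_mdl h3
      · exact Or.inr h3
    · funext n t
      match n, t with
      | 0, t =>
        show false = if 0 ≠ 0 ∧ _ then _ else false
        rw [if_neg fun hh => hh.1 rfl]
      | i + 1, t => rfl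

/-- Vaught's conjecture reduces to the prime quotients. -/
theorem ts_mod : ∀ a : ℕ → ℕ, (∀ i, 0 < a i) → ∀ V : RS a → Prop, VCu V → VCu (MQ V) := by
  intro a ha V hV
  have h1 : VCu (fun x : RS a => V x ∨ DecH x) :=
    vcu_or hV (vcu_decH a) (meas_decH a) (inv_decH a)
  have h2 := Pool.Agent.H533R2.VS.vs_exc (aD a) a dD az (canon_dD a) _ h1
  have hpos : ∀ i, 0 < aD a i := by
    intro i
    match i with
    | 0 => exact Nat.succ_pos 2
    | i + 1 => exact ha i
  have h3 := ts_tree (aD a) hpos 0 rfl _ h2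
  have h4 := Pool.Agent.H533R2.VS.vs_exc a (aD a) cD dD (canon_cD a) _ h3
  intro B hBm hBi hB
  exact h4 B hBm hBi fun x hx => ⟨tree_cD ha (hB x hx), rfl⟩

end Pool.Agent.W875.TS
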