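import Pool.Agent.W875.TS.ENC
import Pool.Agent.H533R2.VS.Spec3

set_option autoImplicit false

/-! The presentation is an ordered sum of generalised sums. -/

namespace Pool.Agent.W875.TS

open Set
open Pool.Agent.H899R2.VP hiding RS
open Pool.Agent.H533R2.VO (Glu Lev RS RIso VC)
open Pool.Agent.H533R2.VS (p2 IsSum IsOSum)

variable {A : ℕ → ℕ}

/-- The relations between children. -/
def kk (n : ℕ) : Bool := decide (3 ≤ n ∧ (n - 3).unpair.2 ≠ 0)

/-- The positions with nonzero entries. -/
def nz {k : ℕ} (v : Fin k → ℕ) : ℕ := Nat.ofBits (fun j : Fin k => decide (v j ≠ 0))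

theorem nz_iff {k : ℕ} (v : Fin k → ℕ) (j : Fin k) : (nz v).testBit j = true ↔ v j ≠ 0 := by
  unfold nz
  rw [Nat.testBit_ofBits_lt _ _ j.2]
  simp

open Classical in
/-- The structure with the centre as additional point `0`. -/
noncomputable def addpt (R : RS (bE A)) : RS A := fun i v =>
  if ∃ j l, v j ≠ v l then rd R i (nz v + 1) (fun j => v j - 1) else false

/-- The tuple `t + 1` at the places in `m`, `0` at the other places. -/
def sh {k : ℕ} (m : ℕ) (t : Fin k → ℕ) : Fin k → ℕ :=
  fun j => if m.testBit j = true then t j + 1 else 0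

/-- The relations recovered from the structure with the additional point. -/
def dpR (Q : RS A) (i : ℕ) : (c : ℕ) → (Fin (A i) → ℕ) → Prop
  | 0 => fun _ => False
  | m + 1 => fun t => okp m (· = ·) t ∧ Q i (sh m t) = true

/-- The inverse of `addpt`. -/
noncomputable def decp (Q : RS A) : RS (bE A) :=
  mk (fun _ _ => False) (fun _ _ => False) (fun _ _ _ => False) (dpR Q)

/-- The index structures. -/
def V1 (V : RS A → Prop) (R : RS (bE A)) : Prop :=
  (∀ σ : Equiv.Perm ℕ, V (fun i v => addpt R i (⇑σ ∘ v))) ∧ decp (addpt R) = R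

/-- The structure inside a child. -/
noncomputable def encI (M : St (aD A)) (f : ℕ → ℕ) : RS (bE A) :=
  mk (fun _ _ => False) (fun _ _ => False) (fun x y z => D M (f x) (f y) (f z))
    (fun i c t => c = 0 ∧ rl M i (f ∘ t) = true)

/-- The structures of the children. -/
def V2 (S : Set (St (aD A) × Set ℕ)) (R : RS (bE A)) : Prop :=
  ∃ (M : St (aD A)) (X : Set ℕ) (f : ℕ → ℕ), (M, X) ∈ S ∧ Function.Injective f ∧
    range f = X ∧ R = encI M f

theorem p2_eq (u v : ℕ) : (p2 u v : Fin 2 → ℕ) = ![u, v] := by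
  funext k
  fin_cases k <;> rfl

theorem Ob_0' (N : St (aD A)) (B : ℕ → ℕ → Prop) (x y : ℕ) :
    Ob N B 0 (p2 x y) = true ↔ B x y := mk_0 _ _ _ _ _

theorem Ob_1' (N : St (aD A)) (B : ℕ → ℕ → Prop) (x y : ℕ) :
    Ob N B 1 (p2 x y) = true ↔ Sm N B x y := mk_1 _ _ _ _ _

section sums

variable {S : Set (St (aD A) × Set ℕ)} {N : St (aD A)} {B : ℕ → ℕ → Prop}

/-- All relations hold only inside levels. -/
theorem Ctr.inside (hC : Ctr S N B) (n : ℕ) (hn : n ≠ 0) (t : Fin (bE A n) → ℕ)
    (h : Ob N B n t = true) (j l : Fin (bE A n)) : Lv B (t j) (t l) := by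
  match n, hn, t, h, j, l with
  | 1, _, t, h, j, l =>
    have h1 : Sm N B (t 0) (t 1) := (mk_1 _ _ _ _ t).1 h
    have h2 : ∀ j : Fin 2, Lv B (t 0) (t j) := by
      intro j
      fin_cases j
      · exact hC.lv_refl _
      · exact hC.sm_lv h1
    exact hC.lv_trans (h2 j).symm' (h2 l)
  | 2, _, t, h, j, l =>
    have h1 : Sm N B (t 0) (t 1) ∧ Sm N B (t 0) (t 2) ∧ D N (t 0) (t 1) (t 2) :=
      (mk_2 _ _ _ _ t).1 h
    have h2 : ∀ j : Fin 3, Lv B (t 0) (t j) := by
      intro j
      fin_cases j
      · exact hC.lv_refl _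
      · exact hC.sm_lv h1.1
      · exact hC.sm_lv h1.2.1
    exact hC.lv_trans (h2 j).symm' (h2 l)
  | n + 3, _, t, h, j, l =>
    rw [rd_eq (Ob N B) n t, rd_Ob] at h
    cases hc : n.unpair.2 with
    | zero =>
      rw [hc] at h
      exact hC.sm_lv (h.1 j l)
    | succ m =>
      rw [hc] at h
      exact h.1 j l

theorem kk_true {n : ℕ} (h : kk n = true) : ∃ m i, n = m + 3 ∧ m.unpair.2 = i + 1 := by
  unfold kk at h
  rw [decide_eq_true_eq] at h
  exact ⟨n - 3, (n - 3).unpair.2 - 1, by omega, by omega⟩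

theorem kk_succ {n m : ℕ} (h : n.unpair.2 = m + 1) : kk (n + 3) = true := by
  unfold kk
  rw [decide_eq_true_eq]
  simp [h]

theorem kk_zero {n : ℕ} (h : n.unpair.2 = 0) : kk (n + 3) = false := by
  unfold kk
  rw [decide_eq_false_iff_not]
  simp [h]

theorem kk_rd (i c : ℕ) : kk (ix i c + 3) = decide (c ≠ 0) := by
  unfold kk ix
  simp

/-- The relations between children depend only on the children. -/
theorem Ctr.across (hC : Ctr S N B) (i m : ℕ) (t t' : Fin (A i) → ℕ)
    (h : ∀ j, Sm N B (t j) (t' j)) (h1 : ObR N B i (m + 1) t) : ObR N B i (m + 1) t' := by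
  obtain ⟨h2, h3, b, h4, h5⟩ := h1
  have hlv : ∀ j, Lv B (t j) (t' j) := fun j => hC.sm_lv (h j)
  have hok : okp m (Sm N B) t' := by
    rcases h3 with h3 | ⟨j, l, h6, h7, h8⟩
    · exact Or.inl h3
    · refine Or.inr ⟨j, l, h6, h7, fun h9 => h8 ?_⟩
      exact hC.sm_trans (hC.sm_trans (h j) h9) (hC.sm_symm (h l))
  refine ⟨fun j l => hC.lv_trans (hC.lv_trans (hlv j).symm' (h2 j l)) (hlv l), hok, b,
    fun j => (hC.lvB (hlv j)).1 (h4 j), ?_⟩
  rw [← h5]
  have h6 : ∃ j0 : Fin (A i), True := by
    rcases h3 with ⟨j, -⟩ | ⟨j, -⟩ <;> exact ⟨j, trivial⟩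
  obtain ⟨j0, -⟩ := h6
  symm
  have e1 : ∀ (s : Fin (A i) → ℕ) (k : Fin (A i)), m.testBit k = true → mx m s b k = s k :=
    fun s k hk => by
      unfold mx
      rw [if_pos hk]
  have e2 : ∀ (s : Fin (A i) → ℕ) (k : Fin (A i)), m.testBit k = false → mx m s b k = b :=
    fun s k hk => by
      unfold mx
      rw [if_neg (by rw [hk]; exact Bool.false_ne_true)]
  refine hC.rl_eq (t j0) _ _ ?_ ?_ ?_
  · intro k
    cases hk : m.testBit k with
    | true => rw [e1 t k hk]; exact Or.inr (h2 k j0)
    | false => rw [e2 t k hk]; exact Or.inl (h4 j0)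
  · intro k
    cases hk : m.testBit k with
    | true => rw [e1 t k hk, e1 t' k hk]; exact Or.inr ⟨h2 k j0, h k⟩
    | false => rw [e2 t k hk, e2 t' k hk]; exact Or.inl ⟨h4 j0, h4 j0⟩
  · rcases h3 with ⟨j, l, h7, h8⟩ | ⟨j, l, h7, h8, h9⟩
    · refine Or.inl ⟨l, j, ?_, ?_⟩
      · rw [e2 t l h8]; exact h4 j0
      · rw [e1 t j h7]; exact h2 j j0
    · refine Or.inr ⟨j, l, ?_, ?_, ?_⟩
      · rw [e1 t j h7]; exact h2 j j0
      · rw [e1 t l h8]; exact h2 l j0
      · rw [e1 t j h7, e1 t l h8]; exact h9

/-- Permuted enumerations of nodes. -/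
theorem NE.perm (hN : Cs N) {e : ℕ → ℕ} (he : NE N e) (σ : Equiv.Perm ℕ) : NE N (e ∘ σ) := by
  have hnd : ∀ l m k, l ≠ m → e k ∈ Nd N (e l) (e m) := by
    intro l m k hlm h1
    by_cases h2 : k = l
    · subst h2
      exact hN.irr _ _ h1
    by_cases h3 : k = m
    · subst h3
      exact hN.irr _ _ (hN.symm _ _ _ h1)
    exact he.star l m k hlm (Ne.symm h2) (Ne.symm h3) h1
  refine ⟨he.inj.comp σ.injective, ?_, ?_⟩
  · intro l m n h1 h2 h3
    exact he.star _ _ _ (fun h => h1 (σ.injective h)) (fun h => h2 (σ.injective h))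
      (fun h => h3 (σ.injective h))
  · intro u hu
    have hne : σ 0 ≠ σ 1 := fun h => absurd (σ.injective h) (by norm_num)
    have h1 : u ∈ Nd N (e 0) (e 1) := by
      have h2 : Nd N (e (σ 0)) (e (σ 1)) ⊆ Nd N (e 0) (e 1) :=
        hN.nsub (hnd 0 1 _ (by norm_num)) (hnd 0 1 _ (by norm_num))
      exact h2 hu
    obtain ⟨n, hn⟩ := he.full u h1
    refine ⟨σ.symm n, fun m hm => ?_⟩
    simp only [Function.comp_apply, Equiv.apply_symm_apply]
    refine hn (σ m) fun h => hm ?_
    rw [← h, Equiv.symm_apply_apply]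

/-- The additional point. -/
def ep (b : ℕ) (g : ℕ → ℕ) : ℕ → ℕ
  | 0 => b
  | n + 1 => g n

/-- The node at a level, with a representative of the centre. -/
theorem Ctr.ne_level (hC : Ctr S N B) {b : ℕ} {g : ℕ → ℕ} (hb : ∀ n, B b (g n))
    (hlv : ∀ m n, Lv B (g m) (g n)) (hinj : ∀ m n, Sm N B (g m) (g n) → m = n)
    (hsurj : ∀ u, Lv B u (g 0) → ∃ n, Sm N B (g n) u) : NE N (ep b g) := by
  have hcs := hC.cs
  have hbs : ∀ n, ¬ Sm N B b (g n) := fun n h => (hC.sm_lv h).1 (hb n)
  have hstar : ∀ x y w, ¬ B x w → ¬ Sm N B x y → ¬ D N x y w := by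
    intro x y w h1 h2 h3
    rcases (hC.D_iff x y w).1 h3 with h4 | h4
    · exact h1 h4.1
    · exact h2 h4.1
  refine ⟨?_, ?_, ?_⟩
  · intro m n h
    cases m with
    | zero =>
      cases n with
      | zero => rfl
      | succ n => exact absurd (Or.inl h) (hbs n)
    | succ m =>
      cases n with
      | zero => exact absurd (Or.inl h.symm) (hbs m)
      | succ n =>
        have := hinj m n (Or.inl h)
        rw [this]
  · intro l m n h1 h2 h3
    cases l with
    | zero =>
      cases m with
      | zero => exact absurd rfl h1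
      | succ m =>
        cases n with
        | zero => exact absurd rfl h2
        | succ n =>
          intro h4
          have h5 := hcs.symm _ _ _ h4
          exact hstar (g m) b (g n) (hlv m n).1 (fun h => hbs m (hC.sm_symm h)) h5
    | succ l =>
      cases m with
      | zero =>
        cases n with
        | zero => exact absurd rfl h3
        | succ n =>
          exact hstar (g l) b (g n) (hlv l n).1 (fun h => hbs l (hC.sm_symm h))
      | succ m =>
        have hlm : ¬ Sm N B (g l) (g m) := fun h => h1 (by rw [hinj l m h])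
        cases n with
        | zero => exact hstar (g l) (g m) b (hC.asy (hb l)) hlm
        | succ n => exact hstar (g l) (g m) (g n) (hlv l n).1 hlm
  · intro u hu
    have hu' : ¬ B (g 0) u := by
      intro h
      apply hu
      exact hC.coneD (hC.tr (hb 0) h) h
    by_cases hc : B u (g 0)
    · refine ⟨0, fun m hm => ?_⟩
      cases m with
      | zero => exact absurd rfl hm
      | succ m =>
        have h1 : B u (g m) := (hC.lvB (hlv 0 m)).1 hc
        exact hC.coneD h1 (hb m)
    · obtain ⟨n, hn⟩ := hsurj u ⟨hc, hu'⟩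
      have hn' := hC.sm_symm hn
      refine ⟨n + 1, fun m hm => ?_⟩
      cases m with
      | zero =>
        refine (hC.sm_iff ?_).1 hn'
        exact (hC.lvB (hC.sm_lv hn)).1 (hb n)
      | succ m =>
        refine hC.out hn' fun h => hm ?_
        rw [hinj n m (hC.sm_trans hn h)]

theorem mk_val {O : RS (bE A)} {i c : ℕ} {t : Fin (A i) → ℕ} : rd O i c t =
    O (ix i c + 3) (fun j => t (Fin.cast (ix_ar i c) j)) := rfl

/-- The index structure at a level. -/
theorem Ctr.index (hC : Ctr S N B) {V : RS A → Prop} (hV : NV V N) {b : ℕ} {g : ℕ → ℕ}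
    (hb : ∀ n, B b (g n)) (hlv : ∀ m n, Lv B (g m) (g n))
    (hinj : ∀ m n, Sm N B (g m) (g n) → m = n)
    (hsurj : ∀ u, Lv B u (g 0) → ∃ n, Sm N B (g n) u) (R : RS (bE A))
    (hR0 : ∀ t, R 0 t = false) (hR1 : ∀ t, R 1 t = false) (hR2 : ∀ t, R 2 t = false)
    (hR3 : ∀ i t, rd R i 0 t = false)
    (hR4 : ∀ i m t, rd R i (m + 1) t = true ↔ ObR N B i (m + 1) (g ∘ t)) : V1 V R := by
  have hNE := hC.ne_level hb hlv hinj hsurj
  have hcs := hC.cs
  -- the value of a relation
  have hval : ∀ i m (t : Fin (A i) → ℕ), okp m (· = ·) t →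
      (rd R i (m + 1) t = true ↔ rl N i (mx m (g ∘ t) b) = true) := by
    intro i m t hok
    have hok' : okp m (Sm N B) (g ∘ t) := by
      rcases hok with h1 | ⟨j, l, h1, h2, h3⟩
      · exact Or.inl h1
      · exact Or.inr ⟨j, l, h1, h2, fun h4 => h3 (hinj _ _ h4)⟩
    have hj0 : ∃ j0 : Fin (A i), True := by
      rcases hok with ⟨j, -⟩ | ⟨j, -⟩ <;> exact ⟨j, trivial⟩
    obtain ⟨j0, -⟩ := hj0
    rw [hR4]
    constructor
    · rintro ⟨-, -, b', h1, h2⟩
      rw [← h2]
      have h3 := hC.pat (g ∘ t) (g (t j0)) (fun j _ => hlv _ _) hok' (mx m (g ∘ t) b)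
        (fun j hj => by unfold mx; rw [if_pos hj])
        (fun j hj => by
          unfold mx
          rw [if_neg (by rw [hj]; exact Bool.false_ne_true)]
          exact hb _) (h1 j0)
      rw [h3]
    · intro h1
      exact ⟨fun j l => hlv _ _, hok', b, fun j => hb _, h1⟩
  have hval' : ∀ i m (t : Fin (A i) → ℕ), rd R i (m + 1) t = true → okp m (· = ·) t := by
    intro i m t h1
    rw [hR4] at h1
    rcases h1.2.1 with h2 | ⟨j, l, h2, h3, h4⟩
    · exact Or.inl h2
    · refine Or.inr ⟨j, l, h2, h3, fun h5 => h4 (Or.inl ?_)⟩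
      show g (t j) = g (t l)
      rw [show t j = t l from h5]
  have hadd : addpt R = Qt N (ep b g) := by
    funext i v
    unfold addpt Qt
    by_cases hv : ∃ j l, v j ≠ v l
    · rw [if_pos hv, if_pos hv, Bool.eq_iff_iff]
      have hok : okp (nz v) (· = ·) (fun j => v j - 1) := by
        by_cases hz : ∃ l, v l = 0
        · obtain ⟨l, hl⟩ := hz
          obtain ⟨j1, j2, h12⟩ := hv
          have hj : ∃ j, v j ≠ 0 := by
            by_cases h1 : v j1 = 0
            · exact ⟨j2, fun h2 => h12 (h1.trans h2.symm)⟩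
            · exact ⟨j1, h1⟩
          obtain ⟨j, hj⟩ := hj
          refine Or.inl ⟨j, l, (nz_iff v j).2 hj, ?_⟩
          rw [← Bool.not_eq_true, nz_iff]
          exact fun h => h hl
        · push Not at hz
          obtain ⟨j, l, h12⟩ := hv
          refine Or.inr ⟨j, l, (nz_iff v j).2 (hz j), (nz_iff v l).2 (hz l), ?_⟩
          have := hz j
          have := hz l
          show ¬ (v j - 1 = v l - 1)
          omega
      rw [hval i _ _ hok]
      have e : mx (nz v) (g ∘ fun j => v j - 1) b = ep b g ∘ v := by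
        funext j
        unfold mx
        by_cases h1 : v j = 0
        · rw [if_neg (by rw [nz_iff]; exact fun h => h h1)]
          simp only [Function.comp_apply, h1]
          rfl
        · rw [if_pos ((nz_iff v j).2 h1)]
          obtain ⟨n, hn⟩ := Nat.exists_eq_succ_of_ne_zero h1
          simp only [Function.comp_apply, hn]
          rfl
      rw [e]
    · rw [if_neg hv, if_neg hv]
  refine ⟨fun σ => ?_, ?_⟩
  · have h1 := hV _ (hNE.perm hcs σ)
    have h2 : (fun i v => addpt R i (⇑σ ∘ v)) = Qt N (ep b g ∘ σ) := by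
      rw [hadd]
      funext i v
      unfold Qt
      by_cases hv : ∃ j l, v j ≠ v l
      · have hv' : ∃ j l, (⇑σ ∘ v) j ≠ (⇑σ ∘ v) l := by
          obtain ⟨j, l, h⟩ := hv
          exact ⟨j, l, fun h' => h (σ.injective h')⟩
        rw [if_pos hv, if_pos hv']
        rfl
      · have hv' : ¬ ∃ j l, (⇑σ ∘ v) j ≠ (⇑σ ∘ v) l := by
          rintro ⟨j, l, h⟩
          exact hv ⟨j, l, fun h' => h (congrArg σ h')⟩
        rw [if_neg hv, if_neg hv']
    rw [h2]
    exact h1
  · refine RS_ext ?_ ?_ ?_ ?_
    · intro x y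
      rw [hR0, ← Bool.not_eq_true]
      exact fun h => (mk_0 _ _ _ _ _).1 h
    · intro x y
      rw [hR1, ← Bool.not_eq_true]
      exact fun h => (mk_1 _ _ _ _ _).1 h
    · intro x y z
      rw [hR2, ← Bool.not_eq_true]
      exact fun h => (mk_2 _ _ _ _ _).1 h
    · intro i c t
      cases c with
      | zero =>
        rw [hR3, ← Bool.not_eq_true]
        exact fun h => (rd_mk _ _ _ _ _ _ _).1 h
      | succ m =>
        rw [Bool.eq_iff_iff]
        have e1 : rd (decp (addpt R)) i (m + 1) t = true ↔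
            okp m (· = ·) t ∧ addpt R i (sh m t) = true := rd_mk _ _ _ _ _ _ _
        rw [e1]
        constructor
        · rintro ⟨hok, h1⟩
          rw [hval i m t hok]
          rw [hadd] at h1
          unfold Qt at h1
          split_ifs at h1 with hv
          rw [← h1]
          congr 1
          funext j
          unfold mx sh
          simp only [Function.comp_apply]
          split_ifs <;> rfl
        · intro h1
          have hok := hval' i m t h1
          refine ⟨hok, ?_⟩
          rw [hval i m t hok] at h1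
          rw [hadd]
          unfold Qt
          have hv : ∃ j l, sh m t j ≠ sh m t l := by
            rcases hok with ⟨j, l, h2, h3⟩ | ⟨j, l, h2, h3, h4⟩
            · refine ⟨j, l, ?_⟩
              unfold sh
              rw [if_pos h2, if_neg (by rw [h3]; exact Bool.false_ne_true)]
              omega
            · refine ⟨j, l, ?_⟩
              unfold sh
              rw [if_pos h2, if_pos h3]
              intro h5
              exact h4 (by show t j = t l; omega)
          rw [if_pos hv, ← h1]
          congr 1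
          funext j
          unfold mx sh
          simp only [Function.comp_apply]
          split_ifs <;> rfl

/-- The presentation is an ordered sum of generalised sums. -/
theorem Ctr.sum (hC : Ctr S N B) {V : RS A → Prop} (hV : NV V N) :
    IsOSum 0 (IsSum 1 kk (V1 V) (V2 S)) (Ob N B) := by
  have hcs := hC.cs
  refine ⟨?_, ?_, ?_, ?_, ?_⟩
  · intro u
    rw [bool_false (Ob_0' N B u u)]
    exact hC.irr
  · intro u v w h1 h2
    rw [Ob_0'] at h1 h2 ⊢
    exact hC.tr h1 h2
  · intro u v w h1
    rw [Ob_0'] at h1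
    rw [Ob_0', Ob_0']
    exact hC.wk v h1
  · intro i hi t h j l
    rw [bool_false (Ob_0' N B _ _)]
    exact (hC.inside i hi t h j l).1
  · intro u e he hz
    -- the level
    have hlev : ∀ z, Lv B z u ↔ ∃ n, e n = z := by
      intro z
      rw [← hz z, bool_false (Ob_0' N B _ _), bool_false (Ob_0' N B _ _)]
      exact Iff.rfl
    have hlu : ∀ n, Lv B (e n) u := fun n => (hlev _).2 ⟨n, rfl⟩
    have hll : ∀ m n, Lv B (e m) (e n) := fun m n => hC.lv_trans (hlu m) (hlu n).symm'
    have hbex : ∃ b, B b u := by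
      by_contra hno
      have key : ∀ n, e n = u := by
        intro n
        by_contra hne
        exact (hlu n).2 (hC.cen u hno _ hne)
      exact absurd (he ((key 0).trans (key 1).symm)) (by norm_num)
    obtain ⟨b, hbu⟩ := hbex
    have hb : ∀ n, B b (e n) := fun n => (hC.lvB (hlu n)).2 hbu
    -- the structure
    obtain ⟨y, hy⟩ : ∃ y : RS (bE A), y = fun i v => if i ≠ 0 then Ob N B i (e ∘ v) else false :=
      ⟨_, rfl⟩
    rw [← hy]
    have y0 : ∀ t, y 0 t = false := by
      intro t
      rw [hy]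
      simp
    have y1 : ∀ x z, y 1 (p2 x z) = true ↔ Sm N B (e x) (e z) := by
      intro x z
      rw [hy]
      simp only [ne_eq, one_ne_zero, not_false_eq_true, if_true]
      exact mk_1 _ _ _ _ _
    have y1' : ∀ t : Fin 2 → ℕ, y 1 t = true ↔ Sm N B (e (t 0)) (e (t 1)) := by
      intro t
      rw [hy]
      simp only [ne_eq, one_ne_zero, not_false_eq_true, if_true]
      exact mk_1 _ _ _ _ _
    have y2 : ∀ t : Fin 3 → ℕ, y 2 t = true ↔ Sm N B (e (t 0)) (e (t 1)) ∧
        Sm N B (e (t 0)) (e (t 2)) ∧ D N (e (t 0)) (e (t 1)) (e (t 2)) := by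
      intro t
      rw [hy]
      simp only [ne_eq, OfNat.ofNat_ne_zero, not_false_eq_true, if_true]
      exact mk_2 _ _ _ _ _
    have y3 : ∀ i c (t : Fin (A i) → ℕ), rd y i c t = true ↔ ObR N B i c (e ∘ t) := by
      intro i c t
      rw [← rd_Ob]
      have : rd y i c t = rd (Ob N B) i c (e ∘ t) := by
        rw [hy]
        rfl
      rw [this]
    refine ⟨?_, ?_, ?_, ?_, ?_, ?_, ?_⟩
    · intro x
      exact (y1 x x).2 Sm.rfl'
    · intro x z h
      exact (y1 z x).2 (hC.sm_symm ((y1 x z).1 h))
    · intro x z w h h'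
      exact (y1 x w).2 (hC.sm_trans ((y1 x z).1 h) ((y1 z w).1 h'))
    · intro i hi hk t h j l
      rw [y1]
      match i, hi, hk, t, h, j, l with
      | 0, hi, hk, t, h, j, l => rw [y0] at h; exact absurd h Bool.false_ne_true
      | 2, hi, hk, t, h, j, l =>
        have h1 := (y2 t).1 h
        have h2 : ∀ j : Fin 3, Sm N B (e (t 0)) (e (t j)) := by
          intro j
          fin_cases j
          · exact Sm.rfl'
          · exact h1.1
          · exact h1.2.1
        exact hC.sm_trans (hC.sm_symm (h2 j)) (h2 l)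
      | n + 3, hi, hk, t, h, j, l =>
        rw [rd_eq y n t, y3] at h
        cases hc : n.unpair.2 with
        | zero =>
          rw [hc] at h
          exact h.1 j l
        | succ m =>
          rw [kk_succ hc] at hk
          exact absurd hk.symm Bool.false_ne_true
    · intro i _ hk t t' h
      obtain ⟨n, m, rfl, hm⟩ := kk_true hk
      have h' : ∀ j, Sm N B (e (t j)) (e (t' j)) := fun j => (y1 _ _).1 (h j)
      rw [rd_eq y n t, rd_eq y n t', Bool.eq_iff_iff, y3, y3, hm]
      exact ⟨hC.across _ _ _ _ h', hC.across _ _ _ _ fun j => hC.sm_symm (h' j)⟩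
    · intro u' E hE hEz
      refine ⟨N, Cn N (e u') b, e ∘ E, hC.thin _ _ (hb u'), he.comp hE, ?_, ?_⟩
      · ext z
        constructor
        · rintro ⟨n, rfl⟩
          have h1 := (y1 _ _).1 ((hEz (E n)).2 ⟨n, rfl⟩)
          exact (hC.sm_iff (hb u')).1 h1
        · intro hz
          have h1 : Sm N B (e u') z := (hC.sm_iff (hb u')).2 hz
          obtain ⟨k, rfl⟩ := (hlev z).1 (hC.lv_trans (hC.sm_lv h1).symm' (hlu u'))
          obtain ⟨n, hn⟩ := (hEz k).1 ((y1 _ _).2 h1)
          exact ⟨n, by rw [Function.comp_apply, hn]⟩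
      · have hsm : ∀ x z, Sm N B (e (E x)) (e (E z)) := fun x z =>
          hC.sm_trans (hC.sm_symm ((y1 _ _).1 ((hEz (E x)).2 ⟨x, rfl⟩)))
            ((y1 _ _).1 ((hEz (E z)).2 ⟨z, rfl⟩))
        refine RS_ext ?_ ?_ ?_ ?_
        · intro x z
          have h1 : (if (0 : ℕ) ≠ 1 ∧ kk 0 = false then y 0 (E ∘ ![x, z]) else false) = false := by
            rw [y0]
            simp
          refine h1.trans ?_
          symm
          rw [← Bool.not_eq_true]
          exact fun h => (mk_0 _ _ _ _ _).1 h
        · intro x z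
          have h1 : (if (1 : ℕ) ≠ 1 ∧ kk 1 = false then y 1 (E ∘ ![x, z]) else false) = false := by
            simp
          refine h1.trans ?_
          symm
          rw [← Bool.not_eq_true]
          exact fun h => (mk_1 _ _ _ _ _).1 h
        · intro x z w
          have h1 : (if (2 : ℕ) ≠ 1 ∧ kk 2 = false then y 2 (E ∘ ![x, z, w]) else false) =
              y 2 (E ∘ ![x, z, w]) := by
            rw [if_pos ⟨by norm_num, rfl⟩]
          refine h1.trans ?_
          rw [Bool.eq_iff_iff, y2]
          have h2 : encI N (e ∘ E) 2 ![x, z, w] = true ↔ D N (e (E x)) (e (E z)) (e (E w)) :=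
            mk_2 _ _ _ _ _
          rw [h2]
          exact ⟨fun h => h.2.2, fun h => ⟨hsm _ _, hsm _ _, h⟩⟩
        · intro i c t
          have h1 : rd (fun i v => if i ≠ 1 ∧ kk i = false then y i (E ∘ v) else false) i c t =
              if c = 0 then rd y i c (E ∘ t) else false := by
            show (if ix i c + 3 ≠ 1 ∧ kk (ix i c + 3) = false then _ else false) = _
            rw [kk_rd]
            by_cases hc : c = 0
            · rw [if_pos hc, if_pos ⟨by omega, by simp [hc]⟩]
              rfl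
            · rw [if_neg hc, if_neg]
              rintro ⟨-, h2⟩
              simp [hc] at h2
          rw [h1, Bool.eq_iff_iff]
          have h2 : rd (encI N (e ∘ E)) i c t = true ↔
              c = 0 ∧ rl N i ((e ∘ E) ∘ t) = true := rd_mk _ _ _ _ _ _ _
          rw [h2]
          by_cases hc : c = 0
          · subst hc
            rw [if_pos rfl, y3]
            constructor
            · intro h; exact ⟨rfl, h.2⟩
            · intro h; exact ⟨fun j l => hsm _ _, h.2⟩
          · rw [if_neg hc]
            constructor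
            · intro h; exact absurd h Bool.false_ne_true
            · intro h; exact absurd h.1 hc
    · intro E hE1 hE2
      refine hC.index hV (b := b) (g := e ∘ E) (fun n => hb _) (fun m n => hll _ _) ?_ ?_ _
        ?_ ?_ ?_ ?_ ?_
      · intro m n h
        exact (hE1 m n).1 ((y1 _ _).2 h)
      · intro w hw
        obtain ⟨k, rfl⟩ := (hlev w).1 (hC.lv_trans hw (hlu (E 0)))
        obtain ⟨n, hn⟩ := hE2 k
        exact ⟨n, (y1 _ _).1 hn⟩
      · intro t
        simp [kk]
      · intro t
        simp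
      · intro t
        have : ¬ ((2 : ℕ) ≠ 1 ∧ kk 2 = true) := by
          rintro ⟨-, h⟩
          exact absurd h (by decide)
        exact if_neg this
      · intro i t
        show (if ix i 0 + 3 ≠ 1 ∧ kk (ix i 0 + 3) = true then _ else false) = _
        rw [kk_rd]
        simp
      · intro i m t
        have h1 : rd (fun i v => if i ≠ 1 ∧ kk i = true then y i (E ∘ v) else false) i (m + 1) t =
            rd y i (m + 1) (E ∘ t) := by
          show (if ix i (m + 1) + 3 ≠ 1 ∧ kk (ix i (m + 1) + 3) = true then _ else false) = _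
          rw [kk_rd, if_pos ⟨by omega, by simp⟩]
          rfl
        rw [h1, y3]
        rfl

end sums

end Pool.Agent.W875.TS
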