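import Pool.Agent.W875.TS.Lib
import Pool.Agent.H533R2.VD.Lib
import Pool.Agent.H533R2.VS.Spec

set_option autoImplicit false

/-! Statements of the steps of the proof. -/

namespace Pool.Agent.W875.TS

open Set
open Pool.Agent.H899R2.VP hiding RS
open Pool.Agent.H533R2.VO (Glu Lev RS)
open Pool.Agent.H533R2.VS (VCu)

variable (A : ℕ → ℕ)

/-- `Cs` is universal. -/
def S_CSBF : Prop := ∀ (α : Ordinal.{0}) (M N : St (aD A)) (X : Set ℕ), Ordinal.omega0 ≤ α →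
  Cs M → BF M N X univ α ∅ → Cs N

/-! ### General facts -/

def S_LEV3 : Prop := ∀ S : Set (St (aD A) × Set ℕ), CF S →
  ∃ l : Ordinal.{0}, l < Ordinal.omega 1 ∧ Ordinal.omega0 ≤ l ∧ Lev S l

def S_GENC : Prop := ∀ f : ℕ → St (aD A) × Set ℕ, ∃ S : Set (St (aD A) × Set ℕ),
  CF S ∧ ∀ n, f n ∈ S

def S_GENUC : Prop := ∀ (ι : Type 1) [Countable ι] (F : ι → Set (St (aD A) × Set ℕ)),
  (∀ i, CF (F i)) → ∃ S : Set (St (aD A) × Set ℕ), CF S ∧ ∀ i, F i ⊆ S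

def S_LAB3 : Prop := ∀ (V : RS A → Prop) (α : Ordinal.{0}) (K : Set (St (aD A))), GC V α K →
  ∀ β : Ordinal.{0}, β < Ordinal.omega 1 → ∃ c : St (aD A) → List ℕ → ℕ, ∀ M ∈ K, ∀ N ∈ K,
  ∀ s t : List ℕ, s.length = t.length → c M s = c N t → BF M N univ univ β (zipSet s t)

/-- Measurability of membership in a family and of types. -/
def S_MS : Prop := ∀ (S : Set (St (aD A) × Set ℕ)) (l : Ordinal.{0}), CF S → Lev S l →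
  l < Ordinal.omega 1 → (∀ x z, MeasurableSet {M : St (aD A) | (M, Cn M x z) ∈ S}) ∧
  ∀ P ∈ S, ∀ x z, MeasurableSet {M : St (aD A) | IsoOn P.1 M P.2 (Cn M x z) ∅}

/-- Transport of an infinite piece to `ℕ`. -/
def S_TRX : Prop := ∀ (M : St (aD A)) (X : Set ℕ), X.Infinite →
  ∃ N : St (aD A), IsoOn M N X univ ∅

/-- Transport of an equivalent piece. -/
def S_TRP3 : Prop := ∀ (M N : St (aD A)) (X Y : Set ℕ) (α : Ordinal.{0}),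
  Ordinal.omega0 ≤ α → BF M N X Y α ∅ → ∃ T : St (aD A), IsoOn N T Y X ∅

def S_BASE3 : Prop := ∀ (V : RS A → Prop) (α : Ordinal.{0}) (K : Set (St (aD A))), GC V α K →
  ∃ S : Set (St (aD A) × Set ℕ), CF S ∧
  ∀ M ∈ K, ∀ x z, x ≠ z → (M, Cn M x z) ∉ S → ¬ Small α M (Cn M x z)

/-! ### Replacement -/

/-- The values of mixed tuples depend only on the cones. -/
def S_MIX : Prop := ∀ (ι : Type) (M : St (aD A)) (x z : ι → ℕ), Cs M →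
  (∀ i j, i ≠ j → Disjoint (Cn M (x i) (z i)) (Cn M (x j) (z j))) →
  ∀ (i : ℕ) (t t' : Fin (aD A i) → ℕ),
  (∀ k j, t k ∈ Cn M (x j) (z j) ↔ t' k ∈ Cn M (x j) (z j)) →
  (∀ k, (∀ j, t k ∉ Cn M (x j) (z j)) → t k = t' k) →
  (¬ ∃ j, ∀ k, t k ∈ Cn M (x j) (z j)) → M.2 i t = M.2 i t'

def S_GLB3 : Prop := (∀ i, 0 < A i) → ∀ (ι : Type) (α : Ordinal.{0}) (M : St (aD A))
  (x z : ι → ℕ) (T : ι → St (aD A)), Ordinal.omega0 ≤ α → Cs M →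
  (∀ i j, i ≠ j → Disjoint (Cn M (x i) (z i)) (Cn M (x j) (z j))) →
  (∀ j, BF M (T j) (Cn M (x j) (z j)) (Cn M (x j) (z j)) α ∅) →
  BF M (Glu M (fun j => Cn M (x j) (z j)) T) univ univ α ∅

def S_GLF3 : Prop := (∀ i, 0 < A i) → ∀ (ι : Type) (M : St (aD A)) (x z : ι → ℕ)
  (T : ι → St (aD A)), Cs M → (∀ j, x j ≠ z j) →
  (∀ i j, i ≠ j → Disjoint (Cn M (x i) (z i)) (Cn M (x j) (z j))) →
  (∀ j, Cn (Glu M (fun j => Cn M (x j) (z j)) T) (x j) (z j) = Cn M (x j) (z j)) ∧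
  (∀ j, IsoOn (T j) (Glu M (fun j => Cn M (x j) (z j)) T) (Cn M (x j) (z j))
    (Cn M (x j) (z j)) (idOn (Cn M (x j) (z j)))) ∧
  ∀ u v w, (∀ j, u ∈ Cn M (x j) (z j) → v ∈ Cn M (x j) (z j) → w ∉ Cn M (x j) (z j)) →
    (D (Glu M (fun j => Cn M (x j) (z j)) T) u v w ↔ D M u v w)

def S_KCONE : Prop := ∀ (V : RS A → Prop) (α : Ordinal.{0}) (K : Set (St (aD A))), GC V α K →
  ∀ M ∈ K, ∀ x z, x ≠ z → (Cn M x z).Infinite →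
  GC V α {N : St (aD A) | BF M N (Cn M x z) univ α ∅}

/-! ### Coding -/

def S_FILL3 : Prop := ∀ (α : Ordinal.{0}) (M : St (aD A)) (X : Set ℕ),
  Ordinal.omega0 ≤ α → ¬ Small α M X → ∀ F : Set (St (aD A) × Set ℕ), F.Countable →
  ∃ T : St (aD A), BF M T X X α ∅ ∧ ∀ P ∈ F, ¬ IsoOn P.1 T P.2 X ∅

def S_SEQ3 : Prop := ∀ (α : Ordinal.{0}) (M : St (aD A)) (x z : ℕ → ℕ), Ordinal.omega0 ≤ α →
  Cb α M x z → ∃ t : ℕ → St (aD A), GoodT α M x z t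

/-- Facts on combs. -/
def S_CBF : Prop := ∀ (α : Ordinal.{0}) (M : St (aD A)) (x z : ℕ → ℕ), Cb α M x z →
  (∀ m n, m ≤ n → Nd M (x n) (x (n + 1)) ⊆ Nd M (x m) (x (m + 1))) ∧
  (∀ m n, m ≤ n → Cn M (x n) (z n) ⊆ Nd M (x m) (x (m + 1))) ∧
  (∀ m n, m < n → Disjoint (Cn M (x m) (z m)) (Nd M (x n) (x (n + 1)))) ∧
  (∀ k, z k ∉ Cn M (x k) (z k)) ∧
  (∀ k, x k ∈ Cn M (x k) (z k))

/-- Facts on the filled structures. -/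
def S_DSF : Prop := ∀ (α : Ordinal.{0}) (M : St (aD A)) (x z : ℕ → ℕ) (t : ℕ → St (aD A)),
  SU α M x z t → ∀ σ : ℕ → Bool,
  BF M (DS M x z t σ) univ univ α ∅ ∧ Cs (DS M x z t σ) ∧
  (∀ k, Cn (DS M x z t σ) (x k) (z k) = Cn M (x k) (z k)) ∧
  (∀ k, Nd (DS M x z t σ) (x k) (x (k + 1)) = Nd M (x k) (x (k + 1))) ∧
  ∀ k, IsoOn (t (2 * k + (σ k).toNat)) (DS M x z t σ) (Cn M (x k) (z k)) (Cn M (x k) (z k)) ∅

/-- Cones disjoint from a node of the comb occur at an early stage. -/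
def S_STG : Prop := ∀ (α : Ordinal.{0}) (M : St (aD A)) (x z : ℕ → ℕ) (t : ℕ → St (aD A)),
  SU α M x z t → ∀ (σ : ℕ → Bool) (n s : ℕ), (∀ k < n, 2 * k + (σ k).toNat < s) →
  ∀ u v, u ≠ v → Disjoint (Cn (DS M x z t σ) u v) (Nd M (x n) (x (n + 1))) →
  ∃ P ∈ FF M x z t s, IsoOn P.1 (DS M x z t σ) P.2 (Cn (DS M x z t σ) u v) ∅

def S_DA : Prop := ∀ (α : Ordinal.{0}) (M : St (aD A)) (x z : ℕ → ℕ) (t : ℕ → St (aD A)),
  SU α M x z t → ∀ (σ τ : ℕ → Bool) (e : Equiv.Perm ℕ), Is (DS M x z t σ) (DS M x z t τ) e →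
  ∀ m, ¬ Disjoint (e '' Cn M (x m) (z m)) (Nd M (x m) (x (m + 1)))

def S_DB : Prop := ∀ (α : Ordinal.{0}) (M : St (aD A)) (x z : ℕ → ℕ) (t : ℕ → St (aD A)),
  SU α M x z t → ∀ (σ τ : ℕ → Bool) (e : Equiv.Perm ℕ), Is (DS M x z t σ) (DS M x z t τ) e →
  ∀ m, ¬ Nd M (x m) (x (m + 1)) ⊆ e '' Cn M (x m) (z m)

def S_DC : Prop := ∀ (α : Ordinal.{0}) (M : St (aD A)) (x z : ℕ → ℕ) (t : ℕ → St (aD A)),
  SU α M x z t → ∀ (σ τ : ℕ → Bool) (e : Equiv.Perm ℕ), Is (DS M x z t σ) (DS M x z t τ) e →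
  ∀ m, e '' Nd M (x m) (x (m + 1)) = Nd M (x m) (x (m + 1))

def S_DD : Prop := ∀ (α : Ordinal.{0}) (M : St (aD A)) (x z : ℕ → ℕ) (t : ℕ → St (aD A)),
  SU α M x z t → ∀ (σ τ : ℕ → Bool) (e : Equiv.Perm ℕ), Is (DS M x z t σ) (DS M x z t τ) e →
  σ = τ

def S_CODE3 : Prop := ∀ (V : RS A → Prop) (α : Ordinal.{0}) (K : Set (St (aD A))), GC V α K →
  ∀ M ∈ K, ∀ x z : ℕ → ℕ, ¬ Cb α M x z

def S_COMB : Prop := ∀ (α : Ordinal.{0}) (M : St (aD A)) (S : Set (St (aD A) × Set ℕ))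
  (P : List Bool → ℕ), Cs M → (∀ p, Bc S M p → ¬ Small α M (Cc M p)) → (∀ s, Bc S M (P s)) →
  (∀ s, Sc M (P s) (P (s ++ [false])) (P (s ++ [true]))) → ∃ x z : ℕ → ℕ, Cb α M x z

/-- A point centre. -/
def S_CTF : Prop := ∀ (S : Set (St (aD A) × Set ℕ)) (N : St (aD A)) (v : ℕ), CF S → Cs N →
  (∀ y, y ≠ v → (N, Cn N y v) ∈ S) → Ctr S N (Be S false N v)

/-- An end as centre. -/
def S_CTT : Prop := ∀ (S : Set (St (aD A) × Set ℕ)) (N : St (aD A)) (v : ℕ), CF S → Cs N →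
  (∀ y, ∃ x, x ≠ y ∧ (N, Cn N x y) ∉ S) →
  (∀ x z x' z', x ≠ z → x' ≠ z' → Disjoint (Cn N x z) (Cn N x' z') →
    (N, Cn N x z) ∈ S ∨ (N, Cn N x' z') ∈ S) → Ctr S N (Be S true N v)

def S_CT : Prop := ∀ (V : RS A → Prop), VCu V → ∀ (α : Ordinal.{0}) (K : Set (St (aD A)))
  (S : Set (St (aD A) × Set ℕ)) (b : Bool),
  GC V α K → CF S → ∃ h : ℕ → St (aD A), ∀ N ∈ K, ∀ v, Ctr S N (Be S b N v) →
    ∃ n, IsoOn (h n) N univ univ ∅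

/-! ### The main argument -/

/-- Finite cones. -/
def S_FINC : Prop := ∀ (V : RS A → Prop) (α : Ordinal.{0}) (K : Set (St (aD A))), GC V α K →
  ∃ h : ℕ → St (aD A) × Set ℕ, ∀ M ∈ K, ∀ x z, x ≠ z → (Cn M x z).Finite →
    ∃ n, IsoOn (h n).1 M (h n).2 (Cn M x z) ∅

/-- Infinite cones without two disjoint big subcones. -/
def S_INFC : Prop := ∀ (V : RS A → Prop), VCu V → ∀ (α : Ordinal.{0}) (K : Set (St (aD A)))
  (S : Set (St (aD A) × Set ℕ)), GC V α K → CF S → ∀ M ∈ K, ∀ x z, x ≠ z →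
  (Cn M x z).Infinite → ∃ h : ℕ → St (aD A), ∀ N : St (aD A), BF M N (Cn M x z) univ α ∅ →
  (∀ x z x' z', x ≠ z → x' ≠ z' → Disjoint (Cn N x z) (Cn N x' z') →
    (N, Cn N x z) ∈ S ∨ (N, Cn N x' z') ∈ S) → ∃ n, IsoOn (h n) N univ univ ∅

def S_SIM3 : Prop := ∀ (V : RS A → Prop), VCu V → ∀ (α : Ordinal.{0}) (K : Set (St (aD A)))
  (S : Set (St (aD A) × Set ℕ)), GC V α K → CF S → ∃ S' : Set (St (aD A) × Set ℕ),
  CF S' ∧ S ⊆ S' ∧ ∀ M ∈ K, ∀ p, Bc S' M p → ∃ q r, Sc M p q r ∧ Bc S M q ∧ Bc S M r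

open Pool.Agent.H533R2.VD (Rk)

def S_CNT3 : Prop := ∀ (V : RS A → Prop), VCu V → ∀ (α : Ordinal.{0}) (K : Set (St (aD A)))
  (S : Set (St (aD A) × Set ℕ)), GC V α K → CF S → ∀ ξ : Ordinal.{0}, ξ < Ordinal.omega 1 →
  ∃ S' : Set (St (aD A) × Set ℕ),
  CF S' ∧ S ⊆ S' ∧ ∀ M ∈ K, ∀ p, Pr p → ¬ Rk (Bc S M) (Sc M) ξ p → (M, Cc M p) ∈ S'

/-- Measurability of the splitting relation. -/
def S_MSC : Prop := ∀ p q r, MeasurableSet {M : St (aD A) | Sc M p q r}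

def S_BL3 : Prop := ∀ (K : Set (St (aD A))) (B : St (aD A) → ℕ → Prop)
  (Sp : St (aD A) → ℕ → ℕ → ℕ → Prop),
  MeasurableSet K → (∀ p, MeasurableSet {M : St (aD A) | M ∈ K ∧ B M p}) →
  (∀ p q r, MeasurableSet {M : St (aD A) | M ∈ K ∧ Sp M p q r}) →
  (∀ ξ : Ordinal.{0}, ξ < Ordinal.omega 1 → ∃ M ∈ K, ∃ p, Rk (B M) (Sp M) ξ p) →
  ∃ M ∈ K, ∃ P : List Bool → ℕ, (∀ s, B M (P s)) ∧
    ∀ s, Sp M (P s) (P (s ++ [false])) (P (s ++ [true]))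

def S_MAIN3 : Prop := ∀ (V : RS A → Prop), VCu V → ∀ (α : Ordinal.{0}) (K : Set (St (aD A))), GC V α K →
  ∃ h : ℕ → St (aD A), ∀ M ∈ K, ∃ n, IsoOn (h n) M univ univ ∅

end Pool.Agent.W875.TS
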